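import Pool.Agent.MP_118ac5_nt.C82
import Pool.Agent.MP_118ac5_nt.C83
import Pool.Agent.MP_118ac5_nt.C84
import Pool.Agent.MP_118ac5_nt.C85
import Pool.Agent.MP_118ac5_nt.C86
import Pool.Agent.MP_118ac5_nt.C87

/-! Collecting the kernel computations. -/

namespace Pool.Agent.MP_118ac5_nt

theorem all_chk : ∀ m ∈ ms, chk THL PSL m tl tr = true :=
  List.forall_mem_cons.2 <| And.intro mod0 <| List.forall_mem_cons.2 <| And.intro mod1 <| List.forall_mem_cons.2 <| And.intro mod2 <|
  List.forall_mem_cons.2 <| And.intro mod3 <| List.forall_mem_cons.2 <| And.intro mod4 <| List.forall_mem_cons.2 <| And.intro mod5 <|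
  List.forall_mem_cons.2 <| And.intro mod6 <| List.forall_mem_cons.2 <| And.intro mod7 <| List.forall_mem_cons.2 <| And.intro mod8 <|
  List.forall_mem_cons.2 <| And.intro mod9 <| List.forall_mem_cons.2 <| And.intro mod10 <| List.forall_mem_cons.2 <| And.intro mod11 <|
  List.forall_mem_cons.2 <| And.intro mod12 <| List.forall_mem_cons.2 <| And.intro mod13 <| List.forall_mem_cons.2 <| And.intro mod14 <|
  List.forall_mem_cons.2 <| And.intro mod15 <| List.forall_mem_cons.2 <| And.intro mod16 <| List.forall_mem_cons.2 <| And.intro mod17 <|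
  List.forall_mem_cons.2 <| And.intro mod18 <| List.forall_mem_cons.2 <| And.intro mod19 <| List.forall_mem_cons.2 <| And.intro mod20 <|
  List.forall_mem_cons.2 <| And.intro mod21 <| List.forall_mem_cons.2 <| And.intro mod22 <| List.forall_mem_cons.2 <| And.intro mod23 <|
  List.forall_mem_cons.2 <| And.intro mod24 <| List.forall_mem_cons.2 <| And.intro mod25 <| List.forall_mem_cons.2 <| And.intro mod26 <|
  List.forall_mem_cons.2 <| And.intro mod27 <| List.forall_mem_cons.2 <| And.intro mod28 <| List.forall_mem_cons.2 <| And.intro mod29 <|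
  List.forall_mem_cons.2 <| And.intro mod30 <| List.forall_mem_cons.2 <| And.intro mod31 <| List.forall_mem_cons.2 <| And.intro mod32 <|
  List.forall_mem_cons.2 <| And.intro mod33 <| List.forall_mem_cons.2 <| And.intro mod34 <| List.forall_mem_cons.2 <| And.intro mod35 <|
  List.forall_mem_cons.2 <| And.intro mod36 <| List.forall_mem_cons.2 <| And.intro mod37 <| List.forall_mem_cons.2 <| And.intro mod38 <|
  List.forall_mem_cons.2 <| And.intro mod39 <| List.forall_mem_cons.2 <| And.intro mod40 <| List.forall_mem_cons.2 <| And.intro mod41 <|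
  List.forall_mem_cons.2 <| And.intro mod42 <| List.forall_mem_cons.2 <| And.intro mod43 <| List.forall_mem_cons.2 <| And.intro mod44 <|
  List.forall_mem_cons.2 <| And.intro mod45 <| List.forall_mem_cons.2 <| And.intro mod46 <| List.forall_mem_cons.2 <| And.intro mod47 <|
  List.forall_mem_cons.2 <| And.intro mod48 <| List.forall_mem_cons.2 <| And.intro mod49 <| List.forall_mem_cons.2 <| And.intro mod50 <|
  List.forall_mem_cons.2 <| And.intro mod51 <| List.forall_mem_cons.2 <| And.intro mod52 <| List.forall_mem_cons.2 <| And.intro mod53 <|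
  List.forall_mem_cons.2 <| And.intro mod54 <| List.forall_mem_cons.2 <| And.intro mod55 <| List.forall_mem_cons.2 <| And.intro mod56 <|
  List.forall_mem_cons.2 <| And.intro mod57 <| List.forall_mem_cons.2 <| And.intro mod58 <| List.forall_mem_cons.2 <| And.intro mod59 <|
  List.forall_mem_cons.2 <| And.intro mod60 <| List.forall_mem_cons.2 <| And.intro mod61 <| List.forall_mem_cons.2 <| And.intro mod62 <|
  List.forall_mem_cons.2 <| And.intro mod63 <| List.forall_mem_cons.2 <| And.intro mod64 <| List.forall_mem_cons.2 <| And.intro mod65 <|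
  List.forall_mem_cons.2 <| And.intro mod66 <| List.forall_mem_cons.2 <| And.intro mod67 <| List.forall_mem_cons.2 <| And.intro mod68 <|
  List.forall_mem_cons.2 <| And.intro mod69 <| List.forall_mem_cons.2 <| And.intro mod70 <| List.forall_mem_cons.2 <| And.intro mod71 <|
  List.forall_mem_cons.2 <| And.intro mod72 <| List.forall_mem_cons.2 <| And.intro mod73 <| List.forall_mem_cons.2 <| And.intro mod74 <|
  List.forall_mem_cons.2 <| And.intro mod75 <| List.forall_mem_cons.2 <| And.intro mod76 <| List.forall_mem_cons.2 <| And.intro mod77 <|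
  List.forall_mem_cons.2 <| And.intro mod78 <| List.forall_mem_cons.2 <| And.intro mod79 <| List.forall_mem_cons.2 <| And.intro mod80 <|
  List.forall_mem_cons.2 <| And.intro mod81 <| List.forall_mem_cons.2 <| And.intro mod82 <| List.forall_mem_cons.2 <| And.intro mod83 <|
  List.forall_mem_cons.2 <| And.intro mod84 <| List.forall_mem_cons.2 <| And.intro mod85 <| List.forall_mem_cons.2 <| And.intro mod86 <|
  List.forall_mem_cons.2 <| And.intro mod87 <|
  fun _ h => nomatch h

theorem cop_ms : cop ms 1 = true := by decide +kernel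

theorem allGood_node (s : Nat) (l r : Tr) (h1 : allGood l = true) (h2 : allGood r = true) :
    allGood (.node s l r) = true := by
  show (allGood l && allGood r) = true
  rw [h1, h2]; rfl

theorem all_good : allGood (.node 1900544 tl tr) = true :=
  allGood_node _ _ _
    (allGood_node _ _ _ (allGood_node _ _ _ good_d0 good_d1)
      (allGood_node _ _ _ (allGood_node _ _ _ good_d2 good_d3) (allGood_node _ _ _ good_d4 good_d5)))
    (allGood_node _ _ _ (allGood_node _ _ _ (allGood_node _ _ _ good_d6 good_d7) good_d8)
      (allGood_node _ _ _ good_d9 good_d10))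

end Pool.Agent.MP_118ac5_nt
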