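import Pool.Agent.MP_118ac5_nt.Series

/-! An upper bound for the strict partition function. -/

namespace Pool.Agent.MP_118ac5_nt

open Finset Polynomial

theorem Qu_coeff_nonneg (n i : ℕ) : 0 ≤ (Qu (X : ℤ[X]) n).coeff i := by
  induction n generalizing i with
  | zero => simp [Qu, coeff_one]; split_ifs <;> simp
  | succ n ih =>
    unfold Qu at *
    rw [prod_range_succ, mul_add, mul_one, coeff_add, coeff_mul_X_pow']
    split_ifs
    · exact add_nonneg (ih _) (ih _)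
    · simpa using ih i

theorem Qu_coeff (j : ℕ) : (Qu (X : ℤ[X]) j).coeff j = qd j := by
  have h := PowerSeries.X_pow_dvd_iff.1 (Qs_dvd j) j (by omega)
  have h2 := map_Qu (Polynomial.coeToPowerSeries.ringHom (R := ℤ)) X j
  simp only [coeToPowerSeries.ringHom_apply, coe_X] at h2
  rw [map_sub, ← h2, coeff_coe, sub_eq_zero] at h
  rw [← h]; simp [Qs]

theorem qd_mul_le (j : ℕ) (x : ℝ) (hx : 0 ≤ x) : (qd j : ℝ) * x ^ j ≤ Qu x j := by
  have h1 : aeval x (Qu (X : ℤ[X]) j) = Qu x j := by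
    have := map_Qu ((aeval x : ℤ[X] →ₐ[ℤ] ℝ) : ℤ[X] →+* ℝ) X j
    simpa using this
  rw [← h1, aeval_eq_sum_range' (n := (Qu (X : ℤ[X]) j).natDegree + j + 1) (by omega)]
  have h2 := single_le_sum (f := fun i => (Qu (X : ℤ[X]) j).coeff i • x ^ i)
    (s := range ((Qu (X : ℤ[X]) j).natDegree + j + 1))
    (fun i _ => smul_nonneg (Qu_coeff_nonneg j i) (pow_nonneg hx i)) (a := j)
    (mem_range.2 (by omega))
  rw [Qu_coeff] at h2
  simpa using h2

theorem one_add_le_exp (y : ℝ) (h0 : 0 ≤ y) (h1 : y ≤ 1) :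
    1 + y ≤ Real.exp (y - 3 / 10 * y ^ 2) := by
  have hu : 0 ≤ y - 3 / 10 * y ^ 2 := by nlinarith
  have h := Real.sum_le_exp_of_nonneg hu 4
  simp only [sum_range_succ, range_zero, sum_empty, Nat.factorial] at h
  refine le_trans ?_ h
  have g : 0 ≤ 1 / 5 - 2 / 15 * y - 21 / 200 * y ^ 2 + 9 / 200 * y ^ 3 - 9 / 2000 * y ^ 4 := by
    nlinarith [mul_nonneg h0 (sub_nonneg.2 h1), mul_nonneg (mul_nonneg h0 h0) (sub_nonneg.2 h1),
      mul_nonneg (mul_nonneg (mul_nonneg h0 h0) h0) (sub_nonneg.2 h1)]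
  have g2 := mul_nonneg (sq_nonneg y) g
  norm_num
  nlinarith [g2]

theorem Qu_le (n : ℕ) : Qu (2989 / 2990 : ℝ) n ≤
    Real.exp (2989 * (1 - (2989 / 2990) ^ n) -
      3 / 10 * (2989 ^ 2 / 5979) * (1 - ((2989 / 2990) ^ n) ^ 2)) := by
  induction n with
  | zero => simp [Qu]
  | succ n ih =>
    have h0 : 0 ≤ (2989 / 2990 : ℝ) ^ (n + 1) := by positivity
    have h1 : (2989 / 2990 : ℝ) ^ (n + 1) ≤ 1 := pow_le_one₀ (by norm_num) (by norm_num)
    unfold Qu at *
    rw [prod_range_succ]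
    refine (mul_le_mul ih (one_add_le_exp _ h0 h1) (by positivity) (Real.exp_pos _).le).trans ?_
    rw [← Real.exp_add]
    apply le_of_eq
    congr 1
    rw [pow_succ]
    ring

theorem qd_lt (j : ℕ) (hj : j ≤ 7597152) : qd j < 2 ^ 7333 := by
  have h1 := (qd_mul_le j (2989 / 2990) (by norm_num)).trans (Qu_le j)
  have h0 : 0 ≤ (2989 / 2990 : ℝ) ^ j := by positivity
  have h2 : (2989 / 2990 : ℝ) ^ j ≤ 1 := pow_le_one₀ (by norm_num) (by norm_num)
  have h3 : (2990 / 2989 : ℝ) ^ j ≤ Real.exp (j * (1 / 2989)) := by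
    rw [Real.exp_nat_mul]
    refine pow_le_pow_left₀ (by norm_num) ?_ j
    have := Real.add_one_le_exp (1 / 2989 : ℝ)
    linarith
  have h4 : (qd j : ℝ) = (qd j : ℝ) * (2989 / 2990) ^ j * (2990 / 2989) ^ j := by
    rw [mul_assoc, ← mul_pow]; norm_num
  have h5 := mul_le_mul h1 h3 (by positivity) (Real.exp_pos _).le
  rw [← h4, ← Real.exp_add] at h5
  have h6 : (2 : ℝ) ^ 7333 = Real.exp ((7333 : ℕ) * Real.log 2) := by
    rw [Real.exp_nat_mul, Real.exp_log (by norm_num)]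
  have h7 := Real.log_two_gt_d9
  have hj' : (j : ℝ) ≤ 7597152 := by exact_mod_cast hj
  have h8 : (qd j : ℝ) < (2 : ℝ) ^ 7333 := by
    refine h5.trans_lt ?_
    rw [h6, Real.exp_lt_exp]
    generalize (2989 / 2990 : ℝ) ^ j = z at *
    have := mul_nonneg h0 (sub_nonneg.2 h2)
    push_cast
    nlinarith
  exact_mod_cast h8

end Pool.Agent.MP_118ac5_nt
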