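import Pool.Agent.MP_118ac5_nt.Sound
import Pool.Agent.MP_118ac5_nt.Bound

/-! Soundness of the compositeness, totient and Chinese remainder checks. -/

set_option exponentiation.threshold 8000

namespace Pool.Agent.MP_118ac5_nt

theorem force_eq (a : ℕ) (f : ℕ → ℕ) : force a f = f a := by
  cases a <;> rfl

theorem sq_modEq (N a b : ℕ) (h : a ≡ 2 ^ b [MOD N]) : sq N a ≡ 2 ^ (2 * b) [MOD N] := by
  rw [two_mul, pow_add]
  exact (Nat.mod_modEq _ _).trans (h.mul h)

theorem sq8_eq (N a b w : ℕ) (h : a ≡ 2 ^ b [MOD N]) : sq8 N a w = 2 ^ (256 * b + w) % N := by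
  have h8 := sq_modEq N _ _ (sq_modEq N _ _ (sq_modEq N _ _ (sq_modEq N _ _ (sq_modEq N _ _
    (sq_modEq N _ _ (sq_modEq N _ _ (sq_modEq N _ _ h)))))))
  rw [show 2 * (2 * (2 * (2 * (2 * (2 * (2 * (2 * b))))))) = 256 * b by ring] at h8
  unfold sq8
  rw [pow_add]
  generalize sq N (sq N (sq N (sq N (sq N (sq N (sq N (sq N a))))))) = s at *
  change (s <<< w) % N = _
  rw [Nat.shiftLeft_eq]
  exact h8.mul_right _

theorem pw_modEq (N e i a : ℕ) (h : a ≡ 2 ^ (e / 2 ^ (8 * i)) [MOD N]) :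
    pw N e i a ≡ 2 ^ e [MOD N] := by
  induction i generalizing a with
  | zero => simpa [pw] using h
  | succ i ih =>
    unfold pw
    rw [force_eq]
    apply ih
    rw [sq8_eq N a _ _ h]
    refine (Nat.mod_modEq _ _).trans ?_
    have e1 : Nat.mod (Nat.shiftRight e (Nat.mul 8 i)) 256 = e / 2 ^ (8 * i) % 256 := by
      rw [← Nat.shiftRight_eq_div_pow]; rfl
    have e2 : e / 2 ^ (8 * (i + 1)) = e / 2 ^ (8 * i) / 256 := by
      rw [Nat.div_div_eq_div_mul, mul_add, pow_add]; rfl
    rw [e1, e2, Nat.div_add_mod]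

theorem pw_lt (N e i a : ℕ) (h : a < N) : pw N e i a < N := by
  induction i generalizing a with
  | zero => simpa [pw] using h
  | succ i ih =>
    unfold pw
    rw [force_eq]
    apply ih
    exact Nat.mod_lt _ (by omega)

theorem good_sound (Q p : ℕ) (h : good Q p = true) : Q < 2 ^ 7333 ∧ ¬ (Q + 1).Prime := by
  simp only [good, Bool.and_eq_true, Nat.blt_eq] at h
  obtain ⟨⟨h1, h2⟩, h3⟩ := h
  refine ⟨h1, fun hp => ?_⟩
  cases hb : Nat.ble 4000000 p with
  | true =>
    rw [hb, cond_true] at h3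
    simp only [Bool.and_eq_true, Nat.beq_eq, Bool.not_eq_true', Nat.add_eq, Nat.mul_eq] at h3
    obtain ⟨h4, h5⟩ := h3
    generalize Nat.sub p 4000000 = w at *
    have h6 : Q / 2 ^ (8 * w) = 0 := by rw [← Nat.shiftRight_eq_div_pow]; exact h4
    have h7 := pw_modEq (Q + 1) Q w 1 (by rw [h6]; rfl)
    have h8 : Nat.Coprime 2 (Q + 1) := (Nat.coprime_primes Nat.prime_two hp).2 (by omega)
    have h9 := Nat.ModEq.pow_totient h8
    rw [Nat.totient_prime hp, Nat.add_sub_cancel] at h9
    have h10 := Nat.ModEq.eq_of_lt_of_lt (h7.trans h9) (pw_lt _ _ _ _ (by omega)) (by omega)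
    rw [h10] at h5
    exact absurd h5 (by decide)
  | false =>
    rw [hb, cond_false] at h3
    simp only [Bool.and_eq_true, Nat.beq_eq, Nat.blt_eq, Nat.ble_eq, Nat.add_eq] at h3
    obtain ⟨⟨h4, h5⟩, h6⟩ := h3
    rcases hp.eq_one_or_self_of_dvd p (Nat.dvd_of_mod_eq_zero h6) with h | h <;> omega

theorem allGood_sound (t : Tr) (h : allGood t = true) (i : ℕ) (hi : 0 < t.get i) :
    t.get i < 2 ^ 7333 ∧ ¬ (t.get i + 1).Prime := by
  induction t generalizing i with
  | nil => simp [Tr.get] at hi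
  | leaf off Q p =>
    unfold Tr.get at hi ⊢
    cases hb : Nat.beq i off with
    | true => exact good_sound Q p h
    | false => simp [hb] at hi
  | node s l r ihl ihr =>
    simp only [allGood, Bool.and_eq_true] at h
    unfold Tr.get at hi ⊢
    cases hb : Nat.blt i s with
    | true => rw [hb, cond_true] at hi; exact ihl h.1 i hi
    | false => rw [hb, cond_false] at hi; exact ihr h.2 _ hi

theorem lf_eq (n f k : ℕ) (h : lf n f k ≠ 0) : lf n f k = Nat.minFacAux n k := by
  induction f generalizing k with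
  | zero => exact absurd rfl h
  | succ f ih =>
    unfold lf at h ⊢
    rw [Nat.minFacAux]
    by_cases h1 : n < k * k
    · have : Nat.blt n (Nat.mul k k) = true := by rw [Nat.blt_eq]; exact h1
      rw [this, cond_true, if_pos h1]
    · have : Nat.blt n (Nat.mul k k) = false := by
        rw [← Bool.not_eq_true, Nat.blt_eq]; exact h1
      rw [this, cond_false] at h ⊢
      rw [if_neg h1]
      by_cases h2 : k ∣ n
      · have : Nat.beq (Nat.mod n k) 0 = true := by
          rw [Nat.beq_eq]; exact Nat.mod_eq_zero_of_dvd h2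
        rw [this, cond_true, if_pos h2]
      · have : Nat.beq (Nat.mod n k) 0 = false := by
          rw [← Bool.not_eq_true, Nat.beq_eq]; exact fun h3 => h2 (Nat.dvd_of_mod_eq_zero h3)
        rw [this, cond_false] at h ⊢
        rw [if_neg h2]
        exact ih _ h

theorem mf_eq (n : ℕ) (h : mf n ≠ 0) : mf n = n.minFac := by
  unfold mf at h ⊢
  rw [Nat.minFac_eq]
  by_cases h2 : 2 ∣ n
  · have : Nat.beq (Nat.mod n 2) 0 = true := by
      rw [Nat.beq_eq]; exact Nat.mod_eq_zero_of_dvd h2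
    rw [this, cond_true, if_pos h2]
  · have : Nat.beq (Nat.mod n 2) 0 = false := by
      rw [← Bool.not_eq_true, Nat.beq_eq]; exact fun h3 => h2 (Nat.dvd_of_mod_eq_zero h3)
    rw [this, cond_false] at h ⊢
    rw [if_neg h2]
    exact lf_eq _ _ _ h

theorem tot_eq (f n : ℕ) (hn : 1 ≤ n) (h : tot f n ≠ 0) : tot f n = n.totient := by
  induction f generalizing n with
  | zero => exact absurd rfl h
  | succ f ih =>
    unfold tot at h ⊢
    by_cases h1 : n ≤ 1
    · obtain rfl : n = 1 := by omega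
      rfl
    · have : Nat.ble n 1 = false := by
        rw [← Bool.not_eq_true, Nat.ble_eq]; exact h1
      rw [this, cond_false, force_eq] at h ⊢
      have h0 : mf n ≠ 0 := fun h0 => h (by
        rw [h0]
        have : Nat.div n 0 = 0 := Nat.div_zero n
        simp only [tot1, this]
        exact Nat.zero_mul _)
      rw [mf_eq n h0] at h ⊢
      have hp : n.minFac.Prime := Nat.minFac_prime (by omega)
      have hd : n.minFac * (n / n.minFac) = n := Nat.mul_div_cancel' (Nat.minFac_dvd n)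
      have hq : 1 ≤ n / n.minFac := Nat.div_pos (Nat.minFac_le (by omega)) hp.pos
      generalize n.minFac = p at *
      unfold tot1 at h ⊢
      have e : Nat.div n p = n / p := rfl
      rw [e] at h ⊢
      generalize n / p = r at *
      subst hd
      by_cases h2 : p ∣ r
      · have : Nat.beq (Nat.mod r p) 0 = true := by
          rw [Nat.beq_eq]; exact Nat.mod_eq_zero_of_dvd h2
        rw [this, cond_true, Nat.mul_eq] at h ⊢
        rw [ih r hq (right_ne_zero_of_mul h), Nat.totient_mul_of_prime_of_dvd hp h2]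
      · have : Nat.beq (Nat.mod r p) 0 = false := by
          rw [← Bool.not_eq_true, Nat.beq_eq]; exact fun h3 => h2 (Nat.dvd_of_mod_eq_zero h3)
        rw [this, cond_false, Nat.mul_eq] at h ⊢
        rw [ih r hq (right_ne_zero_of_mul h), Nat.totient_mul_of_prime_of_not_dvd hp h2]
        rfl

theorem okK_sound (t : Tr) (k m : ℕ) (hk : 1 ≤ k) (hm : 1 ≤ m) (h : okK t (k + m) k = true) :
    ∃ i, k.totient * m.totient / 4 = 2 * i ∧ i ≤ 3798576 ∧ 0 < t.get i := by
  unfold okK okJ at h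
  simp only [Bool.and_eq_true, Nat.blt_eq, Nat.beq_eq, Nat.ble_eq, Nat.mul_eq, Nat.sub_eq,
    Nat.add_sub_cancel_left] at h
  obtain ⟨⟨⟨h1, h2⟩, h3⟩, h4⟩ := h
  rw [tot_eq 16 k hk (left_ne_zero_of_mul h1.ne'), tot_eq 16 m hm (right_ne_zero_of_mul h1.ne')]
    at h2 h3 h4
  generalize k.totient * m.totient = j at *
  refine ⟨j / 8, ?_, h3, h4⟩
  have h5 : j / 4 % 2 = 0 := h2
  omega

theorem allR_sound (f : ℕ → Bool) (d lo : ℕ) (h : allR f d lo = true) (i : ℕ) (h1 : lo ≤ i)
    (h2 : i < lo + 2 ^ d) : f i = true := by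
  induction d generalizing lo with
  | zero =>
    obtain rfl : i = lo := by omega
    exact h
  | succ d ih =>
    simp only [allR, Bool.and_eq_true, Nat.add_eq, Nat.pow_eq] at h
    by_cases e : i < lo + 2 ^ d
    · exact ih lo h.1 h1 e
    · exact ih _ h.2 (by omega) (by rw [pow_succ] at h2; omega)

theorem cop_sound (a b : ℕ) (ha : a < 2 ^ 7333) (hb : b < 2 ^ 7333) (l : List ℕ) (P : ℕ)
    (h : cop l P = true) (hP : a ≡ b [MOD P])
    (hl : ∀ m ∈ l, m ≤ 19342813113834066795298816 → a ≡ b [MOD m]) : a = b := by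
  induction l generalizing P with
  | nil =>
    simp only [cop, Nat.ble_eq, Nat.pow_eq] at h
    exact hP.eq_of_lt_of_lt (ha.trans_le h) (hb.trans_le h)
  | cons m l ih =>
    simp only [cop, Bool.and_eq_true, Nat.beq_eq, Nat.ble_eq, Nat.mul_eq] at h
    obtain ⟨⟨⟨h1, h2⟩, -⟩, h3⟩ := h
    refine ih _ h3 ((Nat.modEq_and_modEq_iff_modEq_mul h1).1 ⟨hP, hl m (by simp) h2⟩) ?_
    exact fun m' hm' => hl m' (by simp [hm'])

theorem not_prime_of (tl tr : Tr) (hc : cop ms 1 = true)
    (hm : ∀ m ∈ ms, chk (TH 796) (PS 975) m tl tr = true)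
    (hg : allGood (Tr.node 1900544 tl tr) = true) (k m : ℕ) (hk : 1 ≤ k) (hm1 : 1 ≤ m)
    (h : okK (Tr.node 1900544 tl tr) (k + m) k = true) :
    ¬ (qd (k.totient * m.totient / 4) + 1).Prime := by
  obtain ⟨i, h1, h2, h3⟩ := okK_sound _ k m hk hm1 h
  obtain ⟨h4, h5⟩ := allGood_sound _ hg i h3
  rw [h1, cop_sound _ _ (qd_lt (2 * i) (by omega)) h4 ms 1 hc (Nat.modEq_one)
    (fun m' hm' hle => chk_sound m' tl tr hle (hm m' hm') i (by omega) h3)]
  exact h5

end Pool.Agent.MP_118ac5_nt
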