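import Pool.Agent.MP_118ac5_nt.C72

namespace Pool.Agent.MP_118ac5_nt

theorem mod78 : chk THL PSL 19342813113834066795298271 tl tr = true := by decide +kernel

end Pool.Agent.MP_118ac5_nt
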