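set_option autoImplicit false

/-! Big-number arithmetic on digit strings in base `2 ^ 96` (no Mathlib import). -/

namespace Pool.Agent.MP_118ac5_nt

def shl (a k : Nat) : Nat := Nat.shiftLeft a (Nat.mul 96 k)
def shr (a k : Nat) : Nat := Nat.shiftRight a (Nat.mul 96 k)
def msk (k : Nat) : Nat := Nat.sub (shl 1 k) 1
def trunc (a k : Nat) : Nat := Nat.land a (msk k)
def ones (k : Nat) : Nat := Nat.div (msk k) 79228162514264337593543950335
def m12 (k : Nat) : Nat := Nat.mul (ones k) 4095
def m84 (k : Nat) : Nat := Nat.mul (ones k) 19342813113834066795298815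

/-- Divide and conquer evaluation of a sparse sum. -/
def bld (pos leaf : Nat → Nat) : Nat → Nat → Nat → Nat
  | 0, lo, _ => leaf lo
  | fuel + 1, lo, cnt =>
    cond (Nat.ble cnt 1) (leaf lo)
      (Nat.add (bld pos leaf fuel lo (Nat.div cnt 2))
        (shl (bld pos leaf fuel (Nat.add lo (Nat.div cnt 2)) (Nat.sub cnt (Nat.div cnt 2)))
          (Nat.sub (pos (Nat.add lo (Nat.div cnt 2))) (pos lo))))

def posE (t : Nat) : Nat := Nat.add (Nat.mul 6 (Nat.mul t t)) t
def leafE (t : Nat) : Nat :=
  Nat.sub (Nat.add (shl 1 (Nat.add (Nat.mul 10 t) 5)) 1)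
    (Nat.add (shl 1 (Nat.add (Nat.mul 6 t) 2)) (shl 1 (Nat.add (Nat.mul 4 t) 1)))
def posP (t : Nat) : Nat := Nat.add (Nat.mul 4 (Nat.mul t t)) t
def leafP (t : Nat) : Nat := Nat.add (shl 1 (Nat.add (Nat.mul 6 t) 3)) 1

def TH (K : Nat) : Nat := bld posE leafE 10 0 K
def PS (K : Nat) : Nat := bld posP leafP 10 0 K

/-! Untrusted part: Newton iteration. -/

def ones2 (k : Nat) : Nat :=
  Nat.div (msk k) 6277101735386680763835789423207666416102355444464034512895
def mEv (k : Nat) : Nat := Nat.mul (ones2 k) 79228162514264337593543950335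
def mD (k : Nat) : Nat := Nat.mul (ones2 k) 81129638414606681695789005144063
def redS (m r P : Nat) : Nat := Nat.sub P (Nat.mul (Nat.land (Nat.shiftRight P 84) (m12 r)) m)
def redE (m r P : Nat) : Nat :=
  Nat.sub P (Nat.mul (Nat.land (Nat.shiftRight P 85) (mD r)) (Nat.mul m 2))
def redO (m r P : Nat) : Nat :=
  Nat.sub P (Nat.mul (Nat.land (Nat.shiftRight P 181) (mD r)) (Nat.shiftLeft m 97))
def adiff (a b : Nat) : Nat := cond (Nat.ble b a) (Nat.sub a b) (Nat.sub b a)
def dense3 (m r ev od : Nat) : Nat :=
  Nat.shiftRight (Nat.add (redE m r (redE m r (trunc ev r)))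
    (redO m r (redO m r (trunc od (Nat.add r 1))))) 1
def dense2 (m r : Nat) (s : Bool) (A D : Nat) : Nat :=
  cond s (dense3 m r A D) (dense3 m r D A)
def dense1 (m r : Nat) (s : Bool) (P N : Nat) : Nat := dense2 m r s (Nat.add P N) (Nat.sub P N)
def dense0 (m r Y R Ye Yo Re Ro : Nat) : Nat :=
  dense1 m r (cond (Nat.ble Yo Ye) (Nat.ble Ro Re) (Bool.not (Nat.ble Ro Re))) (Nat.mul Y R)
    (Nat.mul (adiff Ye Yo) (adiff Re Ro))
def dense (m r Y R : Nat) : Nat :=
  dense0 m r Y R (Nat.land Y (mEv r)) (Nat.sub Y (Nat.land Y (mEv r)))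
    (Nat.land R (mEv r)) (Nat.sub R (Nat.land R (mEv r)))
def dbl (th m k0 k1 Y : Nat) : Nat :=
  Nat.add Y (shl (dense m k0 Y (redS m k0 (trunc (shr
    (Nat.add (Nat.mul (trunc th k1) Y) (Nat.mul (ones k1) (Nat.mul m 1600))) k0) k0))) k0)
def hor : List Nat → Nat
  | [] => 0
  | a :: l => Nat.add a (shl (hor l) 1)
def start (m : Nat) : Nat := Nat.sub (Nat.mul (ones 58) m) (hor
  [1, 1, 2, 3, 5, 7, 11, 15, 22, 30, 42, 56, 77, 101, 135, 176, 231, 297, 385, 490, 627, 792, 1002,
   1255, 1575, 1958, 2436, 3010, 3718, 4565, 5604, 6842, 8349, 10143, 12310, 14883, 17977, 21637,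
   26015, 31185, 37338, 44583, 53174, 63261, 75175, 89134, 105558, 124754, 147273, 173525, 204226,
   239943, 281589, 329931, 386155, 451276, 526823, 614154])
def newton (th m : Nat) : Nat :=
  dbl th m 950272 1900544 <| dbl th m 475136 950272 <| dbl th m 237568 475136 <|
  dbl th m 118784 237568 <| dbl th m 59392 118784 <| dbl th m 29696 59392 <|
  dbl th m 14848 29696 <| dbl th m 7424 14848 <| dbl th m 3712 7424 <|
  dbl th m 1856 3712 <| dbl th m 928 1856 <| dbl th m 464 928 <|
  dbl th m 232 464 <| dbl th m 116 232 <| dbl th m 58 116 (start m)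

/-! Trusted part. -/

inductive Tr where
  | nil : Tr
  | leaf (off Q p : Nat) : Tr
  | node (s : Nat) (l r : Tr) : Tr

def Tr.get : Tr → Nat → Nat
  | .nil, _ => 0
  | .leaf off Q _, i => cond (Nat.beq i off) Q 0
  | .node s l r, i => cond (Nat.blt i s) (l.get i) (r.get (Nat.sub i s))

def ext (m : Nat) : Tr → Nat → Bool
  | .nil, _ => true
  | .leaf off Q _, N => Nat.beq (Nat.mod (Nat.add (trunc (shr N off) 1) Q) m) 0
  | .node s l r, N => ext m l (trunc N s) && ext m r (shr N s)

def stageA (th ps M m Z0 : Nat) : Nat :=
  Nat.add (Nat.mul th Z0) (Nat.add (Nat.mul (ones M) (Nat.mul m 1600)) ps)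
def stageT (th ps k M m Z0 : Nat) : Nat := trunc (shr (stageA th ps M m Z0) k) k
def mult (k m D : Nat) : Bool := Nat.beq (Nat.mul (Nat.land (Nat.div D m) (m12 k)) m) D

def verify (th ps k M m Z0 Z1 : Nat) (tl tr : Tr) : Bool :=
  mult k m (trunc (stageA th ps M m Z0) k) &&
  mult k m (trunc (Nat.add (stageT th ps k M m Z0) (Nat.mul (trunc th k) Z1)) k) &&
  ext m tl Z0 && ext m tr Z1

def chk0 (th ps k M m Y Z0 : Nat) (tl tr : Tr) : Bool :=
  verify th ps k M m Z0 (Nat.land (dense m k Y (redS m k (stageT th ps k M m Z0))) (m84 k)) tl tr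
def chk1 (th ps k M m Y : Nat) (tl tr : Tr) : Bool :=
  chk0 th ps k M m Y (Nat.land (redS m k (trunc (Nat.mul (trunc ps k) Y) k)) (m84 k)) tl tr
def chk (th ps m : Nat) (tl tr : Tr) : Bool :=
  chk1 th ps 1900544 3801088 m (newton th m) tl tr

/-! Compositeness of the listed values plus one. -/

def force (a : Nat) (f : Nat → Nat) : Nat :=
  match a with
  | 0 => f 0
  | b + 1 => f (b + 1)

def sq (N a : Nat) : Nat := Nat.mod (Nat.mul a a) N
def sq8 (N a w : Nat) : Nat :=
  Nat.mod (Nat.shiftLeft (sq N (sq N (sq N (sq N (sq N (sq N (sq N (sq N a)))))))) w) N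

def pw (N e : Nat) : Nat → Nat → Nat
  | 0, a => a
  | i + 1, a => force (sq8 N a (Nat.mod (Nat.shiftRight e (Nat.mul 8 i)) 256)) (pw N e i)

def good (Q p : Nat) : Bool :=
  Nat.blt Q (Nat.pow 2 7333) && Nat.blt 1 Q &&
  cond (Nat.ble 4000000 p)
    (Nat.beq (Nat.shiftRight Q (Nat.mul 8 (Nat.sub p 4000000))) 0 &&
      Bool.not (Nat.beq (pw (Nat.add Q 1) Q (Nat.sub p 4000000) 1) 1))
    (Nat.blt 1 p && Nat.ble p Q && Nat.beq (Nat.mod (Nat.add Q 1) p) 0)

def allGood : Tr → Bool
  | .nil => true
  | .leaf _ Q p => good Q p
  | .node _ l r => allGood l && allGood r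

/-! Totients and the covering of all decompositions. -/

def lf (n : Nat) : Nat → Nat → Nat
  | 0, _ => 0
  | f + 1, k => cond (Nat.blt n (Nat.mul k k)) n
      (cond (Nat.beq (Nat.mod n k) 0) k (lf n f (Nat.add k 2)))
def mf (n : Nat) : Nat := cond (Nat.beq (Nat.mod n 2) 0) 2 (lf n 70 3)
def tot1 (n p : Nat) (g : Nat → Nat) : Nat :=
  cond (Nat.beq (Nat.mod (Nat.div n p) p) 0) (Nat.mul p (g (Nat.div n p)))
    (Nat.mul (Nat.sub p 1) (g (Nat.div n p)))
def tot : Nat → Nat → Nat
  | 0, _ => 0
  | f + 1, n => cond (Nat.ble n 1) 1 (force (mf n) (fun p => tot1 n p (tot f)))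

def okJ (t : Tr) (j4 : Nat) : Bool :=
  Nat.blt 0 j4 && Nat.beq (Nat.mod (Nat.div j4 4) 2) 0 && Nat.ble (Nat.div j4 8) 3798576 &&
  Nat.blt 0 (t.get (Nat.div j4 8))
def okK (t : Tr) (n k : Nat) : Bool := okJ t (Nat.mul (tot 16 k) (tot 16 (Nat.sub n k)))
def allR (f : Nat → Bool) : Nat → Nat → Bool
  | 0, lo => f lo
  | d + 1, lo => allR f d lo && allR f d (Nat.add lo (Nat.pow 2 d))

/-! The moduli. -/

def ms : List Nat :=
  [19342813113834066795298815, 19342813113834066795298813, 19342813113834066795298811,
   19342813113834066795298807, 19342813113834066795298799, 19342813113834066795298793,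
   19342813113834066795298783, 19342813113834066795298781, 19342813113834066795298777,
   19342813113834066795298771, 19342813113834066795298769, 19342813113834066795298753,
   19342813113834066795298751, 19342813113834066795298747, 19342813113834066795298741,
   19342813113834066795298739, 19342813113834066795298733, 19342813113834066795298727,
   19342813113834066795298721, 19342813113834066795298709, 19342813113834066795298697,
   19342813113834066795298693, 19342813113834066795298691, 19342813113834066795298687,
   19342813113834066795298673, 19342813113834066795298669, 19342813113834066795298667,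
   19342813113834066795298663, 19342813113834066795298651, 19342813113834066795298649,
   19342813113834066795298639, 19342813113834066795298637, 19342813113834066795298631,
   19342813113834066795298627, 19342813113834066795298621, 19342813113834066795298609,
   19342813113834066795298603, 19342813113834066795298601, 19342813113834066795298597,
   19342813113834066795298573, 19342813113834066795298571, 19342813113834066795298567,
   19342813113834066795298559, 19342813113834066795298553, 19342813113834066795298543,
   19342813113834066795298541, 19342813113834066795298537, 19342813113834066795298523,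
   19342813113834066795298519, 19342813113834066795298517, 19342813113834066795298513,
   19342813113834066795298499, 19342813113834066795298489, 19342813113834066795298487,
   19342813113834066795298483, 19342813113834066795298469, 19342813113834066795298453,
   19342813113834066795298447, 19342813113834066795298439, 19342813113834066795298433,
   19342813113834066795298429, 19342813113834066795298427, 19342813113834066795298417,
   19342813113834066795298411, 19342813113834066795298391, 19342813113834066795298379,
   19342813113834066795298369, 19342813113834066795298361, 19342813113834066795298333,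
   19342813113834066795298331, 19342813113834066795298319, 19342813113834066795298313,
   19342813113834066795298303, 19342813113834066795298301, 19342813113834066795298291,
   19342813113834066795298289, 19342813113834066795298279, 19342813113834066795298277,
   19342813113834066795298271, 19342813113834066795298259, 19342813113834066795298253,
   19342813113834066795298249, 19342813113834066795298237, 19342813113834066795298231,
   19342813113834066795298229, 19342813113834066795298223, 19342813113834066795298219,
   19342813113834066795298207]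

def cop : List Nat → Nat → Bool
  | [], P => Nat.ble (Nat.pow 2 7333) P
  | m :: l, P => Nat.beq (Nat.gcd P m) 1 && Nat.ble m 19342813113834066795298816 &&
      Nat.ble 19342813113834066795297816 m && cop l (Nat.mul P m)

end Pool.Agent.MP_118ac5_nt
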