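import Pool.Agent.MP_118ac5_nt.Comp

/-! The two sparse numbers, produced together with few intermediate values. -/

namespace Pool.Agent.MP_118ac5_nt

def evW : Tr → Nat
  | .nil => 0
  | .leaf _ Q _ => Q
  | .node s l r =>
    cond (Nat.beq (Nat.mod s 2) 0) (Nat.add (shl (evW r) (Nat.div s 2)) (evW l))
      (Nat.sub (shl (evW r) (Nat.div s 2)) (evW l))

set_option maxRecDepth 100000 in
noncomputable def wt : Tr :=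
 (.node 3883995 (.node 1909614 (.node 977553 (.node 479601 (.node 238290 (.node 116231 (.node
 60351 (.node 29305 (.node 14631 (.node 7141 (.node 3435 (.node 1704 (.node 752 (.node 353 (.node
 185 (.node 102 (.node 45 (.node 24 (.node 10 (.node 5 (.node 3 (.leaf 0 5 0) (.leaf 0 1 0))
 (.node 3 (.leaf 0 1 0) (.leaf 0 4 0))) (.node 4 (.leaf 0 5 0) (.leaf 0 1 0))) (.node 13 (.node 4
 (.leaf 0 1 0) (.node 3 (.leaf 0 4 0) (.leaf 0 1 0))) (.leaf 0 4 0))) (.node 23 (.node 8 (.leaf 0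
 1 0) (.leaf 0 1 0)) (.node 12 (.node 5 (.leaf 0 4 0) (.leaf 0 1 0)) (.node 3 (.leaf 0 4 0) (.leaf
 0 1 0))))) (.node 35 (.node 12 (.leaf 0 1 0) (.node 6 (.leaf 0 1 0) (.leaf 0 4 0))) (.node 18
 (.node 5 (.leaf 0 4 0) (.leaf 0 1 0)) (.leaf 0 1 0)))) (.node 93 (.node 51 (.node 16 (.node 6
 (.leaf 0 1 0) (.leaf 0 4 0)) (.node 10 (.leaf 0 1 0) (.leaf 0 4 0))) (.node 18 (.leaf 0 1 0)
 (.leaf 0 1 0))) (.node 24 (.node 14 (.leaf 0 4 0) (.leaf 0 1 0)) (.node 10 (.leaf 0 4 0) (.leaf 0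
 1 0))))) (.node 223 (.node 142 (.node 54 (.node 23 (.leaf 0 1 0) (.node 5 (.leaf 0 1 0) (.leaf 0
 4 0))) (.node 38 (.node 14 (.leaf 0 4 0) (.leaf 0 1 0)) (.leaf 0 1 0))) (.node 26 (.node 3 (.leaf
 0 1 0) (.leaf 0 4 0)) (.node 9 (.leaf 0 1 0) (.leaf 0 4 0)))) (.node 87 (.node 28 (.leaf 0 1 0)
 (.node 28 (.leaf 0 1 0) (.leaf 0 4 0))) (.node 31 (.node 7 (.leaf 0 1 0) (.leaf 0 4 0)) (.leaf 0
 1 0))))) (.node 551 (.node 312 (.node 195 (.node 69 (.node 28 (.leaf 0 1 0) (.node 4 (.leaf 0 4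
 0) (.leaf 0 1 0))) (.node 64 (.node 31 (.leaf 0 4 0) (.leaf 0 1 0)) (.leaf 0 1 0))) (.node 44
 (.node 8 (.leaf 0 4 0) (.leaf 0 1 0)) (.leaf 0 5 0))) (.node 112 (.node 39 (.leaf 0 1 0) (.node
 27 (.leaf 0 1 0) (.leaf 0 4 0))) (.node 44 (.node 4 (.leaf 0 4 0) (.leaf 0 1 0)) (.leaf 0 1 0))))
 (.node 239 (.node 128 (.node 42 (.node 25 (.leaf 0 1 0) (.leaf 0 4 0)) (.node 35 (.leaf 0 1 0)
 (.leaf 0 4 0))) (.node 44 (.leaf 0 1 0) (.leaf 0 1 0))) (.node 56 (.node 25 (.leaf 0 4 0) (.leaf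
 0 1 0)) (.node 15 (.leaf 0 4 0) (.leaf 0 1 0)))))) (.node 791 (.node 299 (.node 127 (.node 48
 (.leaf 0 1 0) (.node 18 (.leaf 0 1 0) (.leaf 0 4 0))) (.node 70 (.node 21 (.leaf 0 4 0) (.leaf 0
 1 0)) (.leaf 0 1 0))) (.node 277 (.node 159 (.node 52 (.node 14 (.leaf 0 1 0) (.leaf 0 4 0))
 (.node 26 (.leaf 0 1 0) (.leaf 0 4 0))) (.node 54 (.leaf 0 1 0) (.leaf 0 1 0))) (.node 46 (.leaf
 0 4 0) (.node 56 (.node 22 (.leaf 0 1 0) (.leaf 0 4 0)) (.leaf 0 1 0))))) (.node 547 (.node 356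
 (.node 134 (.node 59 (.leaf 0 1 0) (.node 5 (.leaf 0 1 0) (.leaf 0 4 0))) (.node 102 (.node 42
 (.leaf 0 4 0) (.leaf 0 1 0)) (.leaf 0 1 0))) (.node 65 (.node 3 (.leaf 0 4 0) (.leaf 0 1 0))
 (.node 13 (.leaf 0 1 0) (.leaf 0 4 0)))) (.node 195 (.node 64 (.leaf 0 1 0) (.node 56 (.leaf 0 1
 0) (.leaf 0 4 0))) (.node 67 (.node 7 (.leaf 0 1 0) (.leaf 0 4 0)) (.leaf 0 1 0)))))) (.node 1817
 (.node 1091 (.node 636 (.node 395 (.node 207 (.node 136 (.node 52 (.leaf 0 1 0) (.node 16 (.leaf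
 0 4 0) (.leaf 0 1 0))) (.leaf 0 4 0)) (.node 70 (.leaf 0 1 0) (.leaf 0 1 0))) (.node 88 (.node 24
 (.leaf 0 4 0) (.leaf 0 1 0)) (.node 8 (.leaf 0 4 0) (.leaf 0 1 0)))) (.node 208 (.node 75 (.leaf
 0 1 0) (.node 43 (.leaf 0 1 0) (.leaf 0 4 0))) (.node 92 (.node 16 (.leaf 0 4 0) (.leaf 0 1 0))
 (.leaf 0 1 0)))) (.node 427 (.node 236 (.node 78 (.node 37 (.leaf 0 1 0) (.leaf 0 4 0)) (.node 55
 (.leaf 0 1 0) (.leaf 0 4 0))) (.node 80 (.leaf 0 1 0) (.leaf 0 1 0))) (.node 100 (.node 53 (.leaf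
 0 4 0) (.leaf 0 1 0)) (.node 35 (.leaf 0 4 0) (.leaf 0 1 0))))) (.node 780 (.node 515 (.node 211
 (.node 84 (.leaf 0 1 0) (.node 22 (.leaf 0 1 0) (.leaf 0 4 0))) (.node 130 (.node 45 (.leaf 0 4
 0) (.leaf 0 1 0)) (.leaf 0 1 0))) (.node 88 (.node 14 (.leaf 0 1 0) (.leaf 0 4 0)) (.node 34
 (.leaf 0 1 0) (.leaf 0 4 0)))) (.node 550 (.node 187 (.node 90 (.leaf 0 1 0) (.leaf 0 1 0))
 (.node 86 (.leaf 0 4 0) (.node 92 (.node 26 (.leaf 0 1 0) (.leaf 0 4 0)) (.leaf 0 1 0)))) (.node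
 207 (.node 90 (.leaf 0 1 0) (.node 5 (.leaf 0 4 0) (.leaf 0 1 0))) (.node 174 (.node 78 (.leaf 0
 4 0) (.leaf 0 1 0)) (.leaf 0 1 0))))))) (.node 3600 (.node 1881 (.node 921 (.node 311 (.node 113
 (.node 15 (.leaf 0 4 0) (.leaf 0 1 0)) (.node 9 (.leaf 0 1 0) (.leaf 0 4 0))) (.node 301 (.node
 100 (.leaf 0 1 0) (.node 76 (.leaf 0 1 0) (.leaf 0 4 0))) (.node 104 (.node 3 (.leaf 0 4 0)
 (.leaf 0 1 0)) (.leaf 0 1 0)))) (.node 587 (.node 315 (.node 196 (.node 68 (.leaf 0 1 0) (.node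
 36 (.leaf 0 4 0) (.leaf 0 1 0))) (.leaf 0 4 0)) (.node 106 (.leaf 0 1 0) (.leaf 0 1 0))) (.node
 132 (.node 48 (.leaf 0 4 0) (.leaf 0 1 0)) (.node 24 (.leaf 0 4 0) (.leaf 0 1 0))))) (.node 671
 (.node 296 (.node 111 (.leaf 0 1 0) (.node 51 (.leaf 0 1 0) (.leaf 0 4 0))) (.node 148 (.node 36
 (.leaf 0 4 0) (.leaf 0 1 0)) (.leaf 0 1 0))) (.node 607 (.node 344 (.node 114 (.node 41 (.leaf 0
 1 0) (.leaf 0 4 0)) (.node 67 (.leaf 0 1 0) (.leaf 0 4 0))) (.node 116 (.leaf 0 1 0) (.leaf 0 1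
 0))) (.node 144 (.node 89 (.leaf 0 4 0) (.leaf 0 1 0)) (.node 63 (.leaf 0 4 0) (.leaf 0 1 0))))))
 (.node 1871 (.node 731 (.node 287 (.node 120 (.leaf 0 1 0) (.node 18 (.leaf 0 1 0) (.leaf 0 4
 0))) (.node 198 (.node 77 (.leaf 0 4 0) (.leaf 0 1 0)) (.leaf 0 1 0))) (.node 374 (.node 124
 (.node 6 (.leaf 0 1 0) (.leaf 0 4 0)) (.node 34 (.leaf 0 1 0) (.leaf 0 4 0))) (.node 380 (.node
 127 (.leaf 0 1 0) (.node 121 (.leaf 0 1 0) (.leaf 0 4 0))) (.node 128 (.node 22 (.leaf 0 1 0)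
 (.leaf 0 4 0)) (.leaf 0 1 0))))) (.node 1194 (.node 757 (.node 271 (.node 110 (.leaf 0 1 0)
 (.node 21 (.leaf 0 4 0) (.leaf 0 1 0))) (.node 254 (.node 122 (.leaf 0 4 0) (.leaf 0 1 0)) (.leaf
 0 1 0))) (.node 164 (.node 35 (.leaf 0 4 0) (.leaf 0 1 0)) (.node 5 (.leaf 0 4 0) (.leaf 0 1
 0)))) (.node 393 (.node 136 (.leaf 0 1 0) (.node 88 (.leaf 0 1 0) (.leaf 0 4 0))) (.node 156
 (.node 19 (.leaf 0 4 0) (.leaf 0 1 0)) (.leaf 0 1 0))))))) (.node 7473 (.node 4480 (.node 2171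
 (.node 1284 (.node 771 (.node 423 (.node 140 (.node 76 (.leaf 0 1 0) (.leaf 0 4 0)) (.node 108
 (.leaf 0 1 0) (.leaf 0 4 0))) (.node 142 (.leaf 0 1 0) (.leaf 0 1 0))) (.node 176 (.node 80
 (.leaf 0 4 0) (.leaf 0 1 0)) (.node 48 (.leaf 0 4 0) (.leaf 0 1 0)))) (.node 376 (.node 147
 (.leaf 0 1 0) (.node 51 (.leaf 0 1 0) (.leaf 0 4 0))) (.node 212 (.node 64 (.leaf 0 4 0) (.leaf 0
 1 0)) (.leaf 0 1 0)))) (.node 1374 (.node 779 (.node 452 (.node 150 (.node 37 (.leaf 0 1 0)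
 (.leaf 0 4 0)) (.node 71 (.leaf 0 1 0) (.leaf 0 4 0))) (.node 152 (.leaf 0 1 0) (.leaf 0 1 0)))
 (.node 133 (.leaf 0 4 0) (.node 155 (.node 57 (.leaf 0 1 0) (.leaf 0 4 0)) (.leaf 0 1 0))))
 (.node 355 (.node 156 (.leaf 0 1 0) (.node 6 (.leaf 0 1 0) (.leaf 0 4 0))) (.node 274 (.node 117
 (.leaf 0 4 0) (.leaf 0 1 0)) (.leaf 0 1 0))))) (.node 1475 (.node 492 (.node 170 (.node 10 (.leaf
 0 4 0) (.leaf 0 1 0)) (.node 26 (.leaf 0 1 0) (.leaf 0 4 0))) (.node 488 (.node 163 (.leaf 0 1 0)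
 (.node 137 (.leaf 0 1 0) (.leaf 0 4 0))) (.node 164 (.node 10 (.leaf 0 1 0) (.leaf 0 4 0)) (.leaf
 0 1 0)))) (.node 945 (.node 500 (.node 327 (.node 122 (.leaf 0 1 0) (.node 45 (.leaf 0 4 0)
 (.leaf 0 1 0))) (.leaf 0 4 0)) (.node 168 (.leaf 0 1 0) (.leaf 0 1 0))) (.node 208 (.node 63
 (.leaf 0 4 0) (.leaf 0 1 0)) (.node 25 (.leaf 0 4 0) (.leaf 0 1 0)))))) (.node 3752 (.node 1989
 (.node 1042 (.node 477 (.node 172 (.leaf 0 1 0) (.node 92 (.leaf 0 1 0) (.leaf 0 4 0))) (.node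
 216 (.node 43 (.leaf 0 4 0) (.leaf 0 1 0)) (.leaf 0 1 0))) (.node 531 (.node 176 (.node 76 (.leaf
 0 1 0) (.leaf 0 4 0)) (.node 116 (.leaf 0 1 0) (.leaf 0 4 0))) (.node 178 (.leaf 0 1 0) (.leaf 0
 1 0)))) (.node 662 (.node 220 (.node 120 (.leaf 0 4 0) (.leaf 0 1 0)) (.node 80 (.leaf 0 4 0)
 (.leaf 0 1 0))) (.node 448 (.node 183 (.leaf 0 1 0) (.node 43 (.leaf 0 1 0) (.leaf 0 4 0)))
 (.node 284 (.node 100 (.leaf 0 4 0) (.leaf 0 1 0)) (.leaf 0 1 0))))) (.node 1699 (.node 943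
 (.node 560 (.node 186 (.node 25 (.leaf 0 1 0) (.leaf 0 4 0)) (.node 67 (.leaf 0 1 0) (.leaf 0 4
 0))) (.node 188 (.leaf 0 1 0) (.leaf 0 1 0))) (.node 185 (.leaf 0 4 0) (.node 191 (.node 49
 (.leaf 0 1 0) (.leaf 0 4 0)) (.leaf 0 1 0)))) (.node 1129 (.node 415 (.node 178 (.leaf 0 1 0)
 (.node 14 (.leaf 0 4 0) (.leaf 0 1 0))) (.node 358 (.node 165 (.leaf 0 4 0) (.leaf 0 1 0)) (.leaf
 0 1 0))) (.node 230 (.node 34 (.leaf 0 4 0) (.leaf 0 1 0)) (.node 10 (.leaf 0 1 0) (.leaf 0 4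
 0)))))))) (.node 15226 (.node 7549 (.node 4299 (.node 2323 (.node 1198 (.node 586 (.node 199
 (.leaf 0 1 0) (.node 145 (.leaf 0 1 0) (.leaf 0 4 0))) (.node 210 (.node 10 (.leaf 0 4 0) (.leaf
 0 1 0)) (.leaf 0 1 0))) (.node 608 (.node 375 (.node 126 (.leaf 0 1 0) (.node 77 (.leaf 0 4 0)
 (.leaf 0 1 0))) (.leaf 0 4 0)) (.node 204 (.leaf 0 1 0) (.leaf 0 1 0)))) (.node 718 (.node 252
 (.node 99 (.leaf 0 4 0) (.leaf 0 1 0)) (.node 53 (.leaf 0 4 0) (.leaf 0 1 0))) (.node 553 (.node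
 208 (.leaf 0 1 0) (.node 88 (.leaf 0 1 0) (.leaf 0 4 0))) (.node 284 (.node 75 (.leaf 0 4 0)
 (.leaf 0 1 0)) (.leaf 0 1 0))))) (.node 1932 (.node 1115 (.node 639 (.node 212 (.node 68 (.leaf 0
 1 0) (.leaf 0 4 0)) (.node 116 (.leaf 0 1 0) (.leaf 0 4 0))) (.node 214 (.leaf 0 1 0) (.leaf 0 1
 0))) (.node 264 (.node 168 (.leaf 0 4 0) (.leaf 0 1 0)) (.node 120 (.leaf 0 4 0) (.leaf 0 1 0))))
 (.node 512 (.node 219 (.leaf 0 1 0) (.node 27 (.leaf 0 1 0) (.leaf 0 4 0))) (.node 364 (.node 144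
 (.leaf 0 4 0) (.leaf 0 1 0)) (.leaf 0 1 0))))) (.node 4099 (.node 2023 (.node 669 (.node 222
 (.node 5 (.leaf 0 1 0) (.leaf 0 4 0)) (.node 55 (.leaf 0 1 0) (.leaf 0 4 0))) (.node 675 (.node
 224 (.leaf 0 1 0) (.node 206 (.leaf 0 1 0) (.leaf 0 4 0))) (.node 227 (.node 33 (.leaf 0 1 0)
 (.leaf 0 4 0)) (.leaf 0 1 0)))) (.node 1313 (.node 467 (.node 186 (.leaf 0 1 0) (.node 42 (.leaf
 0 4 0) (.leaf 0 1 0))) (.node 450 (.node 221 (.leaf 0 4 0) (.leaf 0 1 0)) (.leaf 0 1 0))) (.node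
 284 (.node 66 (.leaf 0 4 0) (.leaf 0 1 0)) (.node 14 (.leaf 0 4 0) (.leaf 0 1 0))))) (.node 1415
 (.node 666 (.node 235 (.leaf 0 1 0) (.node 145 (.leaf 0 1 0) (.leaf 0 4 0))) (.node 274 (.node 38
 (.leaf 0 4 0) (.leaf 0 1 0)) (.leaf 0 1 0))) (.node 1297 (.node 716 (.node 238 (.node 123 (.leaf
 0 1 0) (.leaf 0 4 0)) (.node 177 (.leaf 0 1 0) (.leaf 0 4 0))) (.node 240 (.leaf 0 1 0) (.leaf 0
 1 0))) (.node 296 (.node 143 (.leaf 0 4 0) (.leaf 0 1 0)) (.node 89 (.leaf 0 4 0) (.leaf 0 1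
 0))))))) (.node 7610 (.node 3731 (.node 1475 (.node 621 (.node 244 (.leaf 0 1 0) (.node 76 (.leaf
 0 1 0) (.leaf 0 4 0))) (.node 360 (.node 115 (.leaf 0 4 0) (.leaf 0 1 0)) (.leaf 0 1 0))) (.node
 1275 (.node 747 (.node 248 (.node 52 (.leaf 0 1 0) (.leaf 0 4 0)) (.node 108 (.leaf 0 1 0) (.leaf
 0 4 0))) (.node 250 (.leaf 0 1 0) (.leaf 0 1 0))) (.node 224 (.leaf 0 4 0) (.node 252 (.node 84
 (.leaf 0 1 0) (.leaf 0 4 0)) (.leaf 0 1 0))))) (.node 2311 (.node 1510 (.node 568 (.node 255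
 (.leaf 0 1 0) (.node 3 (.leaf 0 1 0) (.leaf 0 4 0))) (.node 452 (.node 196 (.leaf 0 4 0) (.leaf 0
 1 0)) (.leaf 0 1 0))) (.node 283 (.node 25 (.leaf 0 4 0) (.leaf 0 1 0)) (.node 35 (.leaf 0 1 0)
 (.leaf 0 4 0)))) (.node 783 (.node 260 (.leaf 0 1 0) (.node 210 (.leaf 0 1 0) (.leaf 0 4 0)))
 (.node 263 (.node 9 (.leaf 0 1 0) (.leaf 0 4 0)) (.leaf 0 1 0))))) (.node 4031 (.node 2400 (.node
 1489 (.node 795 (.node 510 (.node 186 (.leaf 0 1 0) (.node 78 (.leaf 0 4 0) (.leaf 0 1 0)))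
 (.leaf 0 4 0)) (.node 266 (.leaf 0 1 0) (.leaf 0 1 0))) (.node 328 (.node 106 (.leaf 0 4 0)
 (.leaf 0 1 0)) (.node 46 (.leaf 0 4 0) (.leaf 0 1 0)))) (.node 738 (.node 271 (.leaf 0 1 0)
 (.node 137 (.leaf 0 1 0) (.leaf 0 4 0))) (.node 346 (.node 74 (.leaf 0 4 0) (.leaf 0 1 0)) (.leaf
 0 1 0)))) (.node 2490 (.node 1461 (.node 824 (.node 274 (.node 111 (.leaf 0 1 0) (.leaf 0 4 0))
 (.node 173 (.leaf 0 1 0) (.leaf 0 4 0))) (.node 276 (.leaf 0 1 0) (.leaf 0 1 0))) (.node 340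
 (.node 195 (.leaf 0 4 0) (.leaf 0 1 0)) (.node 133 (.leaf 0 4 0) (.leaf 0 1 0)))) (.node 681
 (.node 280 (.leaf 0 1 0) (.node 56 (.leaf 0 1 0) (.leaf 0 4 0))) (.node 444 (.node 163 (.leaf 0 4
 0) (.leaf 0 1 0)) (.leaf 0 1 0)))))))) (.node 27202 (.node 14385 (.node 7000 (.node 3196 (.node
 1715 (.node 854 (.node 284 (.node 28 (.leaf 0 1 0) (.leaf 0 4 0)) (.node 92 (.leaf 0 1 0) (.leaf
 0 4 0))) (.node 287 (.leaf 0 1 0) (.node 287 (.leaf 0 1 0) (.leaf 0 4 0)))) (.node 867 (.node 288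
 (.node 64 (.leaf 0 1 0) (.leaf 0 4 0)) (.leaf 0 1 0)) (.node 260 (.leaf 0 1 0) (.node 31 (.leaf 0
 4 0) (.leaf 0 1 0))))) (.node 2019 (.node 1074 (.node 548 (.node 256 (.leaf 0 4 0) (.leaf 0 1 0))
 (.leaf 0 1 0)) (.node 355 (.node 61 (.leaf 0 4 0) (.leaf 0 1 0)) (.node 7 (.leaf 0 1 0) (.leaf 0
 4 0)))) (.node 867 (.node 296 (.leaf 0 1 0) (.node 206 (.leaf 0 1 0) (.leaf 0 4 0))) (.node 322
 (.node 25 (.leaf 0 4 0) (.leaf 0 1 0)) (.leaf 0 1 0))))) (.node 3527 (.node 1657 (.node 903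
 (.node 546 (.node 178 (.leaf 0 1 0) (.node 122 (.leaf 0 4 0) (.leaf 0 1 0))) (.leaf 0 4 0))
 (.node 302 (.leaf 0 1 0) (.leaf 0 1 0))) (.node 1068 (.node 372 (.node 154 (.leaf 0 4 0) (.leaf 0
 1 0)) (.node 86 (.leaf 0 4 0) (.leaf 0 1 0))) (.node 307 (.leaf 0 1 0) (.node 121 (.leaf 0 1 0)
 (.leaf 0 4 0))))) (.node 1977 (.node 1044 (.node 426 (.node 118 (.leaf 0 4 0) (.leaf 0 1 0))
 (.leaf 0 1 0)) (.node 310 (.node 91 (.leaf 0 1 0) (.leaf 0 4 0)) (.node 161 (.leaf 0 1 0) (.leaf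
 0 4 0)))) (.node 685 (.node 312 (.leaf 0 1 0) (.leaf 0 1 0)) (.node 384 (.node 255 (.leaf 0 4 0)
 (.leaf 0 1 0)) (.node 185 (.leaf 0 4 0) (.leaf 0 1 0))))))) (.node 6672 (.node 2868 (.node 1903
 (.node 733 (.node 316 (.leaf 0 1 0) (.node 28 (.leaf 0 1 0) (.leaf 0 4 0))) (.node 536 (.node 219
 (.leaf 0 4 0) (.leaf 0 1 0)) (.leaf 0 1 0))) (.node 324 (.node 4 (.leaf 0 4 0) (.leaf 0 1 0))
 (.node 68 (.leaf 0 1 0) (.leaf 0 4 0)))) (.node 1942 (.node 968 (.node 323 (.leaf 0 1 0) (.node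
 287 (.leaf 0 1 0) (.leaf 0 4 0))) (.node 324 (.node 36 (.leaf 0 1 0) (.leaf 0 4 0)) (.leaf 0 1
 0))) (.node 657 (.node 256 (.leaf 0 1 0) (.node 71 (.leaf 0 4 0) (.leaf 0 1 0))) (.node 652
 (.node 324 (.leaf 0 4 0) (.leaf 0 1 0)) (.leaf 0 1 0))))) (.node 3099 (.node 1096 (.node 404
 (.node 105 (.leaf 0 4 0) (.leaf 0 1 0)) (.node 31 (.leaf 0 4 0) (.leaf 0 1 0))) (.node 935 (.node
 332 (.leaf 0 1 0) (.node 194 (.leaf 0 1 0) (.leaf 0 4 0))) (.node 398 (.node 65 (.leaf 0 4 0)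
 (.leaf 0 1 0)) (.leaf 0 1 0)))) (.node 1817 (.node 1011 (.node 336 (.node 162 (.leaf 0 1 0)
 (.leaf 0 4 0)) (.node 238 (.leaf 0 1 0) (.leaf 0 4 0))) (.node 338 (.leaf 0 1 0) (.leaf 0 1 0)))
 (.node 416 (.node 210 (.leaf 0 4 0) (.leaf 0 1 0)) (.node 134 (.leaf 0 4 0) (.leaf 0 1 0)))))))
 (.node 13833 (.node 7278 (.node 3103 (.node 2062 (.node 858 (.node 343 (.leaf 0 1 0) (.node 97
 (.leaf 0 1 0) (.leaf 0 4 0))) (.node 514 (.node 170 (.leaf 0 4 0) (.leaf 0 1 0)) (.leaf 0 1 0)))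
 (.node 346 (.node 63 (.leaf 0 1 0) (.leaf 0 4 0)) (.node 141 (.leaf 0 1 0) (.leaf 0 4 0))))
 (.node 2098 (.node 725 (.node 348 (.leaf 0 1 0) (.leaf 0 1 0)) (.node 323 (.leaf 0 4 0) (.node
 351 (.node 107 (.leaf 0 1 0) (.leaf 0 4 0)) (.leaf 0 1 0)))) (.node 777 (.node 344 (.leaf 0 1 0)
 (.node 8 (.leaf 0 4 0) (.leaf 0 1 0))) (.node 636 (.node 283 (.leaf 0 4 0) (.leaf 0 1 0)) (.leaf
 0 1 0))))) (.node 3273 (.node 1114 (.node 400 (.node 44 (.leaf 0 4 0) (.leaf 0 1 0)) (.node 36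
 (.leaf 0 1 0) (.leaf 0 4 0))) (.node 1076 (.node 359 (.leaf 0 1 0) (.node 279 (.leaf 0 1 0)
 (.leaf 0 4 0))) (.node 360 (.leaf 0 5 0) (.leaf 0 1 0)))) (.node 2027 (.node 1088 (.node 689
 (.node 244 (.leaf 0 1 0) (.node 119 (.leaf 0 4 0) (.leaf 0 1 0))) (.leaf 0 4 0)) (.node 364
 (.leaf 0 1 0) (.leaf 0 1 0))) (.node 448 (.node 157 (.leaf 0 4 0) (.leaf 0 1 0)) (.node 75 (.leaf
 0 4 0) (.leaf 0 1 0)))))) (.node 7868 (.node 3336 (.node 2219 (.node 995 (.node 368 (.leaf 0 1 0)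
 (.node 174 (.leaf 0 1 0) (.leaf 0 4 0))) (.node 482 (.node 113 (.leaf 0 4 0) (.leaf 0 1 0))
 (.leaf 0 1 0))) (.node 372 (.node 138 (.leaf 0 1 0) (.leaf 0 4 0)) (.node 222 (.leaf 0 1 0)
 (.leaf 0 4 0)))) (.node 2254 (.node 851 (.node 374 (.leaf 0 1 0) (.leaf 0 1 0)) (.node 460 (.node
 274 (.leaf 0 4 0) (.leaf 0 1 0)) (.node 190 (.leaf 0 4 0) (.leaf 0 1 0)))) (.node 906 (.node 379
 (.leaf 0 1 0) (.node 65 (.leaf 0 1 0) (.leaf 0 4 0))) (.node 610 (.node 230 (.leaf 0 4 0) (.leaf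
 0 1 0)) (.leaf 0 1 0))))) (.node 3463 (.node 1149 (.node 382 (.node 27 (.leaf 0 1 0) (.leaf 0 4
 0)) (.node 113 (.leaf 0 1 0) (.leaf 0 4 0))) (.node 1155 (.node 384 (.leaf 0 1 0) (.node 372
 (.leaf 0 1 0) (.leaf 0 4 0))) (.node 387 (.node 75 (.leaf 0 1 0) (.leaf 0 4 0)) (.leaf 0 1 0))))
 (.node 2247 (.node 813 (.node 336 (.leaf 0 1 0) (.node 52 (.leaf 0 4 0) (.leaf 0 1 0))) (.node
 744 (.node 355 (.leaf 0 4 0) (.leaf 0 1 0)) (.leaf 0 1 0))) (.node 480 (.node 92 (.leaf 0 4 0)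
 (.leaf 0 1 0)) (.node 4 (.leaf 0 4 0) (.leaf 0 1 0))))))))) (.node 56330 (.node 28750 (.node
 14587 (.node 8415 (.node 4557 (.node 2374 (.node 1140 (.node 395 (.leaf 0 1 0) (.node 263 (.leaf
 0 1 0) (.leaf 0 4 0))) (.node 440 (.node 44 (.leaf 0 4 0) (.leaf 0 1 0)) (.leaf 0 1 0))) (.node
 1196 (.node 398 (.node 225 (.leaf 0 1 0) (.leaf 0 4 0)) (.node 315 (.leaf 0 1 0) (.leaf 0 4 0)))
 (.node 400 (.leaf 0 1 0) (.leaf 0 1 0)))) (.node 1424 (.node 492 (.node 217 (.leaf 0 4 0) (.leaf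
 0 1 0)) (.node 127 (.leaf 0 4 0) (.leaf 0 1 0))) (.node 1047 (.node 404 (.leaf 0 1 0) (.node 146
 (.leaf 0 1 0) (.leaf 0 4 0))) (.node 574 (.node 169 (.leaf 0 4 0) (.leaf 0 1 0)) (.leaf 0 1
 0))))) (.node 3696 (.node 2113 (.node 1227 (.node 408 (.node 106 (.leaf 0 1 0) (.leaf 0 4 0))
 (.node 198 (.leaf 0 1 0) (.leaf 0 4 0))) (.node 410 (.leaf 0 1 0) (.leaf 0 1 0))) (.node 346
 (.leaf 0 4 0) (.node 412 (.node 158 (.leaf 0 1 0) (.leaf 0 4 0)) (.leaf 0 1 0)))) (.node 946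
 (.node 415 (.leaf 0 1 0) (.node 25 (.leaf 0 1 0) (.leaf 0 4 0))) (.node 714 (.node 298 (.leaf 0 4
 0) (.leaf 0 1 0)) (.leaf 0 1 0))))) (.node 7645 (.node 3805 (.node 1275 (.node 437 (.node 19
 (.leaf 0 4 0) (.leaf 0 1 0)) (.node 77 (.leaf 0 1 0) (.leaf 0 4 0))) (.node 1263 (.node 420
 (.leaf 0 1 0) (.node 360 (.leaf 0 1 0) (.leaf 0 4 0))) (.node 423 (.node 35 (.leaf 0 1 0) (.leaf
 0 4 0)) (.leaf 0 1 0)))) (.node 2407 (.node 1275 (.node 840 (.node 320 (.leaf 0 1 0) (.node 104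
 (.leaf 0 4 0) (.leaf 0 1 0))) (.leaf 0 4 0)) (.node 426 (.leaf 0 1 0) (.leaf 0 1 0))) (.node 524
 (.node 148 (.leaf 0 4 0) (.leaf 0 1 0)) (.node 52 (.leaf 0 4 0) (.leaf 0 1 0))))) (.node 2591
 (.node 1196 (.node 431 (.leaf 0 1 0) (.node 239 (.leaf 0 1 0) (.leaf 0 4 0))) (.node 528 (.node
 96 (.leaf 0 4 0) (.leaf 0 1 0)) (.leaf 0 1 0))) (.node 2331 (.node 1304 (.node 434 (.node 197
 (.leaf 0 1 0) (.leaf 0 4 0)) (.node 295 (.leaf 0 1 0) (.leaf 0 4 0))) (.node 436 (.leaf 0 1 0)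
 (.leaf 0 1 0))) (.node 536 (.node 285 (.leaf 0 4 0) (.leaf 0 1 0)) (.node 187 (.leaf 0 4 0)
 (.leaf 0 1 0))))))) (.node 13490 (.node 6671 (.node 2651 (.node 1091 (.node 440 (.leaf 0 1 0)
 (.node 110 (.leaf 0 1 0) (.leaf 0 4 0))) (.node 674 (.node 233 (.leaf 0 4 0) (.leaf 0 1 0))
 (.leaf 0 1 0))) (.node 2249 (.node 1335 (.node 444 (.node 66 (.leaf 0 1 0) (.leaf 0 4 0)) (.node
 166 (.leaf 0 1 0) (.leaf 0 4 0))) (.node 446 (.leaf 0 1 0) (.leaf 0 1 0))) (.node 426 (.leaf 0 4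
 0) (.node 448 (.node 122 (.leaf 0 1 0) (.leaf 0 4 0)) (.leaf 0 1 0))))) (.node 4075 (.node 2640
 (.node 979 (.node 426 (.leaf 0 1 0) (.node 25 (.leaf 0 4 0) (.leaf 0 1 0))) (.node 826 (.node 374
 (.leaf 0 4 0) (.leaf 0 1 0)) (.leaf 0 1 0))) (.node 525 (.node 71 (.leaf 0 4 0) (.leaf 0 1 0))
 (.node 33 (.leaf 0 1 0) (.leaf 0 4 0)))) (.node 1357 (.node 456 (.leaf 0 1 0) (.node 340 (.leaf 0
 1 0) (.leaf 0 4 0))) (.node 472 (.node 15 (.leaf 0 4 0) (.leaf 0 1 0)) (.leaf 0 1 0))))) (.node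
 6971 (.node 4164 (.node 2559 (.node 1383 (.node 860 (.node 296 (.leaf 0 1 0) (.node 164 (.leaf 0
 4 0) (.leaf 0 1 0))) (.leaf 0 4 0)) (.node 462 (.leaf 0 1 0) (.leaf 0 1 0))) (.node 568 (.node
 212 (.leaf 0 4 0) (.leaf 0 1 0)) (.node 108 (.leaf 0 4 0) (.leaf 0 1 0)))) (.node 1244 (.node 467
 (.leaf 0 1 0) (.node 207 (.leaf 0 1 0) (.leaf 0 4 0))) (.node 624 (.node 156 (.leaf 0 4 0) (.leaf
 0 1 0)) (.leaf 0 1 0)))) (.node 4254 (.node 2471 (.node 1412 (.node 470 (.node 161 (.leaf 0 1 0)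
 (.leaf 0 4 0)) (.node 267 (.leaf 0 1 0) (.leaf 0 4 0))) (.node 472 (.leaf 0 1 0) (.leaf 0 1 0)))
 (.node 580 (.node 361 (.leaf 0 4 0) (.leaf 0 1 0)) (.node 255 (.leaf 0 4 0) (.leaf 0 1 0))))
 (.node 1127 (.node 476 (.leaf 0 1 0) (.node 66 (.leaf 0 1 0) (.leaf 0 4 0))) (.node 782 (.node
 305 (.leaf 0 4 0) (.leaf 0 1 0)) (.leaf 0 1 0))))))) (.node 31543 (.node 16192 (.node 8743 (.node
 4345 (.node 1442 (.node 480 (.node 18 (.leaf 0 1 0) (.leaf 0 4 0)) (.node 126 (.leaf 0 1 0)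
 (.leaf 0 4 0))) (.node 1448 (.node 483 (.leaf 0 1 0) (.node 453 (.leaf 0 1 0) (.leaf 0 4 0)))
 (.node 484 (.node 78 (.leaf 0 1 0) (.leaf 0 4 0)) (.leaf 0 1 0)))) (.node 2797 (.node 1003 (.node
 406 (.leaf 0 1 0) (.node 81 (.leaf 0 4 0) (.leaf 0 1 0))) (.node 946 (.node 458 (.leaf 0 4 0)
 (.leaf 0 1 0)) (.leaf 0 1 0))) (.node 600 (.node 131 (.leaf 0 4 0) (.leaf 0 1 0)) (.node 21
 (.leaf 0 4 0) (.leaf 0 1 0))))) (.node 2963 (.node 1409 (.node 492 (.leaf 0 1 0) (.node 312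
 (.leaf 0 1 0) (.leaf 0 4 0))) (.node 564 (.node 71 (.leaf 0 4 0) (.leaf 0 1 0)) (.leaf 0 1 0)))
 (.node 2703 (.node 1491 (.node 496 (.node 264 (.leaf 0 1 0) (.leaf 0 4 0)) (.node 376 (.leaf 0 1
 0) (.leaf 0 4 0))) (.node 498 (.leaf 0 1 0) (.leaf 0 1 0))) (.node 612 (.node 284 (.leaf 0 4 0)
 (.leaf 0 1 0)) (.node 172 (.leaf 0 4 0) (.leaf 0 1 0)))))) (.node 7601 (.node 3023 (.node 1284
 (.node 503 (.leaf 0 1 0) (.node 167 (.leaf 0 1 0) (.leaf 0 4 0))) (.node 728 (.node 224 (.leaf 0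
 4 0) (.leaf 0 1 0)) (.leaf 0 1 0))) (.node 2603 (.node 1520 (.node 506 (.node 117 (.leaf 0 1 0)
 (.leaf 0 4 0)) (.node 231 (.leaf 0 1 0) (.leaf 0 4 0))) (.node 508 (.leaf 0 1 0) (.leaf 0 1 0)))
 (.node 445 (.leaf 0 4 0) (.node 511 (.node 181 (.leaf 0 1 0) (.leaf 0 4 0)) (.leaf 0 1 0)))))
 (.node 3045 (.node 1155 (.node 512 (.leaf 0 1 0) (.node 14 (.leaf 0 1 0) (.leaf 0 4 0))) (.node
 898 (.node 385 (.leaf 0 4 0) (.leaf 0 1 0)) (.leaf 0 1 0))) (.node 1588 (.node 554 (.node 38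
 (.leaf 0 4 0) (.leaf 0 1 0)) (.node 78 (.leaf 0 1 0) (.leaf 0 4 0))) (.node 1556 (.node 519
 (.leaf 0 1 0) (.node 429 (.leaf 0 1 0) (.leaf 0 4 0))) (.node 520 (.node 26 (.leaf 0 1 0) (.leaf
 0 4 0)) (.leaf 0 1 0))))))) (.node 15951 (.node 7901 (.node 4722 (.node 2945 (.node 1568 (.node
 1019 (.node 378 (.leaf 0 1 0) (.node 145 (.leaf 0 4 0) (.leaf 0 1 0))) (.leaf 0 4 0)) (.node 524
 (.leaf 0 1 0) (.leaf 0 1 0))) (.node 644 (.node 199 (.leaf 0 4 0) (.leaf 0 1 0)) (.node 81 (.leaf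
 0 4 0) (.leaf 0 1 0)))) (.node 1453 (.node 528 (.leaf 0 1 0) (.node 276 (.leaf 0 1 0) (.leaf 0 4
 0))) (.node 664 (.node 135 (.leaf 0 4 0) (.leaf 0 1 0)) (.leaf 0 1 0)))) (.node 4812 (.node 2839
 (.node 1599 (.node 532 (.node 224 (.leaf 0 1 0) (.leaf 0 4 0)) (.node 344 (.leaf 0 1 0) (.leaf 0
 4 0))) (.node 534 (.leaf 0 1 0) (.leaf 0 1 0))) (.node 656 (.node 364 (.leaf 0 4 0) (.leaf 0 1
 0)) (.node 244 (.leaf 0 4 0) (.leaf 0 1 0)))) (.node 1316 (.node 539 (.leaf 0 1 0) (.node 119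
 (.leaf 0 1 0) (.leaf 0 4 0))) (.node 840 (.node 300 (.leaf 0 4 0) (.leaf 0 1 0)) (.leaf 0 1
 0))))) (.node 9859 (.node 4903 (.node 2727 (.node 1628 (.node 542 (.node 65 (.leaf 0 1 0) (.leaf
 0 4 0)) (.node 187 (.leaf 0 1 0) (.leaf 0 4 0))) (.node 544 (.leaf 0 1 0) (.leaf 0 1 0))) (.node
 537 (.leaf 0 4 0) (.node 547 (.node 133 (.leaf 0 1 0) (.leaf 0 4 0)) (.leaf 0 1 0)))) (.node 3197
 (.node 1175 (.node 502 (.leaf 0 1 0) (.node 46 (.leaf 0 4 0) (.leaf 0 1 0))) (.node 1022 (.node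
 473 (.leaf 0 4 0) (.leaf 0 1 0)) (.leaf 0 1 0))) (.node 654 (.node 102 (.leaf 0 4 0) (.leaf 0 1
 0)) (.node 22 (.leaf 0 1 0) (.leaf 0 4 0))))) (.node 3335 (.node 1630 (.node 555 (.leaf 0 1 0)
 (.node 397 (.leaf 0 1 0) (.leaf 0 4 0))) (.node 590 (.node 34 (.leaf 0 4 0) (.leaf 0 1 0)) (.leaf
 0 1 0))) (.node 3085 (.node 1676 (.node 1027 (.node 342 (.leaf 0 1 0) (.node 217 (.leaf 0 4 0)
 (.leaf 0 1 0))) (.leaf 0 4 0)) (.node 560 (.leaf 0 1 0) (.leaf 0 1 0))) (.node 688 (.node 275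
 (.leaf 0 4 0) (.leaf 0 1 0)) (.node 149 (.leaf 0 4 0) (.leaf 0 1 0)))))))))) (.node 126765 (.node
 64765 (.node 35020 (.node 17210 (.node 8531 (.node 3395 (.node 1489 (.node 564 (.leaf 0 1 0)
 (.node 232 (.leaf 0 1 0) (.leaf 0 4 0))) (.node 772 (.node 207 (.leaf 0 4 0) (.leaf 0 1 0))
 (.leaf 0 1 0))) (.node 2967 (.node 1707 (.node 568 (.node 176 (.leaf 0 1 0) (.leaf 0 4 0)) (.node
 304 (.leaf 0 1 0) (.leaf 0 4 0))) (.node 570 (.leaf 0 1 0) (.leaf 0 1 0))) (.node 700 (.node 452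
 (.leaf 0 4 0) (.leaf 0 1 0)) (.node 324 (.leaf 0 4 0) (.leaf 0 1 0))))) (.node 3455 (.node 1340
 (.node 575 (.leaf 0 1 0) (.node 63 (.leaf 0 1 0) (.leaf 0 4 0))) (.node 960 (.node 384 (.leaf 0 4
 0) (.leaf 0 1 0)) (.leaf 0 1 0))) (.node 1737 (.node 578 (.node 5 (.leaf 0 1 0) (.leaf 0 4 0))
 (.node 135 (.leaf 0 1 0) (.leaf 0 4 0))) (.node 1743 (.node 580 (.leaf 0 1 0) (.node 526 (.leaf 0
 1 0) (.leaf 0 4 0))) (.node 583 (.node 77 (.leaf 0 1 0) (.leaf 0 4 0)) (.leaf 0 1 0)))))) (.node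
 8831 (.node 5280 (.node 3341 (.node 1187 (.node 470 (.leaf 0 1 0) (.node 114 (.leaf 0 4 0) (.leaf
 0 1 0))) (.node 1154 (.node 569 (.leaf 0 4 0) (.leaf 0 1 0)) (.leaf 0 1 0))) (.node 720 (.node
 174 (.leaf 0 4 0) (.leaf 0 1 0)) (.node 42 (.leaf 0 4 0) (.leaf 0 1 0)))) (.node 1670 (.node 591
 (.leaf 0 1 0) (.node 357 (.leaf 0 1 0) (.leaf 0 4 0))) (.node 694 (.node 102 (.leaf 0 4 0) (.leaf
 0 1 0)) (.leaf 0 1 0)))) (.node 5370 (.node 3217 (.node 1784 (.node 594 (.node 299 (.leaf 0 1 0)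
 (.leaf 0 4 0)) (.node 433 (.leaf 0 1 0) (.leaf 0 4 0))) (.node 596 (.leaf 0 1 0) (.leaf 0 1 0)))
 (.node 732 (.node 359 (.leaf 0 4 0) (.leaf 0 1 0)) (.node 225 (.leaf 0 4 0) (.leaf 0 1 0))))
 (.node 1517 (.node 600 (.leaf 0 1 0) (.node 180 (.leaf 0 1 0) (.leaf 0 4 0))) (.node 888 (.node
 287 (.leaf 0 4 0) (.leaf 0 1 0)) (.leaf 0 1 0)))))) (.node 14680 (.node 6816 (.node 3086 (.node
 1815 (.node 604 (.node 120 (.leaf 0 1 0) (.leaf 0 4 0)) (.node 256 (.leaf 0 1 0) (.leaf 0 4 0)))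
 (.node 606 (.leaf 0 1 0) (.leaf 0 1 0))) (.node 2375 (.node 548 (.leaf 0 4 0) (.node 608 (.node
 196 (.leaf 0 1 0) (.leaf 0 4 0)) (.leaf 0 1 0))) (.node 608 (.leaf 0 1 0) (.node 3 (.leaf 0 4 0)
 (.leaf 0 1 0))))) (.node 4159 (.node 2250 (.node 1088 (.node 476 (.leaf 0 4 0) (.leaf 0 1 0))
 (.leaf 0 1 0)) (.node 679 (.node 65 (.leaf 0 4 0) (.leaf 0 1 0)) (.node 75 (.leaf 0 1 0) (.leaf 0
 4 0)))) (.node 1851 (.node 616 (.leaf 0 1 0) (.node 490 (.leaf 0 1 0) (.leaf 0 4 0))) (.node 619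
 (.node 13 (.leaf 0 1 0) (.leaf 0 4 0)) (.leaf 0 1 0))))) (.node 7307 (.node 3477 (.node 1863
 (.node 1190 (.node 430 (.leaf 0 1 0) (.node 190 (.leaf 0 4 0) (.leaf 0 1 0))) (.leaf 0 4 0))
 (.node 622 (.leaf 0 1 0) (.leaf 0 1 0))) (.node 2128 (.node 764 (.node 254 (.leaf 0 4 0) (.leaf 0
 1 0)) (.node 114 (.leaf 0 4 0) (.leaf 0 1 0))) (.node 627 (.leaf 0 1 0) (.node 309 (.leaf 0 1 0)
 (.leaf 0 4 0))))) (.node 3957 (.node 2064 (.node 806 (.node 178 (.leaf 0 4 0) (.leaf 0 1 0))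
 (.leaf 0 1 0)) (.node 630 (.node 247 (.leaf 0 1 0) (.leaf 0 4 0)) (.node 389 (.leaf 0 1 0) (.leaf
 0 4 0)))) (.node 1449 (.node 632 (.leaf 0 1 0) (.leaf 0 1 0)) (.node 776 (.node 451 (.leaf 0 4 0)
 (.leaf 0 1 0)) (.node 309 (.leaf 0 4 0) (.leaf 0 1 0)))))))) (.node 29280 (.node 15448 (.node
 7676 (.node 3827 (.node 1537 (.node 636 (.leaf 0 1 0) (.node 120 (.leaf 0 1 0) (.leaf 0 4 0)))
 (.node 1012 (.node 375 (.leaf 0 4 0) (.leaf 0 1 0)) (.leaf 0 1 0))) (.node 1922 (.node 640 (.node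
 56 (.leaf 0 1 0) (.leaf 0 4 0)) (.node 200 (.leaf 0 1 0) (.leaf 0 4 0))) (.node 643 (.leaf 0 1 0)
 (.node 635 (.leaf 0 1 0) (.leaf 0 4 0))))) (.node 3299 (.node 1935 (.node 644 (.node 136 (.leaf 0
 1 0) (.leaf 0 4 0)) (.leaf 0 1 0)) (.node 572 (.leaf 0 1 0) (.node 75 (.leaf 0 4 0) (.leaf 0 1
 0)))) (.node 2382 (.node 1224 (.node 576 (.leaf 0 4 0) (.leaf 0 1 0)) (.leaf 0 1 0)) (.node 791
 (.node 141 (.leaf 0 4 0) (.leaf 0 1 0)) (.node 7 (.leaf 0 1 0) (.leaf 0 4 0)))))) (.node 7527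
 (.node 3922 (.node 1899 (.node 652 (.leaf 0 1 0) (.node 446 (.leaf 0 1 0) (.leaf 0 4 0))) (.node
 714 (.node 61 (.leaf 0 4 0) (.leaf 0 1 0)) (.leaf 0 1 0))) (.node 1971 (.node 656 (.node 382
 (.leaf 0 1 0) (.leaf 0 4 0)) (.node 530 (.leaf 0 1 0) (.leaf 0 4 0))) (.node 658 (.leaf 0 1 0)
 (.leaf 0 1 0)))) (.node 2324 (.node 808 (.node 342 (.leaf 0 4 0) (.leaf 0 1 0)) (.node 194 (.leaf
 0 4 0) (.leaf 0 1 0))) (.node 1726 (.node 663 (.leaf 0 1 0) (.node 253 (.leaf 0 1 0) (.leaf 0 4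
 0))) (.node 926 (.node 262 (.leaf 0 4 0) (.leaf 0 1 0)) (.leaf 0 1 0)))))) (.node 16168 (.node
 7566 (.node 3456 (.node 2000 (.node 666 (.node 187 (.leaf 0 1 0) (.leaf 0 4 0)) (.node 337 (.leaf
 0 1 0) (.leaf 0 4 0))) (.node 668 (.leaf 0 1 0) (.leaf 0 1 0))) (.node 2563 (.node 551 (.leaf 0 4
 0) (.node 671 (.node 271 (.leaf 0 1 0) (.leaf 0 4 0)) (.leaf 0 1 0))) (.node 672 (.leaf 0 1 0)
 (.node 52 (.leaf 0 1 0) (.leaf 0 4 0))))) (.node 4524 (.node 2479 (.node 1144 (.node 471 (.leaf 0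
 4 0) (.leaf 0 1 0)) (.leaf 0 1 0)) (.node 692 (.node 16 (.leaf 0 4 0) (.leaf 0 1 0)) (.node 136
 (.leaf 0 1 0) (.leaf 0 4 0)))) (.node 2036 (.node 679 (.leaf 0 1 0) (.node 595 (.leaf 0 1 0)
 (.leaf 0 4 0))) (.node 680 (.node 68 (.leaf 0 1 0) (.leaf 0 4 0)) (.leaf 0 1 0))))) (.node 8088
 (.node 3878 (.node 2048 (.node 1365 (.node 528 (.leaf 0 1 0) (.node 155 (.leaf 0 4 0) (.leaf 0 1
 0))) (.leaf 0 4 0)) (.node 684 (.leaf 0 1 0) (.leaf 0 1 0))) (.node 2285 (.node 840 (.node 225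
 (.leaf 0 4 0) (.leaf 0 1 0)) (.node 71 (.leaf 0 4 0) (.leaf 0 1 0))) (.node 688 (.leaf 0 1 0)
 (.node 394 (.leaf 0 1 0) (.leaf 0 4 0))))) (.node 4290 (.node 2213 (.node 830 (.node 141 (.leaf 0
 4 0) (.leaf 0 1 0)) (.leaf 0 1 0)) (.node 692 (.node 326 (.leaf 0 1 0) (.leaf 0 4 0)) (.node 482
 (.leaf 0 1 0) (.leaf 0 4 0)))) (.node 1647 (.node 694 (.leaf 0 1 0) (.leaf 0 1 0)) (.node 852
 (.node 438 (.leaf 0 4 0) (.leaf 0 1 0)) (.node 282 (.leaf 0 4 0) (.leaf 0 1 0))))))))) (.node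
 56447 (.node 27717 (.node 14702 (.node 6307 (.node 4198 (.node 1742 (.node 699 (.leaf 0 1 0)
 (.node 189 (.leaf 0 1 0) (.leaf 0 4 0))) (.node 1054 (.node 354 (.leaf 0 4 0) (.leaf 0 1 0))
 (.leaf 0 1 0))) (.node 702 (.node 119 (.leaf 0 1 0) (.leaf 0 4 0)) (.node 277 (.leaf 0 1 0)
 (.leaf 0 4 0)))) (.node 4234 (.node 1457 (.node 704 (.leaf 0 1 0) (.leaf 0 1 0)) (.node 659
 (.leaf 0 4 0) (.node 707 (.node 207 (.leaf 0 1 0) (.leaf 0 4 0)) (.leaf 0 1 0)))) (.node 1553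
 (.node 684 (.leaf 0 1 0) (.node 24 (.leaf 0 4 0) (.leaf 0 1 0))) (.node 1284 (.node 575 (.leaf 0
 4 0) (.leaf 0 1 0)) (.leaf 0 1 0))))) (.node 6529 (.node 2234 (.node 808 (.node 96 (.leaf 0 4 0)
 (.leaf 0 1 0)) (.node 64 (.leaf 0 1 0) (.leaf 0 4 0))) (.node 2136 (.node 715 (.leaf 0 1 0)
 (.node 547 (.leaf 0 1 0) (.leaf 0 4 0))) (.node 724 (.node 8 (.leaf 0 4 0) (.leaf 0 1 0)) (.leaf
 0 1 0)))) (.node 4003 (.node 2156 (.node 1357 (.node 476 (.leaf 0 1 0) (.node 243 (.leaf 0 4 0)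
 (.leaf 0 1 0))) (.leaf 0 4 0)) (.node 720 (.leaf 0 1 0) (.leaf 0 1 0))) (.node 884 (.node 317
 (.leaf 0 4 0) (.leaf 0 1 0)) (.node 155 (.leaf 0 4 0) (.leaf 0 1 0)))))) (.node 15344 (.node 6540
 (.node 4355 (.node 1947 (.node 724 (.leaf 0 1 0) (.node 334 (.leaf 0 1 0) (.leaf 0 4 0))) (.node
 954 (.node 229 (.leaf 0 4 0) (.leaf 0 1 0)) (.leaf 0 1 0))) (.node 728 (.node 262 (.leaf 0 1 0)
 (.leaf 0 4 0)) (.node 426 (.leaf 0 1 0) (.leaf 0 4 0)))) (.node 4390 (.node 1651 (.node 730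
 (.leaf 0 1 0) (.leaf 0 1 0)) (.node 896 (.node 542 (.leaf 0 4 0) (.leaf 0 1 0)) (.node 378 (.leaf
 0 4 0) (.leaf 0 1 0)))) (.node 1750 (.node 735 (.leaf 0 1 0) (.node 117 (.leaf 0 1 0) (.leaf 0 4
 0))) (.node 1190 (.node 454 (.leaf 0 4 0) (.leaf 0 1 0)) (.leaf 0 1 0))))) (.node 6667 (.node
 2217 (.node 738 (.node 43 (.leaf 0 1 0) (.leaf 0 4 0)) (.node 209 (.leaf 0 1 0) (.leaf 0 4 0)))
 (.node 2223 (.node 740 (.leaf 0 1 0) (.node 708 (.leaf 0 1 0) (.leaf 0 4 0))) (.node 743 (.node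
 135 (.leaf 0 1 0) (.leaf 0 4 0)) (.leaf 0 1 0)))) (.node 4291 (.node 1549 (.node 636 (.leaf 0 1
 0) (.node 108 (.leaf 0 4 0) (.leaf 0 1 0))) (.node 1432 (.node 687 (.leaf 0 4 0) (.leaf 0 1 0))
 (.leaf 0 1 0))) (.node 916 (.node 184 (.leaf 0 4 0) (.leaf 0 1 0)) (.node 16 (.leaf 0 4 0) (.leaf
 0 1 0))))))) (.node 29745 (.node 15891 (.node 8629 (.node 4510 (.node 2160 (.node 751 (.leaf 0 1
 0) (.node 491 (.leaf 0 1 0) (.leaf 0 4 0))) (.node 844 (.node 92 (.leaf 0 4 0) (.leaf 0 1 0))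
 (.leaf 0 1 0))) (.node 2264 (.node 754 (.node 417 (.leaf 0 1 0) (.leaf 0 4 0)) (.node 587 (.leaf
 0 1 0) (.leaf 0 4 0))) (.node 756 (.leaf 0 1 0) (.leaf 0 1 0)))) (.node 2692 (.node 928 (.node
 417 (.leaf 0 4 0) (.leaf 0 1 0)) (.node 247 (.leaf 0 4 0) (.leaf 0 1 0))) (.node 1959 (.node 760
 (.leaf 0 1 0) (.node 266 (.leaf 0 1 0) (.leaf 0 4 0))) (.node 1086 (.node 325 (.leaf 0 4 0)
 (.leaf 0 1 0)) (.leaf 0 1 0))))) (.node 6900 (.node 3941 (.node 2295 (.node 764 (.node 190 (.leaf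
 0 1 0) (.leaf 0 4 0)) (.node 362 (.leaf 0 1 0) (.leaf 0 4 0))) (.node 766 (.leaf 0 1 0) (.leaf 0
 1 0))) (.node 654 (.leaf 0 4 0) (.node 768 (.node 286 (.leaf 0 1 0) (.leaf 0 4 0)) (.leaf 0 1
 0)))) (.node 4588 (.node 1750 (.node 771 (.leaf 0 1 0) (.node 37 (.leaf 0 1 0) (.leaf 0 4 0)))
 (.node 1334 (.node 562 (.leaf 0 4 0) (.leaf 0 1 0)) (.leaf 0 1 0))) (.node 817 (.node 43 (.leaf 0
 4 0) (.leaf 0 1 0)) (.node 133 (.leaf 0 1 0) (.leaf 0 4 0)))))) (.node 16437 (.node 9077 (.node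
 4666 (.node 2331 (.node 776 (.leaf 0 1 0) (.node 656 (.leaf 0 1 0) (.leaf 0 4 0))) (.node 779
 (.node 55 (.leaf 0 1 0) (.leaf 0 4 0)) (.leaf 0 1 0))) (.node 2343 (.node 1536 (.node 580 (.leaf
 0 1 0) (.node 200 (.leaf 0 4 0) (.leaf 0 1 0))) (.leaf 0 4 0)) (.node 782 (.leaf 0 1 0) (.leaf 0
 1 0)))) (.node 2634 (.node 960 (.node 280 (.leaf 0 4 0) (.leaf 0 1 0)) (.node 104 (.leaf 0 4 0)
 (.leaf 0 1 0))) (.node 2176 (.node 787 (.leaf 0 1 0) (.node 427 (.leaf 0 1 0) (.leaf 0 4 0)))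
 (.node 972 (.node 184 (.leaf 0 4 0) (.leaf 0 1 0)) (.leaf 0 1 0))))) (.node 7134 (.node 4227
 (.node 2372 (.node 790 (.node 349 (.leaf 0 1 0) (.leaf 0 4 0)) (.node 527 (.leaf 0 1 0) (.leaf 0
 4 0))) (.node 792 (.leaf 0 1 0) (.leaf 0 1 0))) (.node 972 (.node 525 (.leaf 0 4 0) (.leaf 0 1
 0)) (.node 347 (.leaf 0 4 0) (.leaf 0 1 0)))) (.node 1963 (.node 796 (.leaf 0 1 0) (.node 190
 (.leaf 0 1 0) (.leaf 0 4 0))) (.node 1226 (.node 429 (.leaf 0 4 0) (.leaf 0 1 0)) (.leaf 0 1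
 0))))))))) (.node 234345 (.node 119381 (.node 59305 (.node 31695 (.node 14502 (.node 7224 (.node
 4037 (.node 2403 (.node 800 (.node 110 (.leaf 0 1 0) (.leaf 0 4 0)) (.node 290 (.leaf 0 1 0)
 (.leaf 0 4 0))) (.node 802 (.leaf 0 1 0) (.leaf 0 1 0))) (.node 774 (.leaf 0 4 0) (.node 804
 (.node 210 (.leaf 0 1 0) (.leaf 0 4 0)) (.leaf 0 1 0)))) (.node 4712 (.node 1743 (.node 754
 (.leaf 0 1 0) (.node 53 (.leaf 0 4 0) (.leaf 0 1 0))) (.node 1486 (.node 678 (.leaf 0 4 0) (.leaf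
 0 1 0)) (.leaf 0 1 0))) (.node 945 (.node 135 (.leaf 0 4 0) (.leaf 0 1 0)) (.node 49 (.leaf 0 1
 0) (.leaf 0 4 0))))) (.node 9405 (.node 4882 (.node 2405 (.node 812 (.leaf 0 1 0) (.node 596
 (.leaf 0 1 0) (.leaf 0 4 0))) (.node 848 (.node 35 (.leaf 0 4 0) (.leaf 0 1 0)) (.leaf 0 1 0)))
 (.node 2451 (.node 1516 (.node 516 (.leaf 0 1 0) (.node 300 (.leaf 0 4 0) (.leaf 0 1 0))) (.leaf
 0 4 0)) (.node 818 (.leaf 0 1 0) (.leaf 0 1 0)))) (.node 2846 (.node 1004 (.node 384 (.leaf 0 4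
 0) (.leaf 0 1 0)) (.node 200 (.leaf 0 4 0) (.leaf 0 1 0))) (.node 2184 (.node 823 (.leaf 0 1 0)
 (.node 355 (.leaf 0 1 0) (.leaf 0 4 0))) (.node 1108 (.node 284 (.leaf 0 4 0) (.leaf 0 1 0))
 (.leaf 0 1 0)))))) (.node 12460 (.node 7458 (.node 4327 (.node 2480 (.node 826 (.node 273 (.leaf
 0 1 0) (.leaf 0 4 0)) (.node 459 (.leaf 0 1 0) (.leaf 0 4 0))) (.node 828 (.leaf 0 1 0) (.leaf 0
 1 0))) (.node 1016 (.node 641 (.leaf 0 4 0) (.leaf 0 1 0)) (.node 455 (.leaf 0 4 0) (.leaf 0 1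
 0)))) (.node 1959 (.node 832 (.leaf 0 1 0) (.node 106 (.leaf 0 1 0) (.leaf 0 4 0))) (.node 1374
 (.node 541 (.leaf 0 4 0) (.leaf 0 1 0)) (.leaf 0 1 0)))) (.node 7549 (.node 2510 (.node 836
 (.node 22 (.leaf 0 1 0) (.leaf 0 4 0)) (.node 210 (.leaf 0 1 0) (.leaf 0 4 0))) (.node 2516
 (.node 839 (.leaf 0 1 0) (.node 777 (.leaf 0 1 0) (.leaf 0 4 0))) (.node 840 (.node 126 (.leaf 0
 1 0) (.leaf 0 4 0)) (.leaf 0 1 0)))) (.node 4829 (.node 1727 (.node 694 (.leaf 0 1 0) (.node 149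
 (.leaf 0 4 0) (.leaf 0 1 0))) (.node 1646 (.node 802 (.leaf 0 4 0) (.leaf 0 1 0)) (.leaf 0 1 0)))
 (.node 1036 (.node 235 (.leaf 0 4 0) (.leaf 0 1 0)) (.node 45 (.leaf 0 4 0) (.leaf 0 1 0)))))))
 (.node 30875 (.node 17949 (.node 9725 (.node 5098 (.node 2417 (.node 848 (.leaf 0 1 0) (.node 528
 (.leaf 0 1 0) (.leaf 0 4 0))) (.node 980 (.node 131 (.leaf 0 4 0) (.leaf 0 1 0)) (.leaf 0 1 0)))
 (.node 2559 (.node 852 (.node 444 (.leaf 0 1 0) (.leaf 0 4 0)) (.node 636 (.leaf 0 1 0) (.leaf 0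
 4 0))) (.node 854 (.leaf 0 1 0) (.leaf 0 1 0)))) (.node 3066 (.node 1048 (.node 496 (.leaf 0 4 0)
 (.leaf 0 1 0)) (.node 304 (.leaf 0 4 0) (.leaf 0 1 0))) (.node 2184 (.node 859 (.leaf 0 1 0)
 (.node 275 (.leaf 0 1 0) (.leaf 0 4 0))) (.node 1252 (.node 392 (.leaf 0 4 0) (.leaf 0 1 0))
 (.leaf 0 1 0))))) (.node 7782 (.node 4419 (.node 2588 (.node 862 (.node 189 (.leaf 0 1 0) (.leaf
 0 4 0)) (.node 383 (.leaf 0 1 0) (.leaf 0 4 0))) (.node 864 (.leaf 0 1 0) (.leaf 0 1 0))) (.node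
 765 (.leaf 0 4 0) (.node 867 (.node 297 (.leaf 0 1 0) (.leaf 0 4 0)) (.leaf 0 1 0)))) (.node 1947
 (.node 868 (.leaf 0 1 0) (.node 14 (.leaf 0 1 0) (.leaf 0 4 0))) (.node 1530 (.node 661 (.leaf 0
 4 0) (.leaf 0 1 0)) (.leaf 0 1 0))))) (.node 15873 (.node 7947 (.node 2692 (.node 946 (.node 74
 (.leaf 0 4 0) (.leaf 0 1 0)) (.node 122 (.leaf 0 1 0) (.leaf 0 4 0))) (.node 2624 (.node 875
 (.leaf 0 1 0) (.node 713 (.leaf 0 1 0) (.leaf 0 4 0))) (.node 876 (.node 34 (.leaf 0 1 0) (.leaf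
 0 4 0)) (.leaf 0 1 0)))) (.node 4937 (.node 2636 (.node 1703 (.node 626 (.leaf 0 1 0) (.node 253
 (.leaf 0 4 0) (.leaf 0 1 0))) (.leaf 0 4 0)) (.node 880 (.leaf 0 1 0) (.leaf 0 1 0))) (.node 1080
 (.node 343 (.leaf 0 4 0) (.leaf 0 1 0)) (.node 145 (.leaf 0 4 0) (.leaf 0 1 0))))) (.node 5315
 (.node 2421 (.node 884 (.leaf 0 1 0) (.node 452 (.leaf 0 1 0) (.leaf 0 4 0))) (.node 1120 (.node
 235 (.leaf 0 4 0) (.leaf 0 1 0)) (.leaf 0 1 0))) (.node 4723 (.node 2667 (.node 888 (.node 364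
 (.leaf 0 1 0) (.leaf 0 4 0)) (.node 564 (.leaf 0 1 0) (.leaf 0 4 0))) (.node 890 (.leaf 0 1 0)
 (.leaf 0 1 0))) (.node 1092 (.node 616 (.leaf 0 4 0) (.leaf 0 1 0)) (.node 416 (.leaf 0 4 0)
 (.leaf 0 1 0)))))))) (.node 54817 (.node 27110 (.node 13481 (.node 5375 (.node 2176 (.node 895
 (.leaf 0 1 0) (.node 187 (.leaf 0 1 0) (.leaf 0 4 0))) (.node 1404 (.node 508 (.leaf 0 4 0)
 (.leaf 0 1 0)) (.leaf 0 1 0))) (.node 4503 (.node 2696 (.node 898 (.node 97 (.leaf 0 1 0) (.leaf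
 0 4 0)) (.node 299 (.leaf 0 1 0) (.leaf 0 4 0))) (.node 900 (.leaf 0 1 0) (.leaf 0 1 0))) (.node
 897 (.leaf 0 4 0) (.node 903 (.node 209 (.leaf 0 1 0) (.leaf 0 4 0)) (.leaf 0 1 0))))) (.node
 8160 (.node 5257 (.node 1927 (.node 818 (.leaf 0 1 0) (.node 86 (.leaf 0 4 0) (.leaf 0 1 0)))
 (.node 1694 (.node 789 (.leaf 0 4 0) (.leaf 0 1 0)) (.leaf 0 1 0))) (.node 1086 (.node 178 (.leaf
 0 4 0) (.leaf 0 1 0)) (.node 26 (.leaf 0 1 0) (.leaf 0 4 0)))) (.node 2666 (.node 911 (.leaf 0 1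
 0) (.node 641 (.leaf 0 1 0) (.leaf 0 4 0))) (.node 978 (.node 66 (.leaf 0 4 0) (.leaf 0 1 0))
 (.leaf 0 1 0))))) (.node 13781 (.node 8250 (.node 5037 (.node 2744 (.node 1671 (.node 550 (.leaf
 0 1 0) (.node 365 (.leaf 0 4 0) (.leaf 0 1 0))) (.leaf 0 4 0)) (.node 916 (.leaf 0 1 0) (.leaf 0
 1 0))) (.node 1124 (.node 459 (.leaf 0 4 0) (.leaf 0 1 0)) (.node 253 (.leaf 0 4 0) (.leaf 0 1
 0)))) (.node 2417 (.node 920 (.leaf 0 1 0) (.node 368 (.leaf 0 1 0) (.leaf 0 4 0))) (.node 1268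
 (.node 347 (.leaf 0 4 0) (.leaf 0 1 0)) (.leaf 0 1 0)))) (.node 8340 (.node 4811 (.node 2775
 (.node 924 (.node 276 (.leaf 0 1 0) (.leaf 0 4 0)) (.node 484 (.leaf 0 1 0) (.leaf 0 4 0)))
 (.node 926 (.leaf 0 1 0) (.leaf 0 1 0))) (.node 1136 (.node 744 (.leaf 0 4 0) (.leaf 0 1 0))
 (.node 536 (.leaf 0 4 0) (.leaf 0 1 0)))) (.node 2160 (.node 931 (.leaf 0 1 0) (.node 91 (.leaf 0
 1 0) (.leaf 0 4 0))) (.node 1564 (.node 632 (.leaf 0 4 0) (.leaf 0 1 0)) (.leaf 0 1 0))))))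
 (.node 31178 (.node 16919 (.node 8435 (.node 2809 (.node 939 (.node 5 (.leaf 0 4 0) (.leaf 0 1
 0)) (.node 207 (.leaf 0 1 0) (.leaf 0 4 0))) (.node 2811 (.node 936 (.leaf 0 1 0) (.node 838
 (.leaf 0 1 0) (.leaf 0 4 0))) (.node 939 (.node 113 (.leaf 0 1 0) (.leaf 0 4 0)) (.leaf 0 1 0))))
 (.node 5361 (.node 1899 (.node 746 (.leaf 0 1 0) (.node 194 (.leaf 0 4 0) (.leaf 0 1 0))) (.node
 1866 (.node 925 (.leaf 0 4 0) (.leaf 0 1 0)) (.leaf 0 1 0))) (.node 1156 (.node 290 (.leaf 0 4 0)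
 (.leaf 0 1 0)) (.node 78 (.leaf 0 4 0) (.leaf 0 1 0))))) (.node 5687 (.node 2666 (.node 947
 (.leaf 0 1 0) (.node 561 (.leaf 0 1 0) (.leaf 0 4 0))) (.node 1122 (.node 174 (.leaf 0 4 0)
 (.leaf 0 1 0)) (.leaf 0 1 0))) (.node 5129 (.node 2852 (.node 950 (.node 467 (.leaf 0 1 0) (.leaf
 0 4 0)) (.node 681 (.leaf 0 1 0) (.leaf 0 4 0))) (.node 952 (.leaf 0 1 0) (.leaf 0 1 0))) (.node
 1168 (.node 583 (.leaf 0 4 0) (.leaf 0 1 0)) (.node 369 (.leaf 0 4 0) (.leaf 0 1 0)))))) (.node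
 14411 (.node 5747 (.node 2405 (.node 956 (.leaf 0 1 0) (.node 276 (.leaf 0 1 0) (.leaf 0 4 0)))
 (.node 1424 (.node 467 (.leaf 0 4 0) (.leaf 0 1 0)) (.leaf 0 1 0))) (.node 4891 (.node 2883
 (.node 960 (.node 180 (.leaf 0 1 0) (.leaf 0 4 0)) (.node 396 (.leaf 0 1 0) (.leaf 0 4 0)))
 (.node 962 (.leaf 0 1 0) (.leaf 0 1 0))) (.node 880 (.leaf 0 4 0) (.node 964 (.node 300 (.leaf 0
 1 0) (.leaf 0 4 0)) (.leaf 0 1 0))))) (.node 8719 (.node 5694 (.node 2137 (.node 952 (.leaf 0 1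
 0) (.node 15 (.leaf 0 4 0) (.leaf 0 1 0))) (.node 1732 (.node 764 (.leaf 0 4 0) (.leaf 0 1 0))
 (.leaf 0 1 0))) (.node 1083 (.node 113 (.leaf 0 4 0) (.leaf 0 1 0)) (.node 107 (.leaf 0 1 0)
 (.leaf 0 4 0)))) (.node 2919 (.node 972 (.leaf 0 1 0) (.node 762 (.leaf 0 1 0) (.leaf 0 4 0)))
 (.node 975 (.node 9 (.leaf 0 1 0) (.leaf 0 4 0)) (.leaf 0 1 0)))))))) (.node 125050 (.node 62790
 (.node 29571 (.node 14711 (.node 8808 (.node 5457 (.node 2931 (.node 1862 (.node 666 (.leaf 0 1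
 0) (.node 310 (.leaf 0 4 0) (.leaf 0 1 0))) (.leaf 0 4 0)) (.node 978 (.leaf 0 1 0) (.leaf 0 1
 0))) (.node 1200 (.node 410 (.leaf 0 4 0) (.leaf 0 1 0)) (.node 190 (.leaf 0 4 0) (.leaf 0 1
 0)))) (.node 2658 (.node 983 (.leaf 0 1 0) (.node 473 (.leaf 0 1 0) (.leaf 0 4 0))) (.node 1274
 (.node 290 (.leaf 0 4 0) (.leaf 0 1 0)) (.leaf 0 1 0)))) (.node 8898 (.node 5213 (.node 2960
 (.node 986 (.node 375 (.leaf 0 1 0) (.leaf 0 4 0)) (.node 597 (.leaf 0 1 0) (.leaf 0 4 0)))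
 (.node 988 (.leaf 0 1 0) (.leaf 0 1 0))) (.node 1212 (.node 715 (.leaf 0 4 0) (.leaf 0 1 0))
 (.node 493 (.leaf 0 4 0) (.leaf 0 1 0)))) (.node 2385 (.node 992 (.leaf 0 1 0) (.node 176 (.leaf
 0 1 0) (.leaf 0 4 0))) (.node 1588 (.node 595 (.leaf 0 4 0) (.leaf 0 1 0)) (.leaf 0 1 0)))))
 (.node 18031 (.node 8989 (.node 2990 (.node 996 (.node 76 (.leaf 0 1 0) (.leaf 0 4 0)) (.node 300
 (.leaf 0 1 0) (.leaf 0 4 0))) (.node 2996 (.node 999 (.leaf 0 1 0) (.node 975 (.leaf 0 1 0)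
 (.leaf 0 4 0))) (.node 1000 (.node 200 (.leaf 0 1 0) (.leaf 0 4 0)) (.leaf 0 1 0)))) (.node 5795
 (.node 2105 (.node 876 (.leaf 0 1 0) (.node 127 (.leaf 0 4 0) (.leaf 0 1 0))) (.node 1908 (.node
 904 (.leaf 0 4 0) (.leaf 0 1 0)) (.leaf 0 1 0))) (.node 1232 (.node 229 (.leaf 0 4 0) (.leaf 0 1
 0)) (.node 3 (.leaf 0 4 0) (.leaf 0 1 0))))) (.node 6059 (.node 2923 (.node 1008 (.leaf 0 1 0)
 (.node 678 (.leaf 0 1 0) (.leaf 0 4 0))) (.node 1114 (.node 105 (.leaf 0 4 0) (.leaf 0 1 0))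
 (.leaf 0 1 0))) (.node 5545 (.node 3039 (.node 1012 (.node 578 (.leaf 0 1 0) (.leaf 0 4 0))
 (.node 806 (.leaf 0 1 0) (.leaf 0 4 0))) (.node 1014 (.leaf 0 1 0) (.leaf 0 1 0))) (.node 1244
 (.node 538 (.leaf 0 4 0) (.leaf 0 1 0)) (.node 310 (.leaf 0 4 0) (.leaf 0 1 0))))))) (.node 30830
 (.node 15341 (.node 6119 (.node 2642 (.node 1019 (.leaf 0 1 0) (.node 377 (.leaf 0 1 0) (.leaf 0
 4 0))) (.node 1434 (.node 414 (.leaf 0 4 0) (.leaf 0 1 0)) (.leaf 0 1 0))) (.node 5289 (.node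
 3068 (.node 1022 (.node 275 (.leaf 0 1 0) (.leaf 0 4 0)) (.node 505 (.leaf 0 1 0) (.leaf 0 4 0)))
 (.node 1024 (.leaf 0 1 0) (.leaf 0 1 0))) (.node 855 (.leaf 0 4 0) (.node 1027 (.node 403 (.leaf
 0 1 0) (.leaf 0 4 0)) (.leaf 0 1 0))))) (.node 6143 (.node 2357 (.node 1028 (.leaf 0 1 0) (.node
 68 (.leaf 0 1 0) (.leaf 0 4 0))) (.node 1760 (.node 731 (.leaf 0 4 0) (.leaf 0 1 0)) (.leaf 0 1
 0))) (.node 3134 (.node 1068 (.node 36 (.leaf 0 4 0) (.leaf 0 1 0)) (.node 196 (.leaf 0 1 0)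
 (.leaf 0 4 0))) (.node 3104 (.node 1035 (.leaf 0 1 0) (.node 895 (.leaf 0 1 0) (.leaf 0 4 0)))
 (.node 1036 (.node 92 (.leaf 0 1 0) (.leaf 0 4 0)) (.leaf 0 1 0)))))) (.node 15641 (.node 9366
 (.node 5887 (.node 3116 (.node 2065 (.node 792 (.leaf 0 1 0) (.node 247 (.leaf 0 4 0) (.leaf 0 1
 0))) (.leaf 0 4 0)) (.node 1040 (.leaf 0 1 0) (.leaf 0 1 0))) (.node 1276 (.node 353 (.leaf 0 4
 0) (.leaf 0 1 0)) (.node 119 (.leaf 0 4 0) (.leaf 0 1 0)))) (.node 2911 (.node 1044 (.leaf 0 1 0)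
 (.node 586 (.leaf 0 1 0) (.leaf 0 4 0))) (.node 1270 (.node 225 (.leaf 0 4 0) (.leaf 0 1 0))
 (.leaf 0 1 0)))) (.node 9456 (.node 5625 (.node 3147 (.node 1048 (.node 482 (.leaf 0 1 0) (.leaf
 0 4 0)) (.node 718 (.leaf 0 1 0) (.leaf 0 4 0))) (.node 1050 (.leaf 0 1 0) (.leaf 0 1 0))) (.node
 1288 (.node 674 (.leaf 0 4 0) (.leaf 0 1 0)) (.node 438 (.leaf 0 4 0) (.leaf 0 1 0)))) (.node
 2618 (.node 1055 (.leaf 0 1 0) (.node 273 (.leaf 0 1 0) (.leaf 0 4 0))) (.node 1602 (.node 546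
 (.leaf 0 4 0) (.leaf 0 1 0)) (.leaf 0 1 0))))))) (.node 67957 (.node 35266 (.node 19147 (.node
 9547 (.node 5357 (.node 3176 (.node 1058 (.node 167 (.leaf 0 1 0) (.leaf 0 4 0)) (.node 405
 (.leaf 0 1 0) (.leaf 0 4 0))) (.node 1060 (.leaf 0 1 0) (.leaf 0 1 0))) (.node 1003 (.leaf 0 4 0)
 (.node 1063 (.node 299 (.leaf 0 1 0) (.leaf 0 4 0)) (.leaf 0 1 0)))) (.node 6239 (.node 2321
 (.node 1016 (.leaf 0 1 0) (.node 48 (.leaf 0 4 0) (.leaf 0 1 0))) (.node 1940 (.node 875 (.leaf 0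
 4 0) (.leaf 0 1 0)) (.leaf 0 1 0))) (.node 1224 (.node 156 (.leaf 0 4 0) (.leaf 0 1 0)) (.node 84
 (.leaf 0 1 0) (.leaf 0 4 0))))) (.node 6431 (.node 3188 (.node 1071 (.leaf 0 1 0) (.node 807
 (.leaf 0 1 0) (.leaf 0 4 0))) (.node 1096 (.node 24 (.leaf 0 4 0) (.leaf 0 1 0)) (.leaf 0 1 0)))
 (.node 5971 (.node 3224 (.node 2017 (.node 700 (.leaf 0 1 0) (.node 375 (.leaf 0 4 0) (.leaf 0 1
 0))) (.leaf 0 4 0)) (.node 1076 (.leaf 0 1 0) (.leaf 0 1 0))) (.node 1320 (.node 485 (.leaf 0 4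
 0) (.leaf 0 1 0)) (.node 243 (.leaf 0 4 0) (.leaf 0 1 0)))))) (.node 16271 (.node 6491 (.node
 2891 (.node 1080 (.leaf 0 1 0) (.node 486 (.leaf 0 1 0) (.leaf 0 4 0))) (.node 1434 (.node 353
 (.leaf 0 4 0) (.leaf 0 1 0)) (.leaf 0 1 0))) (.node 5697 (.node 3255 (.node 1084 (.node 378
 (.leaf 0 1 0) (.leaf 0 4 0)) (.node 622 (.leaf 0 1 0) (.leaf 0 4 0))) (.node 1086 (.leaf 0 1 0)
 (.leaf 0 1 0))) (.node 1332 (.node 818 (.leaf 0 4 0) (.leaf 0 1 0)) (.node 574 (.leaf 0 4 0)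
 (.leaf 0 1 0))))) (.node 6551 (.node 2586 (.node 1091 (.leaf 0 1 0) (.node 161 (.leaf 0 1 0)
 (.leaf 0 4 0))) (.node 1778 (.node 686 (.leaf 0 4 0) (.leaf 0 1 0)) (.leaf 0 1 0))) (.node 3285
 (.node 1094 (.node 51 (.leaf 0 1 0) (.leaf 0 4 0)) (.node 297 (.leaf 0 1 0) (.leaf 0 4 0)))
 (.node 3291 (.node 1096 (.leaf 0 1 0) (.node 1036 (.leaf 0 1 0) (.leaf 0 4 0))) (.node 1099
 (.node 187 (.leaf 0 1 0) (.leaf 0 4 0)) (.leaf 0 1 0))))))) (.node 33291 (.node 16571 (.node 9924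
 (.node 6327 (.node 2277 (.node 928 (.leaf 0 1 0) (.node 172 (.leaf 0 4 0) (.leaf 0 1 0))) (.node
 2128 (.node 1027 (.leaf 0 4 0) (.leaf 0 1 0)) (.leaf 0 1 0))) (.node 1352 (.node 284 (.leaf 0 4
 0) (.leaf 0 1 0)) (.node 36 (.leaf 0 4 0) (.leaf 0 1 0)))) (.node 3172 (.node 1107 (.leaf 0 1 0)
 (.node 711 (.leaf 0 1 0) (.leaf 0 4 0))) (.node 1256 (.node 148 (.leaf 0 4 0) (.leaf 0 1 0))
 (.leaf 0 1 0)))) (.node 10014 (.node 6047 (.node 3332 (.node 1110 (.node 601 (.leaf 0 1 0) (.leaf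
 0 4 0)) (.node 851 (.leaf 0 1 0) (.leaf 0 4 0))) (.node 1112 (.leaf 0 1 0) (.leaf 0 1 0))) (.node
 1364 (.node 625 (.leaf 0 4 0) (.leaf 0 1 0)) (.node 375 (.leaf 0 4 0) (.leaf 0 1 0)))) (.node
 2863 (.node 1116 (.leaf 0 1 0) (.node 378 (.leaf 0 1 0) (.leaf 0 4 0))) (.node 1606 (.node 489
 (.leaf 0 4 0) (.leaf 0 1 0)) (.leaf 0 1 0))))) (.node 16796 (.node 10104 (.node 5761 (.node 3363
 (.node 1120 (.node 266 (.leaf 0 1 0) (.leaf 0 4 0)) (.node 518 (.leaf 0 1 0) (.leaf 0 4 0)))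
 (.node 1122 (.leaf 0 1 0) (.leaf 0 1 0))) (.node 970 (.leaf 0 4 0) (.node 1124 (.node 406 (.leaf
 0 1 0) (.leaf 0 4 0)) (.leaf 0 1 0)))) (.node 2546 (.node 1127 (.leaf 0 1 0) (.node 41 (.leaf 0 1
 0) (.leaf 0 4 0))) (.node 1962 (.node 834 (.leaf 0 4 0) (.leaf 0 1 0)) (.leaf 0 1 0)))) (.node
 10269 (.node 3467 (.node 1205 (.node 75 (.leaf 0 4 0) (.leaf 0 1 0)) (.node 181 (.leaf 0 1 0)
 (.leaf 0 4 0))) (.node 3399 (.node 1132 (.leaf 0 1 0) (.node 944 (.leaf 0 1 0) (.leaf 0 4 0)))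
 (.node 1135 (.node 67 (.leaf 0 1 0) (.leaf 0 4 0)) (.leaf 0 1 0)))) (.node 6407 (.node 3411
 (.node 2224 (.node 832 (.leaf 0 1 0) (.node 304 (.leaf 0 4 0) (.leaf 0 1 0))) (.leaf 0 4 0))
 (.node 1138 (.leaf 0 1 0) (.leaf 0 1 0))) (.node 1396 (.node 420 (.leaf 0 4 0) (.leaf 0 1 0))
 (.node 164 (.leaf 0 4 0) (.leaf 0 1 0))))))))))) (.node 466598 (.node 242942 (.node 127189 (.node
 69700 (.node 34550 (.node 17201 (.node 6863 (.node 3148 (.node 1143 (.leaf 0 1 0) (.node 607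
 (.leaf 0 1 0) (.leaf 0 4 0))) (.node 1424 (.node 280 (.leaf 0 4 0) (.leaf 0 1 0)) (.leaf 0 1 0)))
 (.node 6115 (.node 3440 (.node 1146 (.node 493 (.leaf 0 1 0) (.leaf 0 4 0)) (.node 751 (.leaf 0 1
 0) (.leaf 0 4 0))) (.node 1148 (.leaf 0 1 0) (.leaf 0 1 0))) (.node 1408 (.node 773 (.leaf 0 4 0)
 (.leaf 0 1 0)) (.node 515 (.leaf 0 4 0) (.leaf 0 1 0))))) (.node 6923 (.node 2827 (.node 1152
 (.leaf 0 1 0) (.node 262 (.leaf 0 1 0) (.leaf 0 4 0))) (.node 1786 (.node 633 (.leaf 0 4 0)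
 (.leaf 0 1 0)) (.leaf 0 1 0))) (.node 5817 (.node 3471 (.node 1156 (.node 146 (.leaf 0 1 0)
 (.leaf 0 4 0)) (.node 406 (.leaf 0 1 0) (.leaf 0 4 0))) (.node 1158 (.leaf 0 1 0) (.leaf 0 1 0)))
 (.node 1130 (.leaf 0 4 0) (.node 1160 (.node 290 (.leaf 0 1 0) (.leaf 0 4 0)) (.leaf 0 1 0))))))
 (.node 17501 (.node 10483 (.node 6776 (.node 2499 (.node 1074 (.leaf 0 1 0) (.node 89 (.leaf 0 4
 0) (.leaf 0 1 0))) (.node 2154 (.node 990 (.leaf 0 4 0) (.leaf 0 1 0)) (.leaf 0 1 0))) (.node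
 1373 (.node 207 (.leaf 0 4 0) (.leaf 0 1 0)) (.node 57 (.leaf 0 1 0) (.leaf 0 4 0)))) (.node 3445
 (.node 1168 (.leaf 0 1 0) (.node 844 (.leaf 0 1 0) (.leaf 0 4 0))) (.node 1232 (.node 63 (.leaf 0
 4 0) (.leaf 0 1 0)) (.leaf 0 1 0)))) (.node 10572 (.node 6479 (.node 3519 (.node 2164 (.node 728
 (.leaf 0 1 0) (.node 444 (.leaf 0 4 0) (.leaf 0 1 0))) (.leaf 0 4 0)) (.node 1174 (.leaf 0 1 0)
 (.leaf 0 1 0))) (.node 1440 (.node 564 (.leaf 0 4 0) (.leaf 0 1 0)) (.node 300 (.leaf 0 4 0)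
 (.leaf 0 1 0)))) (.node 3116 (.node 1179 (.leaf 0 1 0) (.node 495 (.leaf 0 1 0) (.leaf 0 4 0)))
 (.node 1600 (.node 420 (.leaf 0 4 0) (.leaf 0 1 0)) (.leaf 0 1 0)))))) (.node 28552 (.node 13444
 (.node 6174 (.node 3548 (.node 1182 (.node 377 (.leaf 0 1 0) (.leaf 0 4 0)) (.node 643 (.leaf 0 1
 0) (.leaf 0 4 0))) (.node 1184 (.leaf 0 1 0) (.leaf 0 1 0))) (.node 4489 (.node 1452 (.node 929
 (.leaf 0 4 0) (.leaf 0 1 0)) (.node 663 (.leaf 0 4 0) (.leaf 0 1 0))) (.node 1188 (.leaf 0 1 0)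
 (.node 138 (.leaf 0 1 0) (.leaf 0 4 0))))) (.node 7934 (.node 4357 (.node 1974 (.node 785 (.leaf
 0 4 0) (.leaf 0 1 0)) (.leaf 0 1 0)) (.node 1192 (.node 18 (.leaf 0 1 0) (.leaf 0 4 0)) (.node
 286 (.leaf 0 1 0) (.leaf 0 4 0)))) (.node 3584 (.node 1195 (.leaf 0 1 0) (.node 1093 (.leaf 0 1
 0) (.leaf 0 4 0))) (.node 1196 (.node 166 (.leaf 0 1 0) (.leaf 0 4 0)) (.leaf 0 1 0))))) (.node
 14222 (.node 6852 (.node 2443 (.node 974 (.leaf 0 1 0) (.node 225 (.leaf 0 4 0) (.leaf 0 1 0)))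
 (.node 2354 (.node 1154 (.leaf 0 4 0) (.leaf 0 1 0)) (.leaf 0 1 0))) (.node 3955 (.node 1472
 (.node 347 (.leaf 0 4 0) (.leaf 0 1 0)) (.node 77 (.leaf 0 4 0) (.leaf 0 1 0))) (.node 1204
 (.leaf 0 1 0) (.node 736 (.leaf 0 1 0) (.leaf 0 4 0))))) (.node 7444 (.node 3819 (.node 1404
 (.node 199 (.leaf 0 4 0) (.leaf 0 1 0)) (.leaf 0 1 0)) (.node 1208 (.node 616 (.leaf 0 1 0)
 (.leaf 0 4 0)) (.node 888 (.leaf 0 1 0) (.leaf 0 4 0)))) (.node 2917 (.node 1210 (.leaf 0 1 0)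
 (.leaf 0 1 0)) (.node 1484 (.node 716 (.leaf 0 4 0) (.leaf 0 1 0)) (.node 444 (.leaf 0 4 0)
 (.leaf 0 1 0)))))))) (.node 55290 (.node 29321 (.node 13520 (.node 7294 (.node 3076 (.node 1215
 (.leaf 0 1 0) (.node 375 (.leaf 0 1 0) (.leaf 0 4 0))) (.node 1784 (.node 568 (.leaf 0 4 0)
 (.leaf 0 1 0)) (.leaf 0 1 0))) (.node 3656 (.node 1218 (.node 253 (.leaf 0 1 0) (.leaf 0 4 0))
 (.node 527 (.leaf 0 1 0) (.leaf 0 4 0))) (.node 1220 (.leaf 0 1 0) (.leaf 0 1 0)))) (.node 7490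
 (.node 4761 (.node 1093 (.leaf 0 4 0) (.node 1223 (.node 405 (.leaf 0 1 0) (.leaf 0 4 0)) (.leaf
 0 1 0))) (.node 1224 (.leaf 0 1 0) (.node 6 (.leaf 0 1 0) (.leaf 0 4 0)))) (.node 4507 (.node
 2170 (.node 945 (.leaf 0 4 0) (.leaf 0 1 0)) (.leaf 0 1 0)) (.node 1346 (.node 118 (.leaf 0 4 0)
 (.leaf 0 1 0)) (.node 158 (.leaf 0 1 0) (.leaf 0 4 0)))))) (.node 14311 (.node 7390 (.node 3692
 (.node 1231 (.leaf 0 1 0) (.node 989 (.leaf 0 1 0) (.leaf 0 4 0))) (.node 1232 (.node 34 (.leaf 0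
 1 0) (.leaf 0 4 0)) (.leaf 0 1 0))) (.node 3704 (.node 2379 (.node 866 (.leaf 0 1 0) (.node 369
 (.leaf 0 4 0) (.leaf 0 1 0))) (.leaf 0 4 0)) (.node 1236 (.leaf 0 1 0) (.leaf 0 1 0)))) (.node
 4210 (.node 1516 (.node 495 (.leaf 0 4 0) (.leaf 0 1 0)) (.node 217 (.leaf 0 4 0) (.leaf 0 1 0)))
 (.node 3381 (.node 1240 (.leaf 0 1 0) (.node 620 (.leaf 0 1 0) (.leaf 0 4 0))) (.node 1584 (.node
 343 (.leaf 0 4 0) (.leaf 0 1 0)) (.leaf 0 1 0)))))) (.node 30040 (.node 14249 (.node 6599 (.node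
 3735 (.node 1244 (.node 496 (.leaf 0 1 0) (.leaf 0 4 0)) (.node 776 (.leaf 0 1 0) (.leaf 0 4 0)))
 (.node 1246 (.leaf 0 1 0) (.leaf 0 1 0))) (.node 4622 (.node 1528 (.node 876 (.leaf 0 4 0) (.leaf
 0 1 0)) (.node 596 (.leaf 0 4 0) (.leaf 0 1 0))) (.node 1251 (.leaf 0 1 0) (.node 247 (.leaf 0 1
 0) (.leaf 0 4 0))))) (.node 8247 (.node 4482 (.node 1976 (.node 724 (.leaf 0 4 0) (.leaf 0 1 0))
 (.leaf 0 1 0)) (.node 1254 (.node 121 (.leaf 0 1 0) (.leaf 0 4 0)) (.node 403 (.leaf 0 1 0)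
 (.leaf 0 4 0)))) (.node 3771 (.node 1256 (.leaf 0 1 0) (.node 1250 (.leaf 0 1 0) (.leaf 0 4 0)))
 (.node 1259 (.node 277 (.leaf 0 1 0) (.leaf 0 4 0)) (.leaf 0 1 0))))) (.node 15059 (.node 7309
 (.node 2671 (.node 1126 (.leaf 0 1 0) (.node 134 (.leaf 0 4 0) (.leaf 0 1 0))) (.node 2374 (.node
 1113 (.leaf 0 4 0) (.leaf 0 1 0)) (.leaf 0 1 0))) (.node 4056 (.node 1526 (.node 262 (.leaf 0 4
 0) (.leaf 0 1 0)) (.node 22 (.leaf 0 1 0) (.leaf 0 4 0))) (.node 1267 (.leaf 0 1 0) (.node 877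
 (.leaf 0 1 0) (.leaf 0 4 0))))) (.node 7725 (.node 3912 (.node 1374 (.node 106 (.leaf 0 4 0)
 (.leaf 0 1 0)) (.leaf 0 1 0)) (.node 1270 (.node 751 (.leaf 0 1 0) (.leaf 0 4 0)) (.node 1037
 (.leaf 0 1 0) (.leaf 0 4 0)))) (.node 3169 (.node 1272 (.leaf 0 1 0) (.leaf 0 1 0)) (.node 1560
 (.node 651 (.leaf 0 4 0) (.leaf 0 1 0)) (.node 365 (.leaf 0 4 0) (.leaf 0 1 0))))))))) (.node
 109508 (.node 50259 (.node 26916 (.node 11508 (.node 7667 (.node 3337 (.node 1276 (.leaf 0 1 0)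
 (.node 496 (.leaf 0 1 0) (.leaf 0 4 0))) (.node 1772 (.node 495 (.leaf 0 4 0) (.leaf 0 1 0))
 (.leaf 0 1 0))) (.node 1280 (.node 368 (.leaf 0 1 0) (.leaf 0 4 0)) (.node 656 (.leaf 0 1 0)
 (.leaf 0 4 0)))) (.node 7702 (.node 2805 (.node 1282 (.leaf 0 1 0) (.leaf 0 1 0)) (.node 1572
 (.node 1044 (.leaf 0 4 0) (.leaf 0 1 0)) (.node 756 (.leaf 0 4 0) (.leaf 0 1 0)))) (.node 2972
 (.node 1287 (.leaf 0 1 0) (.node 111 (.leaf 0 1 0) (.leaf 0 4 0))) (.node 2176 (.node 888 (.leaf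
 0 4 0) (.leaf 0 1 0)) (.leaf 0 1 0))))) (.node 11655 (.node 3893 (.node 1311 (.node 21 (.leaf 0 4
 0) (.leaf 0 1 0)) (.node 271 (.leaf 0 1 0) (.leaf 0 4 0))) (.node 3879 (.node 1292 (.leaf 0 1 0)
 (.node 1142 (.leaf 0 1 0) (.leaf 0 4 0))) (.node 1295 (.node 141 (.leaf 0 1 0) (.leaf 0 4 0))
 (.leaf 0 1 0)))) (.node 7373 (.node 2603 (.node 1014 (.leaf 0 1 0) (.node 282 (.leaf 0 4 0)
 (.leaf 0 1 0))) (.node 2586 (.node 1289 (.leaf 0 4 0) (.leaf 0 1 0)) (.leaf 0 1 0))) (.node 1592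
 (.node 414 (.leaf 0 4 0) (.leaf 0 1 0)) (.node 122 (.leaf 0 4 0) (.leaf 0 1 0)))))) (.node 27482
 (.node 14855 (.node 7822 (.node 3654 (.node 1303 (.leaf 0 1 0) (.node 757 (.leaf 0 1 0) (.leaf 0
 4 0))) (.node 1558 (.node 254 (.leaf 0 4 0) (.leaf 0 1 0)) (.leaf 0 1 0))) (.node 3920 (.node
 1306 (.node 627 (.leaf 0 1 0) (.leaf 0 4 0)) (.node 921 (.leaf 0 1 0) (.leaf 0 4 0))) (.node 1308
 (.leaf 0 1 0) (.leaf 0 1 0)))) (.node 4746 (.node 1604 (.node 815 (.leaf 0 4 0) (.leaf 0 1 0))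
 (.node 521 (.leaf 0 4 0) (.leaf 0 1 0))) (.node 3285 (.node 1312 (.leaf 0 1 0) (.node 364 (.leaf
 0 1 0) (.leaf 0 4 0))) (.node 1968 (.node 655 (.leaf 0 4 0) (.leaf 0 1 0)) (.leaf 0 1 0)))))
 (.node 14776 (.node 6686 (.node 3951 (.node 1316 (.node 232 (.leaf 0 1 0) (.leaf 0 4 0)) (.node
 528 (.leaf 0 1 0) (.leaf 0 4 0))) (.node 1318 (.leaf 0 1 0) (.leaf 0 1 0))) (.node 5183 (.node
 1220 (.leaf 0 4 0) (.node 1320 (.node 396 (.leaf 0 1 0) (.leaf 0 4 0)) (.leaf 0 1 0))) (.node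
 1288 (.leaf 0 1 0) (.node 35 (.leaf 0 4 0) (.leaf 0 1 0))))) (.node 9015 (.node 4866 (.node 2384
 (.node 1060 (.leaf 0 4 0) (.leaf 0 1 0)) (.leaf 0 1 0)) (.node 1495 (.node 169 (.leaf 0 4 0)
 (.leaf 0 1 0)) (.node 131 (.leaf 0 1 0) (.leaf 0 4 0)))) (.node 3983 (.node 1328 (.leaf 0 1 0)
 (.node 1026 (.leaf 0 1 0) (.leaf 0 4 0))) (.node 1334 (.node 5 (.leaf 0 4 0) (.leaf 0 1 0))
 (.leaf 0 1 0))))))) (.node 60277 (.node 32153 (.node 15619 (.node 7429 (.node 3999 (.node 2526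
 (.node 894 (.leaf 0 1 0) (.node 438 (.leaf 0 4 0) (.leaf 0 1 0))) (.leaf 0 4 0)) (.node 1334
 (.leaf 0 1 0) (.leaf 0 1 0))) (.node 4584 (.node 1636 (.node 574 (.leaf 0 4 0) (.leaf 0 1 0))
 (.node 274 (.leaf 0 4 0) (.leaf 0 1 0))) (.node 1339 (.leaf 0 1 0) (.node 629 (.leaf 0 1 0)
 (.leaf 0 4 0))))) (.node 8461 (.node 4432 (.node 1750 (.node 410 (.leaf 0 4 0) (.leaf 0 1 0))
 (.leaf 0 1 0)) (.node 1342 (.node 495 (.leaf 0 1 0) (.leaf 0 4 0)) (.node 797 (.leaf 0 1 0)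
 (.leaf 0 4 0)))) (.node 3049 (.node 1344 (.leaf 0 1 0) (.leaf 0 1 0)) (.node 1648 (.node 987
 (.leaf 0 4 0) (.leaf 0 1 0)) (.node 685 (.leaf 0 4 0) (.leaf 0 1 0)))))) (.node 12156 (.node 8099
 (.node 3225 (.node 1348 (.leaf 0 1 0) (.node 224 (.leaf 0 1 0) (.leaf 0 4 0))) (.node 2172 (.node
 823 (.leaf 0 4 0) (.leaf 0 1 0)) (.leaf 0 1 0))) (.node 1352 (.node 88 (.leaf 0 1 0) (.leaf 0 4
 0)) (.node 392 (.leaf 0 1 0) (.leaf 0 4 0)))) (.node 8134 (.node 4064 (.node 1355 (.leaf 0 1 0)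
 (.node 1307 (.leaf 0 1 0) (.leaf 0 4 0))) (.node 1356 (.node 256 (.leaf 0 1 0) (.leaf 0 4 0))
 (.leaf 0 1 0))) (.node 2837 (.node 1172 (.leaf 0 1 0) (.node 187 (.leaf 0 4 0) (.leaf 0 1 0)))
 (.node 2600 (.node 1240 (.leaf 0 4 0) (.leaf 0 1 0)) (.leaf 0 1 0)))))) (.node 24943 (.node 12607
 (.node 4412 (.node 1668 (.node 325 (.leaf 0 4 0) (.leaf 0 1 0)) (.node 19 (.leaf 0 4 0) (.leaf 0
 1 0))) (.node 3939 (.node 1364 (.leaf 0 1 0) (.node 902 (.leaf 0 1 0) (.leaf 0 4 0))) (.node 1522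
 (.node 157 (.leaf 0 4 0) (.leaf 0 1 0)) (.leaf 0 1 0)))) (.node 7477 (.node 4107 (.node 1368
 (.node 766 (.leaf 0 1 0) (.leaf 0 4 0)) (.node 1074 (.leaf 0 1 0) (.leaf 0 4 0))) (.node 1370
 (.leaf 0 1 0) (.leaf 0 1 0))) (.node 1680 (.node 742 (.leaf 0 4 0) (.leaf 0 1 0)) (.node 434
 (.leaf 0 4 0) (.leaf 0 1 0))))) (.node 12391 (.node 8254 (.node 3550 (.node 1375 (.leaf 0 1 0)
 (.node 493 (.leaf 0 1 0) (.leaf 0 4 0))) (.node 1950 (.node 574 (.leaf 0 4 0) (.leaf 0 1 0))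
 (.leaf 0 1 0))) (.node 1378 (.node 355 (.leaf 0 1 0) (.leaf 0 4 0)) (.node 665 (.leaf 0 1 0)
 (.leaf 0 4 0)))) (.node 8290 (.node 2977 (.node 1380 (.leaf 0 1 0) (.leaf 0 1 0)) (.node 1167
 (.leaf 0 4 0) (.node 1383 (.node 527 (.leaf 0 1 0) (.leaf 0 4 0)) (.leaf 0 1 0)))) (.node 3157
 (.node 1384 (.leaf 0 1 0) (.node 76 (.leaf 0 1 0) (.leaf 0 4 0))) (.node 2384 (.node 999 (.leaf 0
 4 0) (.leaf 0 1 0)) (.leaf 0 1 0))))))))) (.node 224652 (.node 110330 (.node 54691 (.node 25151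
 (.node 12581 (.node 4230 (.node 1452 (.node 64 (.leaf 0 4 0) (.leaf 0 1 0)) (.node 248 (.leaf 0 1
 0) (.leaf 0 4 0))) (.node 4172 (.node 1391 (.leaf 0 1 0) (.node 1187 (.leaf 0 1 0) (.leaf 0 4
 0))) (.node 1392 (.node 108 (.leaf 0 1 0) (.leaf 0 4 0)) (.leaf 0 1 0)))) (.node 7887 (.node 4184
 (.node 2757 (.node 1048 (.leaf 0 1 0) (.node 347 (.leaf 0 4 0) (.leaf 0 1 0))) (.leaf 0 4 0))
 (.node 1396 (.leaf 0 1 0) (.leaf 0 1 0))) (.node 1712 (.node 489 (.leaf 0 4 0) (.leaf 0 1 0))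
 (.node 175 (.leaf 0 4 0) (.leaf 0 1 0))))) (.node 15927 (.node 8410 (.node 3887 (.node 1400
 (.leaf 0 1 0) (.node 770 (.leaf 0 1 0) (.leaf 0 4 0))) (.node 1718 (.node 317 (.leaf 0 4 0)
 (.leaf 0 1 0)) (.leaf 0 1 0))) (.node 4215 (.node 1404 (.node 630 (.leaf 0 1 0) (.leaf 0 4 0))
 (.node 946 (.leaf 0 1 0) (.leaf 0 4 0))) (.node 1406 (.leaf 0 1 0) (.leaf 0 1 0)))) (.node 5144
 (.node 1724 (.node 918 (.leaf 0 4 0) (.leaf 0 1 0)) (.node 602 (.leaf 0 4 0) (.leaf 0 1 0)))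
 (.node 3486 (.node 1411 (.leaf 0 1 0) (.node 349 (.leaf 0 1 0) (.leaf 0 4 0))) (.node 2158 (.node
 746 (.leaf 0 4 0) (.leaf 0 1 0)) (.leaf 0 1 0)))))) (.node 25555 (.node 12751 (.node 7141 (.node
 4244 (.node 1414 (.node 207 (.leaf 0 1 0) (.leaf 0 4 0)) (.node 525 (.leaf 0 1 0) (.leaf 0 4 0)))
 (.node 1416 (.leaf 0 1 0) (.leaf 0 1 0))) (.node 1355 (.leaf 0 4 0) (.node 1419 (.node 383 (.leaf
 0 1 0) (.leaf 0 4 0)) (.leaf 0 1 0)))) (.node 8307 (.node 3081 (.node 1340 (.leaf 0 1 0) (.node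
 80 (.leaf 0 4 0) (.leaf 0 1 0))) (.node 2604 (.node 1183 (.leaf 0 4 0) (.leaf 0 1 0)) (.leaf 0 1
 0))) (.node 1648 (.node 224 (.leaf 0 4 0) (.leaf 0 1 0)) (.node 96 (.leaf 0 1 0) (.leaf 0 4
 0))))) (.node 16497 (.node 8566 (.node 4232 (.node 1427 (.leaf 0 1 0) (.node 1059 (.leaf 0 1 0)
 (.leaf 0 4 0))) (.node 1476 (.node 48 (.leaf 0 4 0) (.leaf 0 1 0)) (.leaf 0 1 0))) (.node 4292
 (.node 2669 (.node 916 (.leaf 0 1 0) (.node 515 (.leaf 0 4 0) (.leaf 0 1 0))) (.leaf 0 4 0))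
 (.node 1432 (.leaf 0 1 0) (.leaf 0 1 0)))) (.node 4964 (.node 1756 (.node 661 (.leaf 0 4 0)
 (.leaf 0 1 0)) (.node 339 (.leaf 0 4 0) (.leaf 0 1 0))) (.node 3827 (.node 1436 (.leaf 0 1 0)
 (.node 630 (.leaf 0 1 0) (.leaf 0 4 0))) (.node 1922 (.node 485 (.leaf 0 4 0) (.leaf 0 1 0))
 (.leaf 0 1 0))))))) (.node 56655 (.node 26022 (.node 12984 (.node 7549 (.node 4323 (.node 1440
 (.node 486 (.leaf 0 1 0) (.leaf 0 4 0)) (.node 810 (.leaf 0 1 0) (.leaf 0 4 0))) (.node 1442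
 (.leaf 0 1 0) (.leaf 0 1 0))) (.node 1768 (.node 1102 (.leaf 0 4 0) (.leaf 0 1 0)) (.node 778
 (.leaf 0 4 0) (.leaf 0 1 0)))) (.node 8686 (.node 3414 (.node 1447 (.leaf 0 1 0) (.node 197
 (.leaf 0 1 0) (.leaf 0 4 0))) (.node 2374 (.node 926 (.leaf 0 4 0) (.leaf 0 1 0)) (.leaf 0 1 0)))
 (.node 1450 (.node 51 (.leaf 0 1 0) (.leaf 0 4 0)) (.node 377 (.leaf 0 1 0) (.leaf 0 4 0)))))
 (.node 17077 (.node 8722 (.node 4359 (.node 1452 (.leaf 0 1 0) (.node 1356 (.leaf 0 1 0) (.leaf 0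
 4 0))) (.node 1455 (.node 231 (.leaf 0 1 0) (.leaf 0 4 0)) (.leaf 0 1 0))) (.node 2997 (.node
 1212 (.leaf 0 1 0) (.node 244 (.leaf 0 4 0) (.leaf 0 1 0))) (.node 2832 (.node 1375 (.leaf 0 4 0)
 (.leaf 0 1 0)) (.leaf 0 1 0)))) (.node 4774 (.node 1788 (.node 392 (.leaf 0 4 0) (.leaf 0 1 0))
 (.node 64 (.leaf 0 4 0) (.leaf 0 1 0))) (.node 4176 (.node 1463 (.leaf 0 1 0) (.node 923 (.leaf 0
 1 0) (.leaf 0 4 0))) (.node 1676 (.node 212 (.leaf 0 4 0) (.leaf 0 1 0)) (.leaf 0 1 0))))))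
 (.node 26491 (.node 13219 (.node 7967 (.node 4400 (.node 1466 (.node 777 (.leaf 0 1 0) (.leaf 0 4
 0)) (.node 1107 (.leaf 0 1 0) (.leaf 0 4 0))) (.node 1468 (.leaf 0 1 0) (.leaf 0 1 0))) (.node
 1800 (.node 841 (.leaf 0 4 0) (.leaf 0 1 0)) (.node 511 (.leaf 0 4 0) (.leaf 0 1 0)))) (.node
 8843 (.node 3759 (.node 1472 (.leaf 0 1 0) (.node 482 (.leaf 0 1 0) (.leaf 0 4 0))) (.node 2134
 (.node 661 (.leaf 0 4 0) (.leaf 0 1 0)) (.leaf 0 1 0))) (.node 1476 (.node 334 (.leaf 0 1 0)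
 (.leaf 0 4 0)) (.node 666 (.leaf 0 1 0) (.leaf 0 4 0))))) (.node 17667 (.node 8878 (.node 3143
 (.node 1478 (.leaf 0 1 0) (.leaf 0 1 0)) (.node 1294 (.leaf 0 4 0) (.node 1480 (.node 518 (.leaf
 0 1 0) (.leaf 0 4 0)) (.leaf 0 1 0)))) (.node 3334 (.node 1483 (.leaf 0 1 0) (.node 37 (.leaf 0 1
 0) (.leaf 0 4 0))) (.node 2598 (.node 1114 (.leaf 0 4 0) (.leaf 0 1 0)) (.leaf 0 1 0)))) (.node
 4575 (.node 1601 (.node 115 (.leaf 0 4 0) (.leaf 0 1 0)) (.node 221 (.leaf 0 1 0) (.leaf 0 4 0)))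
 (.node 4467 (.node 1488 (.leaf 0 1 0) (.node 1224 (.leaf 0 1 0) (.leaf 0 4 0))) (.node 1491
 (.node 71 (.leaf 0 1 0) (.leaf 0 4 0)) (.leaf 0 1 0)))))))) (.node 118378 (.node 58683 (.node
 26958 (.node 13452 (.node 8395 (.node 4479 (.node 2904 (.node 1076 (.leaf 0 1 0) (.node 416
 (.leaf 0 4 0) (.leaf 0 1 0))) (.leaf 0 4 0)) (.node 1494 (.leaf 0 1 0) (.leaf 0 1 0))) (.node
 1832 (.node 568 (.leaf 0 4 0) (.leaf 0 1 0)) (.node 232 (.leaf 0 4 0) (.leaf 0 1 0)))) (.node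
 8998 (.node 4112 (.node 1499 (.leaf 0 1 0) (.node 779 (.leaf 0 1 0) (.leaf 0 4 0))) (.node 1884
 (.node 384 (.leaf 0 4 0) (.leaf 0 1 0)) (.leaf 0 1 0))) (.node 1502 (.node 629 (.leaf 0 1 0)
 (.leaf 0 4 0)) (.node 967 (.leaf 0 1 0) (.leaf 0 4 0))))) (.node 18093 (.node 9034 (.node 3487
 (.node 1504 (.leaf 0 1 0) (.leaf 0 1 0)) (.node 1844 (.node 1029 (.leaf 0 4 0) (.leaf 0 1 0))
 (.node 691 (.leaf 0 4 0) (.leaf 0 1 0)))) (.node 3683 (.node 1508 (.leaf 0 1 0) (.node 326 (.leaf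
 0 1 0) (.leaf 0 4 0))) (.node 2354 (.node 845 (.leaf 0 4 0) (.leaf 0 1 0)) (.leaf 0 1 0))))
 (.node 7589 (.node 4539 (.node 1512 (.node 174 (.leaf 0 1 0) (.leaf 0 4 0)) (.node 514 (.leaf 0 1
 0) (.leaf 0 4 0))) (.node 1514 (.leaf 0 1 0) (.leaf 0 1 0))) (.node 1494 (.leaf 0 4 0) (.node
 1516 (.node 362 (.leaf 0 1 0) (.leaf 0 4 0)) (.leaf 0 1 0)))))) (.node 31266 (.node 13687 (.node
 8832 (.node 3247 (.node 1386 (.leaf 0 1 0) (.node 133 (.leaf 0 4 0) (.leaf 0 1 0))) (.node 2830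
 (.node 1310 (.leaf 0 4 0) (.leaf 0 1 0)) (.leaf 0 1 0))) (.node 1809 (.node 287 (.leaf 0 4 0)
 (.leaf 0 1 0)) (.node 57 (.leaf 0 1 0) (.leaf 0 4 0)))) (.node 9154 (.node 4477 (.node 1524
 (.leaf 0 1 0) (.node 1084 (.leaf 0 1 0) (.leaf 0 4 0))) (.node 1624 (.node 99 (.leaf 0 4 0)
 (.leaf 0 1 0)) (.leaf 0 1 0))) (.node 4587 (.node 2804 (.node 932 (.leaf 0 1 0) (.node 596 (.leaf
 0 4 0) (.leaf 0 1 0))) (.leaf 0 4 0)) (.node 1530 (.leaf 0 1 0) (.leaf 0 1 0))))) (.node 14565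
 (.node 5350 (.node 1876 (.node 752 (.leaf 0 4 0) (.leaf 0 1 0)) (.node 408 (.leaf 0 4 0) (.leaf 0
 1 0))) (.node 4040 (.node 1535 (.leaf 0 1 0) (.node 627 (.leaf 0 1 0) (.leaf 0 4 0))) (.node 2100
 (.node 564 (.leaf 0 4 0) (.leaf 0 1 0)) (.leaf 0 1 0)))) (.node 8015 (.node 4616 (.node 1538
 (.node 473 (.leaf 0 1 0) (.leaf 0 4 0)) (.node 819 (.leaf 0 1 0) (.leaf 0 4 0))) (.node 1540
 (.leaf 0 1 0) (.leaf 0 1 0))) (.node 1888 (.node 1225 (.leaf 0 4 0) (.leaf 0 1 0)) (.node 879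
 (.leaf 0 4 0) (.leaf 0 1 0))))))) (.node 60711 (.node 32098 (.node 13920 (.node 9275 (.node 3599
 (.node 1544 (.leaf 0 1 0) (.node 162 (.leaf 0 1 0) (.leaf 0 4 0))) (.node 2582 (.node 1037 (.leaf
 0 4 0) (.leaf 0 1 0)) (.leaf 0 1 0))) (.node 1548 (.node 6 (.leaf 0 1 0) (.leaf 0 4 0)) (.node
 354 (.leaf 0 1 0) (.leaf 0 4 0)))) (.node 9310 (.node 4652 (.node 1551 (.leaf 0 1 0) (.node 1401
 (.leaf 0 1 0) (.leaf 0 4 0))) (.node 1552 (.node 198 (.leaf 0 1 0) (.leaf 0 4 0)) (.leaf 0 1 0)))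
 (.node 3151 (.node 1246 (.leaf 0 1 0) (.node 309 (.leaf 0 4 0) (.leaf 0 1 0))) (.node 3070 (.node
 1514 (.leaf 0 4 0) (.leaf 0 1 0)) (.leaf 0 1 0))))) (.node 14513 (.node 5142 (.node 1908 (.node
 467 (.leaf 0 4 0) (.leaf 0 1 0)) (.node 117 (.leaf 0 4 0) (.leaf 0 1 0))) (.node 4409 (.node 1560
 (.leaf 0 1 0) (.node 936 (.leaf 0 1 0) (.leaf 0 4 0))) (.node 1836 (.node 275 (.leaf 0 4 0)
 (.leaf 0 1 0)) (.leaf 0 1 0)))) (.node 8451 (.node 4695 (.node 1564 (.node 780 (.leaf 0 1 0)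
 (.leaf 0 4 0)) (.node 1132 (.leaf 0 1 0) (.leaf 0 4 0))) (.node 1566 (.leaf 0 1 0) (.leaf 0 1
 0))) (.node 1920 (.node 944 (.leaf 0 4 0) (.leaf 0 1 0)) (.node 592 (.leaf 0 4 0) (.leaf 0 1
 0)))))) (.node 32940 (.node 14155 (.node 9430 (.node 3960 (.node 1571 (.leaf 0 1 0) (.node 467
 (.leaf 0 1 0) (.leaf 0 4 0))) (.node 2324 (.node 752 (.leaf 0 4 0) (.leaf 0 1 0)) (.leaf 0 1 0)))
 (.node 1574 (.node 309 (.leaf 0 1 0) (.leaf 0 4 0)) (.node 663 (.leaf 0 1 0) (.leaf 0 4 0))))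
 (.node 9466 (.node 3303 (.node 1576 (.leaf 0 1 0) (.leaf 0 1 0)) (.node 1429 (.leaf 0 4 0) (.node
 1579 (.node 505 (.leaf 0 1 0) (.leaf 0 4 0)) (.leaf 0 1 0)))) (.node 3507 (.node 1570 (.leaf 0 1
 0) (.node 10 (.leaf 0 4 0) (.leaf 0 1 0))) (.node 2818 (.node 1237 (.leaf 0 4 0) (.leaf 0 1 0))
 (.leaf 0 1 0))))) (.node 14451 (.node 4924 (.node 1754 (.node 170 (.leaf 0 4 0) (.leaf 0 1 0))
 (.node 186 (.leaf 0 1 0) (.leaf 0 4 0))) (.node 4760 (.node 1587 (.leaf 0 1 0) (.node 1257 (.leaf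
 0 1 0) (.leaf 0 4 0))) (.node 1588 (.node 26 (.leaf 0 1 0) (.leaf 0 4 0)) (.leaf 0 1 0)))) (.node
 8897 (.node 4772 (.node 3047 (.node 1098 (.leaf 0 1 0) (.node 493 (.leaf 0 4 0) (.leaf 0 1 0)))
 (.leaf 0 4 0)) (.node 1592 (.leaf 0 1 0) (.leaf 0 1 0))) (.node 1952 (.node 655 (.leaf 0 4 0)
 (.leaf 0 1 0)) (.node 297 (.leaf 0 4 0) (.leaf 0 1 0))))))))))) (.node 929601 (.node 471138
 (.node 251940 (.node 121506 (.node 62738 (.node 33656 (.node 14388 (.node 9587 (.node 4333 (.node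
 1596 (.leaf 0 1 0) (.node 780 (.leaf 0 1 0) (.leaf 0 4 0))) (.node 2056 (.node 459 (.leaf 0 4 0)
 (.leaf 0 1 0)) (.leaf 0 1 0))) (.node 1600 (.node 620 (.leaf 0 1 0) (.leaf 0 4 0)) (.node 980
 (.leaf 0 1 0) (.leaf 0 4 0)))) (.node 9622 (.node 3665 (.node 1602 (.leaf 0 1 0) (.leaf 0 1 0))
 (.node 1964 (.node 1144 (.leaf 0 4 0) (.leaf 0 1 0)) (.node 784 (.leaf 0 4 0) (.leaf 0 1 0))))
 (.node 3872 (.node 1607 (.leaf 0 1 0) (.node 299 (.leaf 0 1 0) (.leaf 0 4 0))) (.node 2556 (.node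
 948 (.leaf 0 4 0) (.leaf 0 1 0)) (.leaf 0 1 0))))) (.node 14515 (.node 4833 (.node 1610 (.node
 137 (.leaf 0 1 0) (.leaf 0 4 0)) (.node 499 (.leaf 0 1 0) (.leaf 0 4 0))) (.node 4839 (.node 1612
 (.leaf 0 1 0) (.node 1586 (.leaf 0 1 0) (.leaf 0 4 0))) (.node 1615 (.node 337 (.leaf 0 1 0)
 (.leaf 0 4 0)) (.leaf 0 1 0)))) (.node 9353 (.node 3407 (.node 1426 (.leaf 0 1 0) (.node 190
 (.leaf 0 4 0) (.leaf 0 1 0))) (.node 3062 (.node 1445 (.leaf 0 4 0) (.leaf 0 1 0)) (.leaf 0 1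
 0))) (.node 1974 (.node 354 (.leaf 0 4 0) (.leaf 0 1 0)) (.node 10 (.leaf 0 1 0) (.leaf 0 4
 0)))))) (.node 34203 (.node 18659 (.node 9742 (.node 4714 (.node 1623 (.leaf 0 1 0) (.node 1105
 (.leaf 0 1 0) (.leaf 0 4 0))) (.node 1778 (.node 154 (.leaf 0 4 0) (.leaf 0 1 0)) (.leaf 0 1 0)))
 (.node 4880 (.node 1626 (.node 943 (.leaf 0 1 0) (.leaf 0 4 0)) (.node 1309 (.leaf 0 1 0) (.leaf
 0 4 0))) (.node 1628 (.leaf 0 1 0) (.leaf 0 1 0)))) (.node 5742 (.node 1996 (.node 851 (.leaf 0 4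
 0) (.leaf 0 1 0)) (.node 485 (.leaf 0 4 0) (.leaf 0 1 0))) (.node 4249 (.node 1632 (.leaf 0 1 0)
 (.node 616 (.leaf 0 1 0) (.leaf 0 4 0))) (.node 2284 (.node 651 (.leaf 0 4 0) (.leaf 0 1 0))
 (.leaf 0 1 0))))) (.node 14748 (.node 8475 (.node 4911 (.node 1636 (.node 452 (.leaf 0 1 0)
 (.leaf 0 4 0)) (.node 820 (.leaf 0 1 0) (.leaf 0 4 0))) (.node 1638 (.leaf 0 1 0) (.leaf 0 1 0)))
 (.node 1352 (.leaf 0 4 0) (.node 1640 (.node 656 (.leaf 0 1 0) (.leaf 0 4 0)) (.leaf 0 1 0))))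
 (.node 3776 (.node 1643 (.leaf 0 1 0) (.node 123 (.leaf 0 1 0) (.leaf 0 4 0))) (.node 2796 (.node
 1152 (.leaf 0 4 0) (.leaf 0 1 0)) (.leaf 0 1 0)))))) (.node 64733 (.node 29775 (.node 14883
 (.node 4985 (.node 1691 (.node 45 (.leaf 0 4 0) (.leaf 0 1 0)) (.node 327 (.leaf 0 1 0) (.leaf 0
 4 0))) (.node 4947 (.node 1648 (.leaf 0 1 0) (.node 1438 (.leaf 0 1 0) (.leaf 0 4 0))) (.node
 1651 (.node 161 (.leaf 0 1 0) (.leaf 0 4 0)) (.leaf 0 1 0)))) (.node 9377 (.node 4959 (.node 3298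
 (.node 1274 (.leaf 0 1 0) (.node 378 (.leaf 0 4 0) (.leaf 0 1 0))) (.leaf 0 4 0)) (.node 1654
 (.leaf 0 1 0) (.leaf 0 1 0))) (.node 2028 (.node 546 (.leaf 0 4 0) (.leaf 0 1 0)) (.node 174
 (.leaf 0 4 0) (.leaf 0 1 0))))) (.node 18887 (.node 9958 (.node 4634 (.node 1659 (.leaf 0 1 0)
 (.node 945 (.leaf 0 1 0) (.leaf 0 4 0))) (.node 2002 (.node 342 (.leaf 0 4 0) (.leaf 0 1 0))
 (.leaf 0 1 0))) (.node 4988 (.node 1662 (.node 779 (.leaf 0 1 0) (.leaf 0 4 0)) (.node 1153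
 (.leaf 0 1 0) (.leaf 0 4 0))) (.node 1664 (.leaf 0 1 0) (.leaf 0 1 0)))) (.node 6054 (.node 2040
 (.node 1055 (.leaf 0 4 0) (.leaf 0 1 0)) (.node 681 (.leaf 0 4 0) (.leaf 0 1 0))) (.node 4157
 (.node 1668 (.leaf 0 1 0) (.node 444 (.leaf 0 1 0) (.leaf 0 4 0))) (.node 2520 (.node 851 (.leaf
 0 4 0) (.leaf 0 1 0)) (.leaf 0 1 0)))))) (.node 30198 (.node 15072 (.node 8475 (.node 5019 (.node
 1672 (.node 276 (.leaf 0 1 0) (.leaf 0 4 0)) (.node 652 (.leaf 0 1 0) (.leaf 0 4 0))) (.node 1674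
 (.leaf 0 1 0) (.leaf 0 1 0))) (.node 1568 (.leaf 0 4 0) (.node 1676 (.node 484 (.leaf 0 1 0)
 (.leaf 0 4 0)) (.leaf 0 1 0)))) (.node 9846 (.node 3673 (.node 1616 (.leaf 0 1 0) (.node 63
 (.leaf 0 4 0) (.leaf 0 1 0))) (.node 3044 (.node 1364 (.leaf 0 4 0) (.leaf 0 1 0)) (.leaf 0 1
 0))) (.node 1915 (.node 233 (.leaf 0 4 0) (.leaf 0 1 0)) (.node 147 (.leaf 0 1 0) (.leaf 0 4
 0))))) (.node 19507 (.node 10114 (.node 5031 (.node 1684 (.leaf 0 1 0) (.node 1282 (.leaf 0 1 0)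
 (.leaf 0 4 0))) (.node 1710 (.node 25 (.leaf 0 4 0) (.leaf 0 1 0)) (.leaf 0 1 0))) (.node 5067
 (.node 3182 (.node 1114 (.leaf 0 1 0) (.node 574 (.leaf 0 4 0) (.leaf 0 1 0))) (.leaf 0 4 0))
 (.node 1690 (.leaf 0 1 0) (.leaf 0 1 0)))) (.node 5824 (.node 2072 (.node 746 (.leaf 0 4 0)
 (.leaf 0 1 0)) (.node 366 (.leaf 0 4 0) (.leaf 0 1 0))) (.node 4546 (.node 1695 (.leaf 0 1 0)
 (.node 777 (.leaf 0 1 0) (.leaf 0 4 0))) (.node 2234 (.node 538 (.leaf 0 4 0) (.leaf 0 1 0))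
 (.leaf 0 1 0)))))))) (.node 108277 (.node 56386 (.node 25540 (.node 15306 (.node 8933 (.node 5096
 (.node 1698 (.node 607 (.leaf 0 1 0) (.leaf 0 4 0)) (.node 989 (.leaf 0 1 0) (.leaf 0 4 0)))
 (.node 1700 (.leaf 0 1 0) (.leaf 0 1 0))) (.node 2084 (.node 1267 (.leaf 0 4 0) (.leaf 0 1 0))
 (.node 885 (.leaf 0 4 0) (.leaf 0 1 0)))) (.node 4057 (.node 1704 (.leaf 0 1 0) (.node 264 (.leaf
 0 1 0) (.leaf 0 4 0))) (.node 2764 (.node 1059 (.leaf 0 4 0) (.leaf 0 1 0)) (.leaf 0 1 0))))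
 (.node 15397 (.node 5126 (.node 1708 (.node 92 (.leaf 0 1 0) (.leaf 0 4 0)) (.node 476 (.leaf 0 1
 0) (.leaf 0 4 0))) (.node 5132 (.node 1711 (.leaf 0 1 0) (.node 1631 (.leaf 0 1 0) (.leaf 0 4
 0))) (.node 1712 (.node 304 (.leaf 0 1 0) (.leaf 0 4 0)) (.leaf 0 1 0)))) (.node 9867 (.node 3561
 (.node 1460 (.leaf 0 1 0) (.node 255 (.leaf 0 4 0) (.leaf 0 1 0))) (.node 3300 (.node 1584 (.leaf
 0 4 0) (.leaf 0 1 0)) (.leaf 0 1 0))) (.node 2104 (.node 429 (.leaf 0 4 0) (.leaf 0 1 0)) (.node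
 43 (.leaf 0 4 0) (.leaf 0 1 0)))))) (.node 25871 (.node 10331 (.node 4947 (.node 1720 (.leaf 0 1
 0) (.node 1118 (.leaf 0 1 0) (.leaf 0 4 0))) (.node 1938 (.node 217 (.leaf 0 4 0) (.leaf 0 1 0))
 (.leaf 0 1 0))) (.node 9401 (.node 5175 (.node 1724 (.node 946 (.leaf 0 1 0) (.leaf 0 4 0))
 (.node 1334 (.leaf 0 1 0) (.leaf 0 4 0))) (.node 1726 (.leaf 0 1 0) (.leaf 0 1 0))) (.node 2116
 (.node 954 (.leaf 0 4 0) (.leaf 0 1 0)) (.node 566 (.leaf 0 4 0) (.leaf 0 1 0))))) (.node 10391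
 (.node 4450 (.node 1731 (.leaf 0 1 0) (.node 601 (.leaf 0 1 0) (.leaf 0 4 0))) (.node 2474 (.node
 742 (.leaf 0 4 0) (.leaf 0 1 0)) (.leaf 0 1 0))) (.node 8929 (.node 5204 (.node 1734 (.node 427
 (.leaf 0 1 0) (.leaf 0 4 0)) (.node 817 (.leaf 0 1 0) (.leaf 0 4 0))) (.node 1736 (.leaf 0 1 0)
 (.leaf 0 1 0))) (.node 1487 (.leaf 0 4 0) (.node 1739 (.node 643 (.leaf 0 1 0) (.leaf 0 4 0))
 (.leaf 0 1 0))))))) (.node 52491 (.node 26171 (.node 10351 (.node 3949 (.node 1740 (.leaf 0 1 0)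
 (.node 76 (.leaf 0 1 0) (.leaf 0 4 0))) (.node 3016 (.node 1275 (.leaf 0 4 0) (.leaf 0 1 0))
 (.leaf 0 1 0))) (.node 5334 (.node 1844 (.node 100 (.leaf 0 4 0) (.leaf 0 1 0)) (.node 292 (.leaf
 0 1 0) (.leaf 0 4 0))) (.node 5240 (.node 1747 (.leaf 0 1 0) (.node 1471 (.leaf 0 1 0) (.leaf 0 4
 0))) (.node 1748 (.node 116 (.leaf 0 1 0) (.leaf 0 4 0)) (.leaf 0 1 0))))) (.node 15774 (.node
 9879 (.node 5252 (.node 3441 (.node 1296 (.leaf 0 1 0) (.node 455 (.leaf 0 4 0) (.leaf 0 1 0)))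
 (.leaf 0 4 0)) (.node 1752 (.leaf 0 1 0) (.leaf 0 1 0))) (.node 2148 (.node 633 (.leaf 0 4 0)
 (.leaf 0 1 0)) (.node 239 (.leaf 0 4 0) (.leaf 0 1 0)))) (.node 4855 (.node 1756 (.leaf 0 1 0)
 (.node 946 (.leaf 0 1 0) (.leaf 0 4 0))) (.node 2174 (.node 417 (.leaf 0 4 0) (.leaf 0 1 0))
 (.leaf 0 1 0))))) (.node 26470 (.node 15864 (.node 9401 (.node 5283 (.node 1760 (.node 770 (.leaf
 0 1 0) (.leaf 0 4 0)) (.node 1166 (.leaf 0 1 0) (.leaf 0 4 0))) (.node 1762 (.leaf 0 1 0) (.leaf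
 0 1 0))) (.node 2160 (.node 1170 (.leaf 0 4 0) (.leaf 0 1 0)) (.node 774 (.leaf 0 4 0) (.leaf 0 1
 0)))) (.node 4346 (.node 1767 (.leaf 0 1 0) (.node 417 (.leaf 0 1 0) (.leaf 0 4 0))) (.node 2722
 (.node 954 (.leaf 0 4 0) (.leaf 0 1 0)) (.leaf 0 1 0)))) (.node 15955 (.node 8917 (.node 5312
 (.node 1770 (.node 239 (.leaf 0 1 0) (.leaf 0 4 0)) (.node 637 (.leaf 0 1 0) (.leaf 0 4 0)))
 (.node 1772 (.leaf 0 1 0) (.leaf 0 1 0))) (.node 1715 (.leaf 0 4 0) (.node 1775 (.node 459 (.leaf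
 0 1 0) (.leaf 0 4 0)) (.leaf 0 1 0)))) (.node 10367 (.node 3833 (.node 1656 (.leaf 0 1 0) (.node
 120 (.leaf 0 4 0) (.leaf 0 1 0))) (.node 3276 (.node 1499 (.leaf 0 4 0) (.leaf 0 1 0)) (.leaf 0 1
 0))) (.node 2080 (.node 300 (.leaf 0 4 0) (.leaf 0 1 0)) (.node 100 (.leaf 0 1 0) (.leaf 0 4
 0))))))))) (.node 224189 (.node 108101 (.node 53750 (.node 26801 (.node 10703 (.node 5268 (.node
 1783 (.leaf 0 1 0) (.node 1303 (.leaf 0 1 0) (.leaf 0 4 0))) (.node 1864 (.node 80 (.leaf 0 4 0)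
 (.leaf 0 1 0)) (.leaf 0 1 0))) (.node 9883 (.node 5360 (.node 3313 (.node 1124 (.leaf 0 1 0)
 (.node 663 (.leaf 0 4 0) (.leaf 0 1 0))) (.leaf 0 4 0)) (.node 1788 (.leaf 0 1 0) (.leaf 0 1 0)))
 (.node 2192 (.node 845 (.leaf 0 4 0) (.leaf 0 1 0)) (.node 443 (.leaf 0 4 0) (.leaf 0 1 0)))))
 (.node 10763 (.node 4755 (.node 1792 (.leaf 0 1 0) (.node 766 (.leaf 0 1 0) (.leaf 0 4 0)))
 (.node 2418 (.node 625 (.leaf 0 4 0) (.leaf 0 1 0)) (.leaf 0 1 0))) (.node 9393 (.node 5391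
 (.node 1796 (.node 586 (.leaf 0 1 0) (.leaf 0 4 0)) (.node 990 (.leaf 0 1 0) (.leaf 0 4 0)))
 (.node 1798 (.leaf 0 1 0) (.leaf 0 1 0))) (.node 2204 (.node 1394 (.leaf 0 4 0) (.leaf 0 1 0))
 (.node 990 (.leaf 0 4 0) (.leaf 0 1 0)))))) (.node 27101 (.node 10823 (.node 4234 (.node 1803
 (.leaf 0 1 0) (.node 225 (.leaf 0 1 0) (.leaf 0 4 0))) (.node 2978 (.node 1174 (.leaf 0 4 0)
 (.leaf 0 1 0)) (.leaf 0 1 0))) (.node 5421 (.node 1806 (.node 43 (.leaf 0 1 0) (.leaf 0 4 0))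
 (.node 449 (.leaf 0 1 0) (.leaf 0 4 0))) (.node 5427 (.node 1808 (.leaf 0 1 0) (.node 1668 (.leaf
 0 1 0) (.leaf 0 4 0))) (.node 1811 (.node 267 (.leaf 0 1 0) (.leaf 0 4 0)) (.leaf 0 1 0)))))
 (.node 16332 (.node 10375 (.node 3709 (.node 1488 (.leaf 0 1 0) (.node 324 (.leaf 0 4 0) (.leaf 0
 1 0))) (.node 3544 (.node 1731 (.leaf 0 4 0) (.leaf 0 1 0)) (.leaf 0 1 0))) (.node 2224 (.node
 508 (.leaf 0 4 0) (.leaf 0 1 0)) (.node 100 (.leaf 0 4 0) (.leaf 0 1 0)))) (.node 5172 (.node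
 1819 (.leaf 0 1 0) (.node 1127 (.leaf 0 1 0) (.leaf 0 4 0))) (.node 2104 (.node 284 (.leaf 0 4 0)
 (.leaf 0 1 0)) (.leaf 0 1 0)))))) (.node 54789 (.node 27401 (.node 16422 (.node 9879 (.node 5468
 (.node 1822 (.node 945 (.leaf 0 1 0) (.leaf 0 4 0)) (.node 1355 (.leaf 0 1 0) (.leaf 0 4 0)))
 (.node 1824 (.leaf 0 1 0) (.leaf 0 1 0))) (.node 2236 (.node 1065 (.leaf 0 4 0) (.leaf 0 1 0))
 (.node 655 (.leaf 0 4 0) (.leaf 0 1 0)))) (.node 4647 (.node 1828 (.leaf 0 1 0) (.node 578 (.leaf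
 0 1 0) (.leaf 0 4 0))) (.node 2670 (.node 841 (.leaf 0 4 0) (.leaf 0 1 0)) (.leaf 0 1 0))))
 (.node 16512 (.node 9377 (.node 5499 (.node 1832 (.node 394 (.leaf 0 1 0) (.leaf 0 4 0)) (.node
 806 (.leaf 0 1 0) (.leaf 0 4 0))) (.node 1834 (.leaf 0 1 0) (.leaf 0 1 0))) (.node 1626 (.leaf 0
 4 0) (.node 1836 (.node 622 (.leaf 0 1 0) (.leaf 0 4 0)) (.leaf 0 1 0)))) (.node 4114 (.node 1839
 (.leaf 0 1 0) (.node 25 (.leaf 0 1 0) (.leaf 0 4 0))) (.node 3242 (.node 1402 (.leaf 0 4 0)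
 (.leaf 0 1 0)) (.leaf 0 1 0))))) (.node 33421 (.node 16765 (.node 5691 (.node 2005 (.node 163
 (.leaf 0 4 0) (.leaf 0 1 0)) (.node 253 (.leaf 0 1 0) (.leaf 0 4 0))) (.node 5535 (.node 1844
 (.leaf 0 1 0) (.node 1496 (.leaf 0 1 0) (.leaf 0 4 0))) (.node 1847 (.node 67 (.leaf 0 1 0)
 (.leaf 0 4 0)) (.leaf 0 1 0)))) (.node 10375 (.node 5547 (.node 3576 (.node 1312 (.leaf 0 1 0)
 (.node 536 (.leaf 0 4 0) (.leaf 0 1 0))) (.leaf 0 4 0)) (.node 1850 (.leaf 0 1 0) (.leaf 0 1 0)))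
 (.node 2268 (.node 724 (.leaf 0 4 0) (.leaf 0 1 0)) (.node 308 (.leaf 0 4 0) (.leaf 0 1 0)))))
 (.node 11135 (.node 5068 (.node 1855 (.leaf 0 1 0) (.node 943 (.leaf 0 1 0) (.leaf 0 4 0)))
 (.node 2352 (.node 496 (.leaf 0 4 0) (.leaf 0 1 0)) (.leaf 0 1 0))) (.node 9867 (.node 5576
 (.node 1858 (.node 757 (.leaf 0 1 0) (.leaf 0 4 0)) (.node 1175 (.leaf 0 1 0) (.leaf 0 4 0)))
 (.node 1860 (.leaf 0 1 0) (.leaf 0 1 0))) (.node 2280 (.node 1293 (.leaf 0 4 0) (.leaf 0 1 0))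
 (.node 875 (.leaf 0 4 0) (.leaf 0 1 0)))))))) (.node 113007 (.node 56210 (.node 28031 (.node
 11195 (.node 4531 (.node 1864 (.leaf 0 1 0) (.node 382 (.leaf 0 1 0) (.leaf 0 4 0))) (.node 2930
 (.node 1065 (.leaf 0 4 0) (.leaf 0 1 0)) (.leaf 0 1 0))) (.node 9353 (.node 5607 (.node 1868
 (.node 194 (.leaf 0 1 0) (.leaf 0 4 0)) (.node 614 (.leaf 0 1 0) (.leaf 0 4 0))) (.node 1870
 (.leaf 0 1 0) (.leaf 0 1 0))) (.node 1866 (.leaf 0 4 0) (.node 1872 (.node 426 (.leaf 0 1 0)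
 (.leaf 0 4 0)) (.leaf 0 1 0))))) (.node 16891 (.node 10880 (.node 3987 (.node 1690 (.leaf 0 1 0)
 (.node 185 (.leaf 0 4 0) (.leaf 0 1 0))) (.node 3514 (.node 1638 (.leaf 0 4 0) (.leaf 0 1 0))
 (.leaf 0 1 0))) (.node 2253 (.node 375 (.leaf 0 4 0) (.leaf 0 1 0)) (.node 49 (.leaf 0 1 0)
 (.leaf 0 4 0)))) (.node 5501 (.node 1880 (.leaf 0 1 0) (.node 1316 (.leaf 0 1 0) (.leaf 0 4 0)))
 (.node 2024 (.node 143 (.leaf 0 4 0) (.leaf 0 1 0)) (.leaf 0 1 0))))) (.node 28331 (.node 16980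
 (.node 10367 (.node 5655 (.node 3436 (.node 1128 (.leaf 0 1 0) (.node 756 (.leaf 0 4 0) (.leaf 0
 1 0))) (.leaf 0 4 0)) (.node 1886 (.leaf 0 1 0) (.leaf 0 1 0))) (.node 2312 (.node 948 (.leaf 0 4
 0) (.leaf 0 1 0)) (.node 524 (.leaf 0 4 0) (.leaf 0 1 0)))) (.node 4956 (.node 1891 (.leaf 0 1 0)
 (.node 751 (.leaf 0 1 0) (.leaf 0 4 0))) (.node 2608 (.node 716 (.leaf 0 4 0) (.leaf 0 1 0))
 (.leaf 0 1 0)))) (.node 17070 (.node 9847 (.node 5684 (.node 1894 (.node 561 (.leaf 0 1 0) (.leaf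
 0 4 0)) (.node 987 (.leaf 0 1 0) (.leaf 0 4 0))) (.node 1896 (.leaf 0 1 0) (.leaf 0 1 0))) (.node
 2324 (.node 1529 (.leaf 0 4 0) (.leaf 0 1 0)) (.node 1103 (.leaf 0 4 0) (.leaf 0 1 0)))) (.node
 4407 (.node 1900 (.leaf 0 1 0) (.node 178 (.leaf 0 1 0) (.leaf 0 4 0))) (.node 3198 (.node 1297
 (.leaf 0 4 0) (.leaf 0 1 0)) (.leaf 0 1 0)))))) (.node 63198 (.node 34389 (.node 17175 (.node
 5728 (.node 1918 (.node 14 (.leaf 0 4 0) (.leaf 0 1 0)) (.node 414 (.leaf 0 1 0) (.leaf 0 4 0)))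
 (.node 5720 (.node 1907 (.leaf 0 1 0) (.node 1701 (.leaf 0 1 0) (.leaf 0 4 0))) (.node 1908
 (.node 222 (.leaf 0 1 0) (.leaf 0 4 0)) (.leaf 0 1 0)))) (.node 10877 (.node 3851 (.node 1510
 (.leaf 0 1 0) (.node 401 (.leaf 0 4 0) (.leaf 0 1 0))) (.node 3794 (.node 1882 (.leaf 0 4 0)
 (.leaf 0 1 0)) (.leaf 0 1 0))) (.node 2344 (.node 595 (.leaf 0 4 0) (.leaf 0 1 0)) (.node 165
 (.leaf 0 4 0) (.leaf 0 1 0))))) (.node 11507 (.node 5393 (.node 1916 (.leaf 0 1 0) (.node 1128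
 (.leaf 0 1 0) (.leaf 0 4 0))) (.node 2276 (.node 359 (.leaf 0 4 0) (.leaf 0 1 0)) (.leaf 0 1 0)))
 (.node 10351 (.node 5763 (.node 1920 (.node 936 (.leaf 0 1 0) (.leaf 0 4 0)) (.node 1368 (.leaf 0
 1 0) (.leaf 0 4 0))) (.node 1922 (.leaf 0 1 0) (.leaf 0 1 0))) (.node 2356 (.node 1180 (.leaf 0 4
 0) (.leaf 0 1 0)) (.node 748 (.leaf 0 4 0) (.leaf 0 1 0)))))) (.node 28961 (.node 11567 (.node
 4836 (.node 1927 (.leaf 0 1 0) (.node 551 (.leaf 0 1 0) (.leaf 0 4 0))) (.node 2872 (.node 944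
 (.leaf 0 4 0) (.leaf 0 1 0)) (.leaf 0 1 0))) (.node 9819 (.node 5792 (.node 1930 (.node 357
 (.leaf 0 1 0) (.leaf 0 4 0)) (.node 791 (.leaf 0 1 0) (.leaf 0 4 0))) (.node 1932 (.leaf 0 1 0)
 (.leaf 0 1 0))) (.node 1773 (.leaf 0 4 0) (.node 1935 (.node 597 (.leaf 0 1 0) (.leaf 0 4 0))
 (.leaf 0 1 0))))) (.node 17448 (.node 11397 (.node 4275 (.node 1902 (.leaf 0 1 0) (.node 34
 (.leaf 0 4 0) (.leaf 0 1 0))) (.node 3474 (.node 1537 (.leaf 0 4 0) (.leaf 0 1 0)) (.leaf 0 1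
 0))) (.node 2170 (.node 230 (.leaf 0 4 0) (.leaf 0 1 0)) (.node 206 (.leaf 0 1 0) (.leaf 0 4
 0)))) (.node 5828 (.node 1943 (.leaf 0 1 0) (.node 1517 (.leaf 0 1 0) (.leaf 0 4 0))) (.node 1944
 (.node 10 (.leaf 0 1 0) (.leaf 0 4 0)) (.leaf 0 1 0))))))))) (.node 505138 (.node 244360 (.node
 123900 (.node 58671 (.node 29261 (.node 17538 (.node 10865 (.node 5840 (.node 3707 (.node 1322
 (.leaf 0 1 0) (.node 625 (.leaf 0 4 0) (.leaf 0 1 0))) (.leaf 0 4 0)) (.node 1948 (.leaf 0 1 0)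
 (.leaf 0 1 0))) (.node 2388 (.node 823 (.leaf 0 4 0) (.leaf 0 1 0)) (.node 385 (.leaf 0 4 0)
 (.leaf 0 1 0)))) (.node 5277 (.node 1952 (.leaf 0 1 0) (.node 932 (.leaf 0 1 0) (.leaf 0 4 0)))
 (.node 2536 (.node 583 (.leaf 0 4 0) (.leaf 0 1 0)) (.leaf 0 1 0)))) (.node 17628 (.node 10327
 (.node 5871 (.node 1956 (.node 736 (.leaf 0 1 0) (.leaf 0 4 0)) (.node 1176 (.leaf 0 1 0) (.leaf
 0 4 0))) (.node 1958 (.leaf 0 1 0) (.leaf 0 1 0))) (.node 2400 (.node 1420 (.leaf 0 4 0) (.leaf 0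
 1 0)) (.node 980 (.leaf 0 4 0) (.leaf 0 1 0)))) (.node 4708 (.node 1963 (.leaf 0 1 0) (.node 343
 (.leaf 0 1 0) (.leaf 0 4 0))) (.node 3144 (.node 1180 (.leaf 0 4 0) (.leaf 0 1 0)) (.leaf 0 1
 0))))) (.node 35491 (.node 17719 (.node 5901 (.node 1966 (.node 145 (.leaf 0 1 0) (.leaf 0 4 0))
 (.node 587 (.leaf 0 1 0) (.leaf 0 4 0))) (.node 5907 (.node 1968 (.leaf 0 1 0) (.node 1914 (.leaf
 0 1 0) (.leaf 0 4 0))) (.node 1971 (.node 389 (.leaf 0 1 0) (.leaf 0 4 0)) (.leaf 0 1 0))))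
 (.node 11389 (.node 4135 (.node 1718 (.leaf 0 1 0) (.node 254 (.leaf 0 4 0) (.leaf 0 1 0)))
 (.node 3758 (.node 1785 (.leaf 0 4 0) (.leaf 0 1 0)) (.leaf 0 1 0))) (.node 2420 (.node 454
 (.leaf 0 4 0) (.leaf 0 1 0)) (.node 10 (.leaf 0 4 0) (.leaf 0 1 0))))) (.node 11879 (.node 5726
 (.node 1979 (.leaf 0 1 0) (.node 1325 (.leaf 0 1 0) (.leaf 0 4 0))) (.node 2190 (.node 210 (.leaf
 0 4 0) (.leaf 0 1 0)) (.leaf 0 1 0))) (.node 10845 (.node 5948 (.node 1982 (.node 1127 (.leaf 0 1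
 0) (.leaf 0 4 0)) (.node 1573 (.leaf 0 1 0) (.leaf 0 4 0))) (.node 1984 (.leaf 0 1 0) (.leaf 0 1
 0))) (.node 2432 (.node 1059 (.leaf 0 4 0) (.leaf 0 1 0)) (.node 613 (.leaf 0 4 0) (.leaf 0 1
 0))))))) (.node 59930 (.node 29891 (.node 11939 (.node 5153 (.node 1988 (.leaf 0 1 0) (.node 728
 (.leaf 0 1 0) (.leaf 0 4 0))) (.node 2804 (.node 815 (.leaf 0 4 0) (.leaf 0 1 0)) (.leaf 0 1 0)))
 (.node 10295 (.node 5979 (.node 1992 (.node 528 (.leaf 0 1 0) (.leaf 0 4 0)) (.node 976 (.leaf 0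
 1 0) (.leaf 0 4 0))) (.node 1994 (.leaf 0 1 0) (.leaf 0 1 0))) (.node 1668 (.leaf 0 4 0) (.node
 1996 (.node 776 (.leaf 0 1 0) (.leaf 0 4 0)) (.leaf 0 1 0))))) (.node 11923 (.node 4572 (.node
 1999 (.leaf 0 1 0) (.node 127 (.leaf 0 1 0) (.leaf 0 4 0))) (.node 3424 (.node 1424 (.leaf 0 4 0)
 (.leaf 0 1 0)) (.leaf 0 1 0))) (.node 6085 (.node 2079 (.node 77 (.leaf 0 4 0) (.leaf 0 1 0))
 (.node 375 (.leaf 0 1 0) (.leaf 0 4 0))) (.node 6015 (.node 2004 (.leaf 0 1 0) (.node 1726 (.leaf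
 0 1 0) (.leaf 0 4 0))) (.node 2007 (.node 173 (.leaf 0 1 0) (.leaf 0 4 0)) (.leaf 0 1 0))))))
 (.node 30191 (.node 18096 (.node 11373 (.node 6027 (.node 3986 (.node 1526 (.leaf 0 1 0) (.node
 482 (.leaf 0 4 0) (.leaf 0 1 0))) (.leaf 0 4 0)) (.node 2010 (.leaf 0 1 0) (.leaf 0 1 0))) (.node
 2464 (.node 686 (.leaf 0 4 0) (.leaf 0 1 0)) (.node 234 (.leaf 0 4 0) (.leaf 0 1 0)))) (.node
 5606 (.node 2015 (.leaf 0 1 0) (.node 1125 (.leaf 0 1 0) (.leaf 0 4 0))) (.node 2454 (.node 438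
 (.leaf 0 4 0) (.leaf 0 1 0)) (.leaf 0 1 0)))) (.node 18186 (.node 10817 (.node 6056 (.node 2018
 (.node 923 (.leaf 0 1 0) (.leaf 0 4 0)) (.node 1377 (.leaf 0 1 0) (.leaf 0 4 0))) (.node 2020
 (.leaf 0 1 0) (.leaf 0 1 0))) (.node 2476 (.node 1303 (.leaf 0 4 0) (.leaf 0 1 0)) (.node 849
 (.leaf 0 4 0) (.leaf 0 1 0)))) (.node 5021 (.node 2024 (.leaf 0 1 0) (.node 516 (.leaf 0 1 0)
 (.leaf 0 4 0))) (.node 3080 (.node 1055 (.leaf 0 4 0) (.leaf 0 1 0)) (.leaf 0 1 0))))))) (.node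
 129067 (.node 67276 (.node 36606 (.node 18276 (.node 10255 (.node 6087 (.node 2028 (.node 312
 (.leaf 0 1 0) (.leaf 0 4 0)) (.node 768 (.leaf 0 1 0) (.leaf 0 4 0))) (.node 2030 (.leaf 0 1 0)
 (.leaf 0 1 0))) (.node 1924 (.leaf 0 4 0) (.node 2032 (.node 564 (.leaf 0 1 0) (.leaf 0 4 0))
 (.leaf 0 1 0)))) (.node 11910 (.node 4429 (.node 1936 (.leaf 0 1 0) (.node 99 (.leaf 0 4 0)
 (.leaf 0 1 0))) (.node 3712 (.node 1676 (.leaf 0 4 0) (.leaf 0 1 0)) (.leaf 0 1 0))) (.node 2343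
 (.node 305 (.leaf 0 4 0) (.leaf 0 1 0)) (.node 155 (.leaf 0 1 0) (.leaf 0 4 0))))) (.node 12251
 (.node 6071 (.node 2040 (.leaf 0 1 0) (.node 1530 (.leaf 0 1 0) (.leaf 0 4 0))) (.node 2094
 (.node 53 (.leaf 0 4 0) (.leaf 0 1 0)) (.leaf 0 1 0))) (.node 11349 (.node 6135 (.node 3830
 (.node 1326 (.leaf 0 1 0) (.node 718 (.leaf 0 4 0) (.leaf 0 1 0))) (.leaf 0 4 0)) (.node 2046
 (.leaf 0 1 0) (.leaf 0 1 0))) (.node 2508 (.node 926 (.leaf 0 4 0) (.leaf 0 1 0)) (.node 466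
 (.leaf 0 4 0) (.leaf 0 1 0)))))) (.node 30821 (.node 12311 (.node 5478 (.node 2051 (.leaf 0 1 0)
 (.node 917 (.leaf 0 1 0) (.leaf 0 4 0))) (.node 2726 (.node 674 (.leaf 0 4 0) (.leaf 0 1 0))
 (.leaf 0 1 0))) (.node 10781 (.node 6164 (.node 2054 (.node 711 (.leaf 0 1 0) (.leaf 0 4 0))
 (.node 1173 (.leaf 0 1 0) (.leaf 0 4 0))) (.node 2056 (.leaf 0 1 0) (.leaf 0 1 0))) (.node 2520
 (.node 1555 (.leaf 0 4 0) (.leaf 0 1 0)) (.node 1093 (.leaf 0 4 0) (.leaf 0 1 0))))) (.node 12371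
 (.node 4881 (.node 2060 (.leaf 0 1 0) (.node 296 (.leaf 0 1 0) (.leaf 0 4 0))) (.node 3364 (.node
 1303 (.leaf 0 4 0) (.leaf 0 1 0)) (.leaf 0 1 0))) (.node 6194 (.node 2064 (.node 88 (.leaf 0 1 0)
 (.leaf 0 4 0)) (.node 552 (.leaf 0 1 0) (.leaf 0 4 0))) (.node 6200 (.node 2067 (.leaf 0 1 0)
 (.node 1947 (.leaf 0 1 0) (.leaf 0 4 0))) (.node 2068 (.node 344 (.leaf 0 1 0) (.leaf 0 4 0))
 (.leaf 0 1 0))))))) (.node 62391 (.node 31121 (.node 18654 (.node 11891 (.node 4277 (.node 1740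
 (.leaf 0 1 0) (.node 331 (.leaf 0 4 0) (.leaf 0 1 0))) (.node 4008 (.node 1936 (.leaf 0 4 0)
 (.leaf 0 1 0)) (.leaf 0 1 0))) (.node 2540 (.node 541 (.leaf 0 4 0) (.leaf 0 1 0)) (.node 75
 (.leaf 0 4 0) (.leaf 0 1 0)))) (.node 5947 (.node 2076 (.leaf 0 1 0) (.node 1326 (.leaf 0 1 0)
 (.leaf 0 4 0))) (.node 2362 (.node 285 (.leaf 0 4 0) (.leaf 0 1 0)) (.leaf 0 1 0)))) (.node 18744
 (.node 11317 (.node 6243 (.node 2080 (.node 1118 (.leaf 0 1 0) (.leaf 0 4 0)) (.node 1586 (.leaf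
 0 1 0) (.leaf 0 4 0))) (.node 2082 (.leaf 0 1 0) (.leaf 0 1 0))) (.node 2552 (.node 1174 (.leaf 0
 4 0) (.leaf 0 1 0)) (.node 706 (.leaf 0 4 0) (.leaf 0 1 0)))) (.node 5342 (.node 2087 (.leaf 0 1
 0) (.node 701 (.leaf 0 1 0) (.leaf 0 4 0))) (.node 3006 (.node 918 (.leaf 0 4 0) (.leaf 0 1 0))
 (.leaf 0 1 0))))) (.node 31276 (.node 18834 (.node 10737 (.node 6272 (.node 2090 (.node 491
 (.leaf 0 1 0) (.leaf 0 4 0)) (.node 961 (.leaf 0 1 0) (.leaf 0 4 0))) (.node 2092 (.leaf 0 1 0)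
 (.leaf 0 1 0))) (.node 1815 (.leaf 0 4 0) (.node 2095 (.node 751 (.leaf 0 1 0) (.leaf 0 4 0))
 (.leaf 0 1 0)))) (.node 4733 (.node 2096 (.leaf 0 1 0) (.node 68 (.leaf 0 1 0) (.leaf 0 4 0)))
 (.node 3656 (.node 1559 (.leaf 0 4 0) (.leaf 0 1 0)) (.leaf 0 1 0)))) (.node 19069 (.node 6446
 (.node 2244 (.node 144 (.leaf 0 4 0) (.leaf 0 1 0)) (.node 328 (.leaf 0 1 0) (.leaf 0 4 0)))
 (.node 6308 (.node 2103 (.leaf 0 1 0) (.node 1747 (.leaf 0 1 0) (.leaf 0 4 0))) (.node 2104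
 (.node 116 (.leaf 0 1 0) (.leaf 0 4 0)) (.leaf 0 1 0)))) (.node 11863 (.node 6320 (.node 4117
 (.node 1536 (.leaf 0 1 0) (.node 571 (.leaf 0 4 0) (.leaf 0 1 0))) (.leaf 0 4 0)) (.node 2108
 (.leaf 0 1 0) (.leaf 0 1 0))) (.node 2584 (.node 785 (.leaf 0 4 0) (.leaf 0 1 0)) (.node 311
 (.leaf 0 4 0) (.leaf 0 1 0))))))))) (.node 264779 (.node 127901 (.node 63650 (.node 31751 (.node
 12683 (.node 5815 (.node 2112 (.leaf 0 1 0) (.node 1114 (.leaf 0 1 0) (.leaf 0 4 0))) (.node 2638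
 (.node 525 (.leaf 0 4 0) (.leaf 0 1 0)) (.leaf 0 1 0))) (.node 11277 (.node 6351 (.node 2116
 (.node 902 (.leaf 0 1 0) (.leaf 0 4 0)) (.node 1378 (.leaf 0 1 0) (.leaf 0 4 0))) (.node 2118
 (.leaf 0 1 0) (.leaf 0 1 0))) (.node 2596 (.node 1430 (.leaf 0 4 0) (.leaf 0 1 0)) (.node 954
 (.leaf 0 4 0) (.leaf 0 1 0))))) (.node 12743 (.node 5198 (.node 2123 (.leaf 0 1 0) (.node 477
 (.leaf 0 1 0) (.leaf 0 4 0))) (.node 3294 (.node 1170 (.leaf 0 4 0) (.leaf 0 1 0)) (.leaf 0 1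
 0))) (.node 10685 (.node 6380 (.node 2126 (.node 263 (.leaf 0 1 0) (.leaf 0 4 0)) (.node 741
 (.leaf 0 1 0) (.leaf 0 4 0))) (.node 2128 (.leaf 0 1 0) (.leaf 0 1 0))) (.node 2083 (.leaf 0 4 0)
 (.node 2131 (.node 527 (.leaf 0 1 0) (.leaf 0 4 0)) (.leaf 0 1 0)))))) (.node 32051 (.node 19212
 (.node 12419 (.node 4577 (.node 1964 (.leaf 0 1 0) (.node 168 (.leaf 0 4 0) (.leaf 0 1 0)))
 (.node 3956 (.node 1823 (.leaf 0 4 0) (.leaf 0 1 0)) (.leaf 0 1 0))) (.node 2520 (.node 384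
 (.leaf 0 4 0) (.leaf 0 1 0)) (.node 96 (.leaf 0 1 0) (.leaf 0 4 0)))) (.node 6296 (.node 2139
 (.leaf 0 1 0) (.node 1539 (.leaf 0 1 0) (.leaf 0 4 0))) (.node 2260 (.node 120 (.leaf 0 4 0)
 (.leaf 0 1 0)) (.leaf 0 1 0)))) (.node 19302 (.node 11827 (.node 6428 (.node 3949 (.node 1324
 (.leaf 0 1 0) (.node 819 (.leaf 0 4 0) (.leaf 0 1 0))) (.leaf 0 4 0)) (.node 2144 (.leaf 0 1 0)
 (.leaf 0 1 0))) (.node 2628 (.node 1037 (.leaf 0 4 0) (.leaf 0 1 0)) (.node 555 (.leaf 0 4 0)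
 (.leaf 0 1 0)))) (.node 5675 (.node 2148 (.leaf 0 1 0) (.node 894 (.leaf 0 1 0) (.leaf 0 4 0)))
 (.node 2922 (.node 773 (.leaf 0 4 0) (.leaf 0 1 0)) (.leaf 0 1 0)))))) (.node 71368 (.node 32350
 (.node 19392 (.node 11229 (.node 6459 (.node 2152 (.node 678 (.leaf 0 1 0) (.leaf 0 4 0)) (.node
 1162 (.leaf 0 1 0) (.leaf 0 4 0))) (.node 2154 (.leaf 0 1 0) (.leaf 0 1 0))) (.node 2640 (.node
 1694 (.leaf 0 4 0) (.leaf 0 1 0)) (.node 1210 (.leaf 0 4 0) (.leaf 0 1 0)))) (.node 5046 (.node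
 2159 (.leaf 0 1 0) (.node 245 (.leaf 0 1 0) (.leaf 0 4 0))) (.node 3590 (.node 1430 (.leaf 0 4 0)
 (.leaf 0 1 0)) (.leaf 0 1 0)))) (.node 19483 (.node 6489 (.node 2162 (.node 27 (.leaf 0 1 0)
 (.leaf 0 4 0)) (.node 513 (.leaf 0 1 0) (.leaf 0 4 0))) (.node 6495 (.node 2164 (.leaf 0 1 0)
 (.node 1972 (.leaf 0 1 0) (.leaf 0 4 0))) (.node 2167 (.node 295 (.leaf 0 1 0) (.leaf 0 4 0))
 (.leaf 0 1 0)))) (.node 12387 (.node 4413 (.node 1756 (.leaf 0 1 0) (.node 412 (.leaf 0 4 0)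
 (.leaf 0 1 0))) (.node 4264 (.node 2095 (.leaf 0 4 0) (.leaf 0 1 0)) (.leaf 0 1 0))) (.node 2660
 (.node 632 (.leaf 0 4 0) (.leaf 0 1 0)) (.node 144 (.leaf 0 4 0) (.leaf 0 1 0)))))) (.node 32681
 (.node 13055 (.node 6160 (.node 2175 (.leaf 0 1 0) (.node 1323 (.leaf 0 1 0) (.leaf 0 4 0)))
 (.node 2540 (.node 364 (.leaf 0 4 0) (.leaf 0 1 0)) (.leaf 0 1 0))) (.node 11783 (.node 6536
 (.node 2178 (.node 1105 (.leaf 0 1 0) (.leaf 0 4 0)) (.node 1595 (.leaf 0 1 0) (.leaf 0 4 0)))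
 (.node 2180 (.leaf 0 1 0) (.leaf 0 1 0))) (.node 2672 (.node 1297 (.leaf 0 4 0) (.leaf 0 1 0))
 (.node 807 (.leaf 0 4 0) (.leaf 0 1 0))))) (.node 13115 (.node 5527 (.node 2184 (.leaf 0 1 0)
 (.node 666 (.leaf 0 1 0) (.leaf 0 4 0))) (.node 3214 (.node 1029 (.leaf 0 4 0) (.leaf 0 1 0))
 (.leaf 0 1 0))) (.node 11173 (.node 6567 (.node 2188 (.node 446 (.leaf 0 1 0) (.leaf 0 4 0))
 (.node 938 (.leaf 0 1 0) (.leaf 0 4 0))) (.node 2190 (.leaf 0 1 0) (.leaf 0 1 0))) (.node 1966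
 (.leaf 0 4 0) (.node 2192 (.node 718 (.leaf 0 1 0) (.leaf 0 4 0)) (.leaf 0 1 0)))))))) (.node
 139525 (.node 66110 (.node 32981 (.node 12957 (.node 4886 (.node 2195 (.leaf 0 1 0) (.node 5
 (.leaf 0 1 0) (.leaf 0 4 0))) (.node 3894 (.node 1698 (.leaf 0 4 0) (.leaf 0 1 0)) (.leaf 0 1
 0))) (.node 6815 (.node 2417 (.node 219 (.leaf 0 4 0) (.leaf 0 1 0)) (.node 277 (.leaf 0 1 0)
 (.leaf 0 4 0))) (.node 6603 (.node 2200 (.leaf 0 1 0) (.node 1760 (.leaf 0 1 0) (.leaf 0 4 0)))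
 (.node 2203 (.node 55 (.leaf 0 1 0) (.leaf 0 4 0)) (.leaf 0 1 0))))) (.node 19860 (.node 12347
 (.node 6615 (.node 4240 (.node 1540 (.leaf 0 1 0) (.node 664 (.leaf 0 4 0) (.leaf 0 1 0))) (.leaf
 0 4 0)) (.node 2206 (.leaf 0 1 0) (.leaf 0 1 0))) (.node 2704 (.node 888 (.leaf 0 4 0) (.leaf 0 1
 0)) (.node 392 (.leaf 0 4 0) (.leaf 0 1 0)))) (.node 6016 (.node 2211 (.leaf 0 1 0) (.node 1099
 (.leaf 0 1 0) (.leaf 0 4 0))) (.node 2828 (.node 616 (.leaf 0 4 0) (.leaf 0 1 0)) (.leaf 0 1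
 0))))) (.node 33281 (.node 19950 (.node 11731 (.node 6644 (.node 2214 (.node 877 (.leaf 0 1 0)
 (.leaf 0 4 0)) (.node 1375 (.leaf 0 1 0) (.leaf 0 4 0))) (.node 2216 (.leaf 0 1 0) (.leaf 0 1
 0))) (.node 2716 (.node 1565 (.leaf 0 4 0) (.leaf 0 1 0)) (.node 1067 (.leaf 0 4 0) (.leaf 0 1
 0)))) (.node 5371 (.node 2220 (.leaf 0 1 0) (.node 430 (.leaf 0 1 0) (.leaf 0 4 0))) (.node 3514
 (.node 1293 (.leaf 0 4 0) (.leaf 0 1 0)) (.leaf 0 1 0)))) (.node 20040 (.node 6674 (.node 2224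
 (.node 206 (.leaf 0 1 0) (.leaf 0 4 0)) (.node 706 (.leaf 0 1 0) (.leaf 0 4 0))) (.node 6680
 (.node 2227 (.leaf 0 1 0) (.node 2209 (.leaf 0 1 0) (.leaf 0 4 0))) (.node 2228 (.node 482 (.leaf
 0 1 0) (.leaf 0 4 0)) (.leaf 0 1 0)))) (.node 12920 (.node 4719 (.node 1986 (.leaf 0 1 0) (.node
 245 (.leaf 0 4 0) (.leaf 0 1 0))) (.node 4206 (.node 1974 (.leaf 0 4 0) (.leaf 0 1 0)) (.leaf 0 1
 0))) (.node 2705 (.node 471 (.leaf 0 4 0) (.leaf 0 1 0)) (.node 33 (.leaf 0 1 0) (.leaf 0 4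
 0))))))) (.node 67370 (.node 33611 (.node 13427 (.node 6517 (.node 2236 (.leaf 0 1 0) (.node 1540
 (.leaf 0 1 0) (.leaf 0 4 0))) (.node 2432 (.node 195 (.leaf 0 4 0) (.leaf 0 1 0)) (.leaf 0 1 0)))
 (.node 12299 (.node 6723 (.node 2240 (.node 1316 (.leaf 0 1 0) (.leaf 0 4 0)) (.node 1820 (.leaf
 0 1 0) (.leaf 0 4 0))) (.node 2242 (.leaf 0 1 0) (.leaf 0 1 0))) (.node 2748 (.node 1152 (.leaf 0
 4 0) (.leaf 0 1 0)) (.node 648 (.leaf 0 4 0) (.leaf 0 1 0))))) (.node 13487 (.node 5864 (.node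
 2247 (.leaf 0 1 0) (.node 867 (.leaf 0 1 0) (.leaf 0 4 0))) (.node 3124 (.node 876 (.leaf 0 4 0)
 (.leaf 0 1 0)) (.leaf 0 1 0))) (.node 11671 (.node 6752 (.node 2250 (.node 641 (.leaf 0 1 0)
 (.leaf 0 4 0)) (.node 1147 (.leaf 0 1 0) (.leaf 0 4 0))) (.node 2252 (.leaf 0 1 0) (.leaf 0 1
 0))) (.node 1841 (.leaf 0 4 0) (.node 2255 (.node 921 (.leaf 0 1 0) (.leaf 0 4 0)) (.leaf 0 1
 0)))))) (.node 33911 (.node 13505 (.node 5207 (.node 2256 (.leaf 0 1 0) (.node 186 (.leaf 0 1 0)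
 (.leaf 0 4 0))) (.node 3822 (.node 1565 (.leaf 0 4 0) (.leaf 0 1 0)) (.leaf 0 1 0))) (.node 6824
 (.node 2302 (.node 42 (.leaf 0 4 0) (.leaf 0 1 0)) (.node 466 (.leaf 0 1 0) (.leaf 0 4 0)))
 (.node 6788 (.node 2263 (.leaf 0 1 0) (.node 1993 (.leaf 0 1 0) (.leaf 0 4 0))) (.node 2264
 (.node 238 (.leaf 0 1 0) (.leaf 0 4 0)) (.leaf 0 1 0))))) (.node 20418 (.node 12877 (.node 4543
 (.node 1766 (.leaf 0 1 0) (.node 501 (.leaf 0 4 0) (.leaf 0 1 0))) (.node 4526 (.node 2258 (.leaf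
 0 4 0) (.leaf 0 1 0)) (.leaf 0 1 0))) (.node 2780 (.node 731 (.leaf 0 4 0) (.leaf 0 1 0)) (.node
 221 (.leaf 0 4 0) (.leaf 0 1 0)))) (.node 6369 (.node 2272 (.leaf 0 1 0) (.node 1312 (.leaf 0 1
 0) (.leaf 0 4 0))) (.node 2724 (.node 451 (.leaf 0 4 0) (.leaf 0 1 0)) (.leaf 0 1 0)))))))))))
 (.node 1852690 (.node 953437 (.node 492590 (.node 249660 (.node 110000 (.node 54808 (.node 26213
 (.node 12243 (.node 6831 (.node 2276 (.node 1084 (.leaf 0 1 0) (.leaf 0 4 0)) (.node 1596 (.leaf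
 0 1 0) (.leaf 0 4 0))) (.node 2278 (.leaf 0 1 0) (.leaf 0 1 0))) (.node 8266 (.node 2792 (.node
 1424 (.leaf 0 4 0) (.leaf 0 1 0)) (.node 912 (.leaf 0 4 0) (.leaf 0 1 0))) (.node 2283 (.leaf 0 1
 0) (.node 627 (.leaf 0 1 0) (.leaf 0 4 0))))) (.node 14859 (.node 7998 (.node 3428 (.node 1144
 (.leaf 0 4 0) (.leaf 0 1 0)) (.leaf 0 1 0)) (.node 2286 (.node 397 (.leaf 0 1 0) (.leaf 0 4 0))
 (.node 911 (.leaf 0 1 0) (.leaf 0 4 0)))) (.node 4743 (.node 2288 (.leaf 0 1 0) (.leaf 0 1 0))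
 (.node 2125 (.leaf 0 4 0) (.node 2291 (.node 681 (.leaf 0 1 0) (.leaf 0 4 0)) (.leaf 0 1 0))))))
 (.node 27535 (.node 13465 (.node 5035 (.node 2226 (.leaf 0 1 0) (.node 66 (.leaf 0 4 0) (.leaf 0
 1 0))) (.node 4138 (.node 1845 (.leaf 0 4 0) (.leaf 0 1 0)) (.leaf 0 1 0))) (.node 7188 (.node
 2594 (.node 298 (.leaf 0 4 0) (.leaf 0 1 0)) (.node 218 (.leaf 0 1 0) (.leaf 0 4 0))) (.node 2299
 (.leaf 0 1 0) (.node 1769 (.leaf 0 1 0) (.leaf 0 4 0))))) (.node 13825 (.node 6916 (.node 2314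
 (.node 14 (.leaf 0 4 0) (.leaf 0 1 0)) (.leaf 0 1 0)) (.node 4359 (.node 1538 (.leaf 0 1 0)
 (.node 765 (.leaf 0 4 0) (.leaf 0 1 0))) (.leaf 0 4 0))) (.node 5917 (.node 2304 (.leaf 0 1 0)
 (.leaf 0 1 0)) (.node 2824 (.node 999 (.leaf 0 4 0) (.leaf 0 1 0)) (.node 481 (.leaf 0 4 0)
 (.leaf 0 1 0))))))) (.node 69530 (.node 34691 (.node 13859 (.node 6213 (.node 2308 (.leaf 0 1 0)
 (.node 1076 (.leaf 0 1 0) (.leaf 0 4 0))) (.node 3024 (.node 715 (.leaf 0 4 0) (.leaf 0 1 0))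
 (.leaf 0 1 0))) (.node 12179 (.node 6939 (.node 2312 (.node 844 (.leaf 0 1 0) (.leaf 0 4 0))
 (.node 1364 (.leaf 0 1 0) (.leaf 0 4 0))) (.node 2314 (.leaf 0 1 0) (.leaf 0 1 0))) (.node 2836
 (.node 1704 (.leaf 0 4 0) (.leaf 0 1 0)) (.node 1184 (.leaf 0 4 0) (.leaf 0 1 0))))) (.node 13919
 (.node 5536 (.node 2319 (.leaf 0 1 0) (.node 379 (.leaf 0 1 0) (.leaf 0 4 0))) (.node 3740 (.node
 1420 (.leaf 0 4 0) (.leaf 0 1 0)) (.leaf 0 1 0))) (.node 6969 (.node 2322 (.node 145 (.leaf 0 1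
 0) (.leaf 0 4 0)) (.node 667 (.leaf 0 1 0) (.leaf 0 4 0))) (.node 6975 (.node 2324 (.leaf 0 1 0)
 (.node 2234 (.leaf 0 1 0) (.leaf 0 4 0))) (.node 2327 (.node 433 (.leaf 0 1 0) (.leaf 0 4 0))
 (.leaf 0 1 0)))))) (.node 34991 (.node 20976 (.node 13417 (.node 4855 (.node 2002 (.leaf 0 1 0)
 (.node 326 (.leaf 0 4 0) (.leaf 0 1 0))) (.node 4462 (.node 2133 (.leaf 0 4 0) (.leaf 0 1 0))
 (.leaf 0 1 0))) (.node 2856 (.node 562 (.leaf 0 4 0) (.leaf 0 1 0)) (.node 38 (.leaf 0 4 0)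
 (.leaf 0 1 0)))) (.node 6730 (.node 2335 (.leaf 0 1 0) (.node 1537 (.leaf 0 1 0) (.leaf 0 4 0)))
 (.node 2610 (.node 274 (.leaf 0 4 0) (.leaf 0 1 0)) (.leaf 0 1 0)))) (.node 21066 (.node 12765
 (.node 7016 (.node 2338 (.node 1303 (.leaf 0 1 0) (.leaf 0 4 0)) (.node 1829 (.leaf 0 1 0) (.leaf
 0 4 0))) (.node 2340 (.leaf 0 1 0) (.leaf 0 1 0))) (.node 2868 (.node 1275 (.leaf 0 4 0) (.leaf 0
 1 0)) (.node 749 (.leaf 0 4 0) (.leaf 0 1 0)))) (.node 6049 (.node 2344 (.leaf 0 1 0) (.node 832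
 (.leaf 0 1 0) (.leaf 0 4 0))) (.node 3332 (.node 987 (.leaf 0 4 0) (.leaf 0 1 0)) (.leaf 0 1
 0))))))) (.node 127746 (.node 56536 (.node 26517 (.node 12107 (.node 7047 (.node 2348 (.node 596
 (.leaf 0 1 0) (.leaf 0 4 0)) (.node 1124 (.leaf 0 1 0) (.leaf 0 4 0))) (.node 2350 (.leaf 0 1 0)
 (.leaf 0 1 0))) (.node 9050 (.node 1992 (.leaf 0 4 0) (.node 2352 (.node 888 (.leaf 0 1 0) (.leaf
 0 4 0)) (.leaf 0 1 0))) (.node 2355 (.leaf 0 1 0) (.node 123 (.leaf 0 1 0) (.leaf 0 4 0)))))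
 (.node 15851 (.node 8658 (.node 4060 (.node 1704 (.leaf 0 4 0) (.leaf 0 1 0)) (.leaf 0 1 0))
 (.node 2475 (.node 117 (.leaf 0 4 0) (.leaf 0 1 0)) (.node 415 (.leaf 0 1 0) (.leaf 0 4 0))))
 (.node 7083 (.node 2360 (.leaf 0 1 0) (.node 2006 (.leaf 0 1 0) (.leaf 0 4 0))) (.node 2363
 (.node 177 (.leaf 0 1 0) (.leaf 0 4 0)) (.leaf 0 1 0))))) (.node 35531 (.node 21300 (.node 13361
 (.node 7095 (.node 4666 (.node 1770 (.leaf 0 1 0) (.node 594 (.leaf 0 4 0) (.leaf 0 1 0))) (.leaf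
 0 4 0)) (.node 2366 (.leaf 0 1 0) (.leaf 0 1 0))) (.node 2900 (.node 834 (.leaf 0 4 0) (.leaf 0 1
 0)) (.node 302 (.leaf 0 4 0) (.leaf 0 1 0)))) (.node 6570 (.node 2371 (.leaf 0 1 0) (.node 1297
 (.leaf 0 1 0) (.leaf 0 4 0))) (.node 2914 (.node 542 (.leaf 0 4 0) (.leaf 0 1 0)) (.leaf 0 1
 0)))) (.node 21390 (.node 12697 (.node 7124 (.node 2374 (.node 1059 (.leaf 0 1 0) (.leaf 0 4 0))
 (.node 1593 (.leaf 0 1 0) (.leaf 0 4 0))) (.node 2376 (.leaf 0 1 0) (.leaf 0 1 0))) (.node 2912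
 (.node 1559 (.leaf 0 4 0) (.leaf 0 1 0)) (.node 1025 (.leaf 0 4 0) (.leaf 0 1 0)))) (.node 5877
 (.node 2380 (.leaf 0 1 0) (.node 580 (.leaf 0 1 0) (.leaf 0 4 0))) (.node 3648 (.node 1267 (.leaf
 0 4 0) (.leaf 0 1 0)) (.leaf 0 1 0)))))) (.node 57400 (.node 26656 (.node 12026 (.node 7155
 (.node 2384 (.node 340 (.leaf 0 1 0) (.leaf 0 4 0)) (.node 876 (.leaf 0 1 0) (.leaf 0 4 0)))
 (.node 2386 (.leaf 0 1 0) (.leaf 0 1 0))) (.node 9455 (.node 2288 (.leaf 0 4 0) (.node 2388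
 (.node 636 (.leaf 0 1 0) (.leaf 0 4 0)) (.leaf 0 1 0))) (.node 2248 (.leaf 0 1 0) (.node 143
 (.leaf 0 4 0) (.leaf 0 1 0))))) (.node 16359 (.node 8790 (.node 4388 (.node 1996 (.leaf 0 4 0)
 (.leaf 0 1 0)) (.leaf 0 1 0)) (.node 2779 (.node 385 (.leaf 0 4 0) (.leaf 0 1 0)) (.node 155
 (.leaf 0 1 0) (.leaf 0 4 0)))) (.node 7103 (.node 2396 (.leaf 0 1 0) (.node 1770 (.leaf 0 1 0)
 (.leaf 0 4 0))) (.node 2486 (.node 89 (.leaf 0 4 0) (.leaf 0 1 0)) (.leaf 0 1 0))))) (.node 28027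
 (.node 13297 (.node 7203 (.node 4470 (.node 1530 (.leaf 0 1 0) (.node 870 (.leaf 0 4 0) (.leaf 0
 1 0))) (.leaf 0 4 0)) (.node 2402 (.leaf 0 1 0) (.leaf 0 1 0))) (.node 8328 (.node 2944 (.node
 1114 (.leaf 0 4 0) (.leaf 0 1 0)) (.node 574 (.leaf 0 4 0) (.leaf 0 1 0))) (.node 2407 (.leaf 0 1
 0) (.node 1049 (.leaf 0 1 0) (.leaf 0 4 0))))) (.node 15277 (.node 8044 (.node 3226 (.node 818
 (.leaf 0 4 0) (.leaf 0 1 0)) (.leaf 0 1 0)) (.node 2410 (.node 807 (.leaf 0 1 0) (.leaf 0 4 0))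
 (.node 1349 (.leaf 0 1 0) (.leaf 0 4 0)))) (.node 5389 (.node 2412 (.leaf 0 1 0) (.leaf 0 1 0))
 (.node 2956 (.node 1851 (.leaf 0 4 0) (.leaf 0 1 0)) (.node 1309 (.leaf 0 4 0) (.leaf 0 1
 0))))))))) (.node 227541 (.node 109380 (.node 50216 (.node 21768 (.node 14507 (.node 5697 (.node
 2416 (.leaf 0 1 0) (.node 320 (.leaf 0 1 0) (.leaf 0 4 0))) (.node 3972 (.node 1555 (.leaf 0 4 0)
 (.leaf 0 1 0)) (.leaf 0 1 0))) (.node 2420 (.node 76 (.leaf 0 1 0) (.leaf 0 4 0)) (.node 620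
 (.leaf 0 1 0) (.leaf 0 4 0)))) (.node 14542 (.node 7268 (.node 2423 (.leaf 0 1 0) (.node 2255
 (.leaf 0 1 0) (.leaf 0 4 0))) (.node 2424 (.node 376 (.leaf 0 1 0) (.leaf 0 4 0)) (.leaf 0 1 0)))
 (.node 4985 (.node 2012 (.leaf 0 1 0) (.node 415 (.leaf 0 4 0) (.leaf 0 1 0))) (.node 4724 (.node
 2296 (.leaf 0 4 0) (.leaf 0 1 0)) (.leaf 0 1 0))))) (.node 29864 (.node 14890 (.node 7953 (.node
 2976 (.node 661 (.leaf 0 4 0) (.leaf 0 1 0)) (.node 115 (.leaf 0 4 0) (.leaf 0 1 0))) (.node 2432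
 (.leaf 0 1 0) (.node 1526 (.leaf 0 1 0) (.leaf 0 4 0)))) (.node 7665 (.node 2794 (.node 361
 (.leaf 0 4 0) (.leaf 0 1 0)) (.leaf 0 1 0)) (.node 2436 (.node 1282 (.leaf 0 1 0) (.leaf 0 4 0))
 (.node 1830 (.leaf 0 1 0) (.leaf 0 4 0))))) (.node 14638 (.node 5915 (.node 2438 (.leaf 0 1 0)
 (.leaf 0 1 0)) (.node 2988 (.node 1402 (.leaf 0 4 0) (.leaf 0 1 0)) (.node 854 (.leaf 0 4 0)
 (.leaf 0 1 0)))) (.node 6226 (.node 2443 (.leaf 0 1 0) (.node 793 (.leaf 0 1 0) (.leaf 0 4 0)))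
 (.node 3546 (.node 1102 (.leaf 0 4 0) (.leaf 0 1 0)) (.leaf 0 1 0)))))) (.node 58888 (.node 27546
 (.node 12536 (.node 7340 (.node 2446 (.node 547 (.leaf 0 1 0) (.leaf 0 4 0)) (.node 1097 (.leaf 0
 1 0) (.leaf 0 4 0))) (.node 2448 (.leaf 0 1 0) (.leaf 0 1 0))) (.node 9503 (.node 2151 (.leaf 0 4
 0) (.node 2451 (.node 851 (.leaf 0 1 0) (.leaf 0 4 0)) (.leaf 0 1 0))) (.node 2452 (.leaf 0 1 0)
 (.node 52 (.leaf 0 1 0) (.leaf 0 4 0))))) (.node 16584 (.node 9019 (.node 4304 (.node 1851 (.leaf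
 0 4 0) (.leaf 0 1 0)) (.leaf 0 1 0)) (.node 2652 (.node 196 (.leaf 0 4 0) (.leaf 0 1 0)) (.node
 356 (.leaf 0 1 0) (.leaf 0 4 0)))) (.node 7376 (.node 2459 (.leaf 0 1 0) (.node 2015 (.leaf 0 1
 0) (.leaf 0 4 0))) (.node 2460 (.node 108 (.leaf 0 1 0) (.leaf 0 4 0)) (.leaf 0 1 0))))) (.node
 28948 (.node 13838 (.node 7388 (.node 4785 (.node 1768 (.leaf 0 1 0) (.node 695 (.leaf 0 4 0)
 (.leaf 0 1 0))) (.leaf 0 4 0)) (.node 2464 (.leaf 0 1 0) (.leaf 0 1 0))) (.node 8345 (.node 3020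
 (.node 945 (.leaf 0 4 0) (.leaf 0 1 0)) (.node 391 (.leaf 0 4 0) (.leaf 0 1 0))) (.node 2468
 (.leaf 0 1 0) (.node 1274 (.leaf 0 1 0) (.leaf 0 4 0))))) (.node 15470 (.node 8053 (.node 3110
 (.node 641 (.leaf 0 4 0) (.leaf 0 1 0)) (.leaf 0 1 0)) (.node 2472 (.node 1026 (.leaf 0 1 0)
 (.leaf 0 4 0)) (.node 1582 (.leaf 0 1 0) (.leaf 0 4 0)))) (.node 5727 (.node 2474 (.leaf 0 1 0)
 (.leaf 0 1 0)) (.node 3032 (.node 1698 (.leaf 0 4 0) (.leaf 0 1 0)) (.node 1142 (.leaf 0 4 0)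
 (.leaf 0 1 0)))))))) (.node 112170 (.node 51702 (.node 22327 (.node 14878 (.node 6042 (.node 2479
 (.leaf 0 1 0) (.node 529 (.leaf 0 1 0) (.leaf 0 4 0))) (.node 3874 (.node 1394 (.leaf 0 4 0)
 (.leaf 0 1 0)) (.leaf 0 1 0))) (.node 2482 (.node 279 (.leaf 0 1 0) (.leaf 0 4 0)) (.node 837
 (.leaf 0 1 0) (.leaf 0 4 0)))) (.node 14914 (.node 4997 (.node 2484 (.leaf 0 1 0) (.leaf 0 1 0))
 (.node 2459 (.leaf 0 4 0) (.node 2487 (.node 587 (.leaf 0 1 0) (.leaf 0 4 0)) (.leaf 0 1 0))))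
 (.node 5313 (.node 2264 (.leaf 0 1 0) (.node 224 (.leaf 0 4 0) (.leaf 0 1 0))) (.node 4644 (.node
 2155 (.leaf 0 4 0) (.leaf 0 1 0)) (.leaf 0 1 0))))) (.node 30425 (.node 15270 (.node 7954 (.node
 2968 (.node 476 (.leaf 0 4 0) (.leaf 0 1 0)) (.node 84 (.leaf 0 1 0) (.leaf 0 4 0))) (.node 2495
 (.leaf 0 1 0) (.node 1767 (.leaf 0 1 0) (.leaf 0 4 0)))) (.node 7658 (.node 2664 (.node 168
 (.leaf 0 4 0) (.leaf 0 1 0)) (.leaf 0 1 0)) (.node 4577 (.node 1516 (.leaf 0 1 0) (.node 983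
 (.leaf 0 4 0) (.leaf 0 1 0))) (.leaf 0 4 0)))) (.node 15010 (.node 6267 (.node 2500 (.leaf 0 1 0)
 (.leaf 0 1 0)) (.node 3064 (.node 1237 (.leaf 0 4 0) (.leaf 0 1 0)) (.node 675 (.leaf 0 4 0)
 (.leaf 0 1 0)))) (.node 6587 (.node 2504 (.leaf 0 1 0) (.node 1014 (.leaf 0 1 0) (.leaf 0 4 0)))
 (.node 3434 (.node 929 (.leaf 0 4 0) (.leaf 0 1 0)) (.leaf 0 1 0)))))) (.node 60376 (.node 28447
 (.node 13057 (.node 7527 (.node 2508 (.node 762 (.leaf 0 1 0) (.leaf 0 4 0)) (.node 1326 (.leaf 0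
 1 0) (.leaf 0 4 0))) (.node 2510 (.leaf 0 1 0) (.leaf 0 1 0))) (.node 9540 (.node 3076 (.node
 2002 (.leaf 0 4 0) (.leaf 0 1 0)) (.node 1438 (.leaf 0 4 0) (.leaf 0 1 0))) (.node 2515 (.leaf 0
 1 0) (.node 257 (.leaf 0 1 0) (.leaf 0 4 0))))) (.node 16801 (.node 9244 (.node 4210 (.node 1694
 (.leaf 0 4 0) (.leaf 0 1 0)) (.leaf 0 1 0)) (.node 2518 (.node 3 (.leaf 0 1 0) (.leaf 0 4 0))
 (.node 569 (.leaf 0 1 0) (.leaf 0 4 0)))) (.node 7563 (.node 2520 (.leaf 0 1 0) (.node 2268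
 (.leaf 0 1 0) (.leaf 0 4 0))) (.node 2523 (.node 315 (.leaf 0 1 0) (.leaf 0 4 0)) (.leaf 0 1
 0))))) (.node 29881 (.node 14391 (.node 5109 (.node 2016 (.leaf 0 1 0) (.node 508 (.leaf 0 4 0)
 (.leaf 0 1 0))) (.node 4992 (.node 2467 (.leaf 0 4 0) (.leaf 0 1 0)) (.leaf 0 1 0))) (.node 8350
 (.node 3096 (.node 764 (.leaf 0 4 0) (.leaf 0 1 0)) (.node 196 (.leaf 0 4 0) (.leaf 0 1 0)))
 (.node 2531 (.leaf 0 1 0) (.node 1511 (.leaf 0 1 0) (.leaf 0 4 0))))) (.node 15655 (.node 8050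
 (.node 2984 (.node 452 (.leaf 0 4 0) (.leaf 0 1 0)) (.leaf 0 1 0)) (.node 2534 (.node 1257 (.leaf
 0 1 0) (.leaf 0 4 0)) (.node 1827 (.leaf 0 1 0) (.leaf 0 4 0)))) (.node 6075 (.node 2536 (.leaf 0
 1 0) (.leaf 0 1 0)) (.node 3108 (.node 1537 (.leaf 0 4 0) (.leaf 0 1 0)) (.node 967 (.leaf 0 4 0)
 (.leaf 0 1 0)))))))))) (.node 444030 (.node 239072 (.node 114960 (.node 61144 (.node 28211 (.node
 15250 (.node 6399 (.node 2540 (.leaf 0 1 0) (.node 746 (.leaf 0 1 0) (.leaf 0 4 0))) (.node 3766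
 (.node 1225 (.leaf 0 4 0) (.leaf 0 1 0)) (.leaf 0 1 0))) (.node 7635 (.node 2544 (.node 490
 (.leaf 0 1 0) (.leaf 0 4 0)) (.node 1062 (.leaf 0 1 0) (.leaf 0 4 0))) (.node 2546 (.leaf 0 1 0)
 (.leaf 0 1 0)))) (.node 15611 (.node 9961 (.node 2314 (.leaf 0 4 0) (.node 2548 (.node 806 (.leaf
 0 1 0) (.leaf 0 4 0)) (.leaf 0 1 0))) (.node 2526 (.leaf 0 1 0) (.node 25 (.leaf 0 4 0) (.leaf 0
 1 0)))) (.node 9378 (.node 4554 (.node 2002 (.leaf 0 4 0) (.leaf 0 1 0)) (.leaf 0 1 0)) (.node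
 2837 (.node 283 (.leaf 0 4 0) (.leaf 0 1 0)) (.node 293 (.leaf 0 1 0) (.leaf 0 4 0)))))) (.node
 29657 (.node 15346 (.node 7671 (.node 2556 (.leaf 0 1 0) (.node 2016 (.leaf 0 1 0) (.leaf 0 4
 0))) (.node 2559 (.node 35 (.leaf 0 1 0) (.leaf 0 4 0)) (.leaf 0 1 0))) (.node 7683 (.node 4896
 (.node 1760 (.leaf 0 1 0) (.node 800 (.leaf 0 4 0) (.leaf 0 1 0))) (.leaf 0 4 0)) (.node 2562
 (.leaf 0 1 0) (.leaf 0 1 0)))) (.node 8754 (.node 3140 (.node 1060 (.leaf 0 4 0) (.leaf 0 1 0))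
 (.node 484 (.leaf 0 4 0) (.leaf 0 1 0))) (.node 6956 (.node 2567 (.leaf 0 1 0) (.node 1247 (.leaf
 0 1 0) (.leaf 0 4 0))) (.node 3312 (.node 744 (.leaf 0 4 0) (.leaf 0 1 0)) (.leaf 0 1 0))))))
 (.node 61864 (.node 29356 (.node 13586 (.node 7712 (.node 2570 (.node 989 (.leaf 0 1 0) (.leaf 0
 4 0)) (.node 1567 (.leaf 0 1 0) (.leaf 0 4 0))) (.node 2572 (.leaf 0 1 0) (.leaf 0 1 0))) (.node
 9569 (.node 3152 (.node 1845 (.leaf 0 4 0) (.leaf 0 1 0)) (.node 1267 (.leaf 0 4 0) (.leaf 0 1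
 0))) (.node 2576 (.leaf 0 1 0) (.node 470 (.leaf 0 1 0) (.leaf 0 4 0))))) (.node 17006 (.node
 9265 (.node 4106 (.node 1529 (.leaf 0 4 0) (.leaf 0 1 0)) (.leaf 0 1 0)) (.node 2580 (.node 210
 (.leaf 0 1 0) (.leaf 0 4 0)) (.node 790 (.leaf 0 1 0) (.leaf 0 4 0)))) (.node 7748 (.node 2583
 (.leaf 0 1 0) (.node 2533 (.leaf 0 1 0) (.leaf 0 4 0))) (.node 2584 (.node 530 (.leaf 0 1 0)
 (.leaf 0 4 0)) (.leaf 0 1 0))))) (.node 30822 (.node 14952 (.node 5443 (.node 2274 (.leaf 0 1 0)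
 (.node 313 (.leaf 0 4 0) (.leaf 0 1 0))) (.node 4906 (.node 2318 (.leaf 0 4 0) (.leaf 0 1 0))
 (.leaf 0 1 0))) (.node 8346 (.node 3165 (.node 575 (.leaf 0 4 0) (.leaf 0 1 0)) (.node 9 (.leaf 0
 1 0) (.leaf 0 4 0))) (.node 2592 (.leaf 0 1 0) (.node 1756 (.leaf 0 1 0) (.leaf 0 4 0))))) (.node
 15828 (.node 8039 (.node 2848 (.node 255 (.leaf 0 4 0) (.leaf 0 1 0)) (.leaf 0 1 0)) (.node 2596
 (.node 1496 (.leaf 0 1 0) (.leaf 0 4 0)) (.node 2080 (.leaf 0 1 0) (.leaf 0 4 0)))) (.node 6433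
 (.node 2598 (.leaf 0 1 0) (.leaf 0 1 0)) (.node 3184 (.node 1364 (.leaf 0 4 0) (.leaf 0 1 0))
 (.node 780 (.leaf 0 4 0) (.leaf 0 1 0)))))))) (.node 101973 (.node 54704 (.node 23443 (.node
 15622 (.node 6764 (.node 2603 (.leaf 0 1 0) (.node 975 (.leaf 0 1 0) (.leaf 0 4 0))) (.node 3648
 (.node 1044 (.leaf 0 4 0) (.leaf 0 1 0)) (.leaf 0 1 0))) (.node 2606 (.node 713 (.leaf 0 1 0)
 (.leaf 0 4 0)) (.node 1299 (.leaf 0 1 0) (.leaf 0 4 0)))) (.node 15658 (.node 5667 (.node 2608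
 (.leaf 0 1 0) (.leaf 0 1 0)) (.node 2161 (.leaf 0 4 0) (.node 2611 (.node 1037 (.leaf 0 1 0)
 (.leaf 0 4 0)) (.leaf 0 1 0)))) (.node 5999 (.node 2612 (.leaf 0 1 0) (.node 186 (.leaf 0 1 0)
 (.leaf 0 4 0))) (.node 4454 (.node 1841 (.leaf 0 4 0) (.leaf 0 1 0)) (.leaf 0 1 0))))) (.node
 23647 (.node 7928 (.node 2694 (.node 78 (.leaf 0 4 0) (.leaf 0 1 0)) (.node 510 (.leaf 0 1 0)
 (.leaf 0 4 0))) (.node 7856 (.node 2619 (.leaf 0 1 0) (.node 2277 (.leaf 0 1 0) (.leaf 0 4 0)))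
 (.node 2620 (.node 246 (.leaf 0 1 0) (.leaf 0 4 0)) (.leaf 0 1 0)))) (.node 14869 (.node 7868
 (.node 5227 (.node 2014 (.leaf 0 1 0) (.node 609 (.leaf 0 4 0) (.leaf 0 1 0))) (.leaf 0 4 0))
 (.node 2624 (.leaf 0 1 0) (.leaf 0 1 0))) (.node 3216 (.node 875 (.leaf 0 4 0) (.leaf 0 1 0))
 (.node 285 (.leaf 0 4 0) (.leaf 0 1 0)))))) (.node 55328 (.node 29905 (.node 15778 (.node 7337
 (.node 2628 (.leaf 0 1 0) (.node 1488 (.leaf 0 1 0) (.leaf 0 4 0))) (.node 3180 (.node 551 (.leaf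
 0 4 0) (.leaf 0 1 0)) (.leaf 0 1 0))) (.node 7899 (.node 2632 (.node 1224 (.leaf 0 1 0) (.leaf 0
 4 0)) (.node 1816 (.leaf 0 1 0) (.leaf 0 4 0))) (.node 2634 (.leaf 0 1 0) (.leaf 0 1 0)))) (.node
 9586 (.node 3228 (.node 1676 (.leaf 0 4 0) (.leaf 0 1 0)) (.node 1084 (.leaf 0 4 0) (.leaf 0 1
 0))) (.node 6564 (.node 2639 (.leaf 0 1 0) (.node 695 (.leaf 0 1 0) (.leaf 0 4 0))) (.node 3992
 (.node 1352 (.leaf 0 4 0) (.leaf 0 1 0)) (.leaf 0 1 0))))) (.node 23803 (.node 13379 (.node 7928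
 (.node 2642 (.node 429 (.leaf 0 1 0) (.leaf 0 4 0)) (.node 1023 (.leaf 0 1 0) (.leaf 0 4 0)))
 (.node 2644 (.leaf 0 1 0) (.leaf 0 1 0))) (.node 2485 (.leaf 0 4 0) (.node 2647 (.node 757 (.leaf
 0 1 0) (.leaf 0 4 0)) (.leaf 0 1 0)))) (.node 15525 (.node 5787 (.node 2542 (.leaf 0 1 0) (.node
 106 (.leaf 0 4 0) (.leaf 0 1 0))) (.node 4810 (.node 2161 (.leaf 0 4 0) (.leaf 0 1 0)) (.leaf 0 1
 0))) (.node 3026 (.node 374 (.leaf 0 4 0) (.leaf 0 1 0)) (.node 222 (.leaf 0 1 0) (.leaf 0 4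
 0)))))))) (.node 241366 (.node 120091 (.node 55874 (.node 30711 (.node 15934 (.node 7918 (.node
 2655 (.leaf 0 1 0) (.node 2013 (.leaf 0 1 0) (.leaf 0 4 0))) (.node 2702 (.node 46 (.leaf 0 4 0)
 (.leaf 0 1 0)) (.leaf 0 1 0))) (.node 7976 (.node 5003 (.node 1746 (.leaf 0 1 0) (.node 913
 (.leaf 0 4 0) (.leaf 0 1 0))) (.leaf 0 4 0)) (.node 2660 (.leaf 0 1 0) (.leaf 0 1 0)))) (.node
 9170 (.node 3260 (.node 1183 (.leaf 0 4 0) (.leaf 0 1 0)) (.node 585 (.leaf 0 4 0) (.leaf 0 1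
 0))) (.node 7141 (.node 2664 (.leaf 0 1 0) (.node 1212 (.leaf 0 1 0) (.leaf 0 4 0))) (.node 3520
 (.node 855 (.leaf 0 4 0) (.leaf 0 1 0)) (.leaf 0 1 0))))) (.node 30393 (.node 14023 (.node 8007
 (.node 2668 (.node 944 (.leaf 0 1 0) (.leaf 0 4 0)) (.node 1544 (.leaf 0 1 0) (.leaf 0 4 0)))
 (.node 2670 (.leaf 0 1 0) (.leaf 0 1 0))) (.node 10014 (.node 3272 (.node 1996 (.leaf 0 4 0)
 (.leaf 0 1 0)) (.node 1396 (.leaf 0 4 0) (.leaf 0 1 0))) (.node 2675 (.leaf 0 1 0) (.node 407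
 (.leaf 0 1 0) (.leaf 0 4 0))))) (.node 17735 (.node 9698 (.node 4344 (.node 1668 (.leaf 0 4 0)
 (.leaf 0 1 0)) (.leaf 0 1 0)) (.node 2678 (.node 137 (.leaf 0 1 0) (.leaf 0 4 0)) (.node 739
 (.leaf 0 1 0) (.leaf 0 4 0)))) (.node 8043 (.node 2680 (.leaf 0 1 0) (.node 2546 (.leaf 0 1 0)
 (.leaf 0 4 0))) (.node 2683 (.node 469 (.leaf 0 1 0) (.leaf 0 4 0)) (.leaf 0 1 0)))))) (.node
 64601 (.node 31907 (.node 15437 (.node 5567 (.node 2278 (.leaf 0 1 0) (.node 406 (.leaf 0 4 0)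
 (.leaf 0 1 0))) (.node 5174 (.node 2489 (.leaf 0 4 0) (.leaf 0 1 0)) (.leaf 0 1 0))) (.node 8744
 (.node 3292 (.node 678 (.leaf 0 4 0) (.leaf 0 1 0)) (.node 74 (.leaf 0 4 0) (.leaf 0 1 0)))
 (.node 2691 (.leaf 0 1 0) (.node 1741 (.leaf 0 1 0) (.leaf 0 4 0))))) (.node 16509 (.node 8424
 (.node 3038 (.node 346 (.leaf 0 4 0) (.leaf 0 1 0)) (.leaf 0 1 0)) (.node 2694 (.node 1471 (.leaf
 0 1 0) (.leaf 0 4 0)) (.node 2077 (.leaf 0 1 0) (.leaf 0 4 0)))) (.node 6593 (.node 2696 (.leaf 0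
 1 0) (.leaf 0 1 0)) (.node 3304 (.node 1499 (.leaf 0 4 0) (.leaf 0 1 0)) (.node 893 (.leaf 0 4 0)
 (.leaf 0 1 0)))))) (.node 24324 (.node 16211 (.node 6937 (.node 2700 (.leaf 0 1 0) (.node 928
 (.leaf 0 1 0) (.leaf 0 4 0))) (.node 3868 (.node 1167 (.leaf 0 4 0) (.leaf 0 1 0)) (.leaf 0 1
 0))) (.node 2704 (.node 656 (.leaf 0 1 0) (.leaf 0 4 0)) (.node 1264 (.leaf 0 1 0) (.leaf 0 4
 0)))) (.node 16246 (.node 5797 (.node 2706 (.leaf 0 1 0) (.leaf 0 1 0)) (.node 2324 (.leaf 0 4 0)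
 (.node 2708 (.node 992 (.leaf 0 1 0) (.leaf 0 4 0)) (.leaf 0 1 0)))) (.node 6140 (.node 2711
 (.leaf 0 1 0) (.node 111 (.leaf 0 1 0) (.leaf 0 4 0))) (.node 4704 (.node 1992 (.leaf 0 4 0)
 (.leaf 0 1 0)) (.leaf 0 1 0))))))) (.node 106505 (.node 49119 (.node 24615 (.node 8309 (.node
 2879 (.node 165 (.leaf 0 4 0) (.leaf 0 1 0)) (.node 447 (.leaf 0 1 0) (.leaf 0 4 0))) (.node 8151
 (.node 2716 (.leaf 0 1 0) (.node 2278 (.leaf 0 1 0) (.leaf 0 4 0))) (.node 2719 (.node 173 (.leaf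
 0 1 0) (.leaf 0 4 0)) (.leaf 0 1 0)))) (.node 15341 (.node 8163 (.node 5338 (.node 2006 (.leaf 0
 1 0) (.node 714 (.leaf 0 4 0) (.leaf 0 1 0))) (.leaf 0 4 0)) (.node 2722 (.leaf 0 1 0) (.leaf 0 1
 0))) (.node 3336 (.node 990 (.leaf 0 4 0) (.leaf 0 1 0)) (.node 378 (.leaf 0 4 0) (.leaf 0 1
 0))))) (.node 24559 (.node 16366 (.node 7526 (.node 2727 (.leaf 0 1 0) (.node 1461 (.leaf 0 1 0)
 (.leaf 0 4 0))) (.node 3382 (.node 654 (.leaf 0 4 0) (.leaf 0 1 0)) (.leaf 0 1 0))) (.node 2730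
 (.node 1187 (.leaf 0 1 0) (.leaf 0 4 0)) (.node 1801 (.leaf 0 1 0) (.leaf 0 4 0)))) (.node 16402
 (.node 6377 (.node 2732 (.leaf 0 1 0) (.leaf 0 1 0)) (.node 3348 (.node 1823 (.leaf 0 4 0) (.leaf
 0 1 0)) (.node 1209 (.leaf 0 4 0) (.leaf 0 1 0)))) (.node 6725 (.node 2736 (.leaf 0 1 0) (.node
 636 (.leaf 0 1 0) (.leaf 0 4 0))) (.node 4224 (.node 1487 (.leaf 0 4 0) (.leaf 0 1 0)) (.leaf 0 1
 0)))))) (.node 49422 (.node 24684 (.node 13791 (.node 8223 (.node 2740 (.node 360 (.leaf 0 1 0)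
 (.leaf 0 4 0)) (.node 976 (.leaf 0 1 0) (.leaf 0 4 0))) (.node 2742 (.leaf 0 1 0) (.leaf 0 1 0)))
 (.node 2660 (.leaf 0 4 0) (.node 2744 (.node 700 (.leaf 0 1 0) (.leaf 0 4 0)) (.leaf 0 1 0))))
 (.node 16014 (.node 5917 (.node 2552 (.leaf 0 1 0) (.node 195 (.leaf 0 4 0) (.leaf 0 1 0)))
 (.node 5072 (.node 2324 (.leaf 0 4 0) (.leaf 0 1 0)) (.leaf 0 1 0))) (.node 3223 (.node 473
 (.leaf 0 4 0) (.leaf 0 1 0)) (.node 147 (.leaf 0 1 0) (.leaf 0 4 0))))) (.node 31759 (.node 16522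
 (.node 8127 (.node 2752 (.leaf 0 1 0) (.node 2002 (.leaf 0 1 0) (.leaf 0 4 0))) (.node 2886
 (.node 133 (.leaf 0 4 0) (.leaf 0 1 0)) (.leaf 0 1 0))) (.node 8271 (.node 5102 (.node 1726
 (.leaf 0 1 0) (.node 1030 (.leaf 0 4 0) (.leaf 0 1 0))) (.leaf 0 4 0)) (.node 2758 (.leaf 0 1 0)
 (.leaf 0 1 0)))) (.node 9592 (.node 3380 (.node 1310 (.leaf 0 4 0) (.leaf 0 1 0)) (.node 690
 (.leaf 0 4 0) (.leaf 0 1 0))) (.node 7318 (.node 2763 (.leaf 0 1 0) (.node 1173 (.leaf 0 1 0)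
 (.leaf 0 4 0))) (.node 3734 (.node 970 (.leaf 0 4 0) (.leaf 0 1 0)) (.leaf 0 1 0)))))))))) (.node
 913190 (.node 456756 (.node 217750 (.node 108369 (.node 49891 (.node 24919 (.node 14453 (.node
 8300 (.node 2766 (.node 895 (.leaf 0 1 0) (.leaf 0 4 0)) (.node 1517 (.leaf 0 1 0) (.leaf 0 4
 0))) (.node 2768 (.leaf 0 1 0) (.leaf 0 1 0))) (.node 3392 (.node 2155 (.leaf 0 4 0) (.leaf 0 1
 0)) (.node 1533 (.leaf 0 4 0) (.leaf 0 1 0)))) (.node 16643 (.node 6505 (.node 2772 (.leaf 0 1 0)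
 (.node 336 (.leaf 0 1 0) (.leaf 0 4 0))) (.node 4588 (.node 1815 (.leaf 0 4 0) (.leaf 0 1 0))
 (.leaf 0 1 0))) (.node 2776 (.node 56 (.leaf 0 1 0) (.leaf 0 4 0)) (.node 680 (.leaf 0 1 0)
 (.leaf 0 4 0))))) (.node 32593 (.node 16678 (.node 8336 (.node 2779 (.leaf 0 1 0) (.node 2555
 (.leaf 0 1 0) (.leaf 0 4 0))) (.node 2780 (.node 400 (.leaf 0 1 0) (.leaf 0 4 0)) (.leaf 0 1 0)))
 (.node 5685 (.node 2276 (.leaf 0 1 0) (.node 507 (.leaf 0 4 0) (.leaf 0 1 0))) (.node 5448 (.node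
 2664 (.leaf 0 4 0) (.leaf 0 1 0)) (.leaf 0 1 0)))) (.node 9148 (.node 3412 (.node 789 (.leaf 0 4
 0) (.leaf 0 1 0)) (.node 163 (.leaf 0 4 0) (.leaf 0 1 0))) (.node 7923 (.node 2788 (.leaf 0 1 0)
 (.node 1718 (.leaf 0 1 0) (.leaf 0 4 0))) (.node 3234 (.node 445 (.leaf 0 4 0) (.leaf 0 1 0))
 (.leaf 0 1 0)))))) (.node 50358 (.node 25152 (.node 15125 (.node 8379 (.node 2792 (.node 1438
 (.leaf 0 1 0) (.leaf 0 4 0)) (.node 2066 (.leaf 0 1 0) (.leaf 0 4 0))) (.node 2794 (.leaf 0 1 0)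
 (.leaf 0 1 0))) (.node 3424 (.node 1638 (.leaf 0 4 0) (.leaf 0 1 0)) (.node 1010 (.leaf 0 4 0)
 (.leaf 0 1 0)))) (.node 16798 (.node 7102 (.node 2799 (.leaf 0 1 0) (.node 877 (.leaf 0 1 0)
 (.leaf 0 4 0))) (.node 4094 (.node 1294 (.leaf 0 4 0) (.leaf 0 1 0)) (.leaf 0 1 0))) (.node 2802
 (.node 595 (.leaf 0 1 0) (.leaf 0 4 0)) (.node 1225 (.leaf 0 1 0) (.leaf 0 4 0))))) (.node 33437
 (.node 16834 (.node 5921 (.node 2804 (.leaf 0 1 0) (.leaf 0 1 0)) (.node 2495 (.leaf 0 4 0)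
 (.node 2807 (.node 943 (.leaf 0 1 0) (.leaf 0 4 0)) (.leaf 0 1 0)))) (.node 6277 (.node 2808
 (.leaf 0 1 0) (.node 28 (.leaf 0 1 0) (.leaf 0 4 0))) (.node 4960 (.node 2151 (.leaf 0 4 0)
 (.leaf 0 1 0)) (.leaf 0 1 0)))) (.node 8694 (.node 3068 (.node 256 (.leaf 0 4 0) (.leaf 0 1 0))
 (.node 376 (.leaf 0 1 0) (.leaf 0 4 0))) (.node 8444 (.node 2815 (.leaf 0 1 0) (.node 2275 (.leaf
 0 1 0) (.leaf 0 4 0))) (.node 2816 (.node 92 (.leaf 0 1 0) (.leaf 0 4 0)) (.leaf 0 1 0)))))))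
 (.node 126895 (.node 67817 (.node 33096 (.node 15806 (.node 8456 (.node 5445 (.node 1992 (.leaf 0
 1 0) (.node 827 (.leaf 0 4 0) (.leaf 0 1 0))) (.leaf 0 4 0)) (.node 2820 (.leaf 0 1 0) (.leaf 0 1
 0))) (.node 9581 (.node 3456 (.node 1113 (.leaf 0 4 0) (.leaf 0 1 0)) (.node 479 (.leaf 0 4 0)
 (.leaf 0 1 0))) (.node 2824 (.leaf 0 1 0) (.node 1426 (.leaf 0 1 0) (.leaf 0 4 0))))) (.node
 17730 (.node 9245 (.node 3590 (.node 765 (.leaf 0 4 0) (.leaf 0 1 0)) (.leaf 0 1 0)) (.node 2828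
 (.node 1142 (.leaf 0 1 0) (.leaf 0 4 0)) (.node 1778 (.leaf 0 1 0) (.leaf 0 4 0)))) (.node 6519
 (.node 2830 (.leaf 0 1 0) (.leaf 0 1 0)) (.node 3468 (.node 1974 (.leaf 0 4 0) (.leaf 0 1 0))
 (.node 1338 (.leaf 0 4 0) (.leaf 0 1 0)))))) (.node 25531 (.node 17014 (.node 6878 (.node 2835
 (.leaf 0 1 0) (.node 573 (.leaf 0 1 0) (.leaf 0 4 0))) (.node 4462 (.node 1626 (.leaf 0 4 0)
 (.leaf 0 1 0)) (.leaf 0 1 0))) (.node 2838 (.node 287 (.leaf 0 1 0) (.leaf 0 4 0)) (.node 925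
 (.leaf 0 1 0) (.leaf 0 4 0)))) (.node 17050 (.node 8523 (.node 2840 (.leaf 0 1 0) (.node 2840
 (.leaf 0 1 0) (.leaf 0 4 0))) (.node 2843 (.node 639 (.leaf 0 1 0) (.leaf 0 4 0)) (.leaf 0 1 0)))
 (.node 6041 (.node 2556 (.leaf 0 1 0) (.node 288 (.leaf 0 4 0) (.leaf 0 1 0))) (.node 5340 (.node
 2495 (.leaf 0 4 0) (.leaf 0 1 0)) (.leaf 0 1 0)))))) (.node 51943 (.node 26233 (.node 9122 (.node
 3424 (.node 576 (.leaf 0 4 0) (.leaf 0 1 0)) (.node 64 (.leaf 0 1 0) (.leaf 0 4 0))) (.node 8328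
 (.node 2851 (.leaf 0 1 0) (.node 1987 (.leaf 0 1 0) (.leaf 0 4 0))) (.node 3076 (.node 224 (.leaf
 0 4 0) (.leaf 0 1 0)) (.leaf 0 1 0)))) (.node 15691 (.node 8564 (.node 5197 (.node 1700 (.leaf 0
 1 0) (.node 1155 (.leaf 0 4 0) (.leaf 0 1 0))) (.leaf 0 4 0)) (.node 2856 (.leaf 0 1 0) (.leaf 0
 1 0))) (.node 3500 (.node 1445 (.leaf 0 4 0) (.leaf 0 1 0)) (.node 803 (.leaf 0 4 0) (.leaf 0 1
 0))))) (.node 25764 (.node 17171 (.node 7491 (.node 2860 (.leaf 0 1 0) (.node 1126 (.leaf 0 1 0)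
 (.leaf 0 4 0))) (.node 3954 (.node 1093 (.leaf 0 4 0) (.leaf 0 1 0)) (.leaf 0 1 0))) (.node 2864
 (.node 838 (.leaf 0 1 0) (.leaf 0 4 0)) (.node 1482 (.leaf 0 1 0) (.leaf 0 4 0)))) (.node 17206
 (.node 6283 (.node 2866 (.leaf 0 1 0) (.leaf 0 1 0)) (.node 3512 (.node 2318 (.leaf 0 4 0) (.leaf
 0 1 0)) (.node 1674 (.leaf 0 4 0) (.leaf 0 1 0)))) (.node 6646 (.node 2871 (.leaf 0 1 0) (.node
 261 (.leaf 0 1 0) (.leaf 0 4 0))) (.node 4838 (.node 1966 (.leaf 0 4 0) (.leaf 0 1 0)) (.leaf 0 1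
 0)))))))) (.node 226204 (.node 112611 (.node 51865 (.node 25921 (.node 8655 (.node 2905 (.node 31
 (.leaf 0 4 0) (.leaf 0 1 0)) (.node 617 (.leaf 0 1 0) (.leaf 0 4 0))) (.node 8631 (.node 2876
 (.leaf 0 1 0) (.node 2556 (.leaf 0 1 0) (.leaf 0 4 0))) (.node 2879 (.node 327 (.leaf 0 1 0)
 (.leaf 0 4 0)) (.leaf 0 1 0)))) (.node 16387 (.node 5797 (.node 2268 (.leaf 0 1 0) (.node 612
 (.leaf 0 4 0) (.leaf 0 1 0))) (.node 5728 (.node 2847 (.leaf 0 4 0) (.leaf 0 1 0)) (.leaf 0 1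
 0))) (.node 3532 (.node 904 (.leaf 0 4 0) (.leaf 0 1 0)) (.node 256 (.leaf 0 4 0) (.leaf 0 1
 0))))) (.node 32893 (.node 17326 (.node 8112 (.node 2887 (.leaf 0 1 0) (.node 1691 (.leaf 0 1 0)
 (.leaf 0 4 0))) (.node 3436 (.node 548 (.leaf 0 4 0) (.leaf 0 1 0)) (.leaf 0 1 0))) (.node 8672
 (.node 2890 (.node 1401 (.leaf 0 1 0) (.leaf 0 4 0)) (.node 2051 (.leaf 0 1 0) (.leaf 0 4 0)))
 (.node 2892 (.leaf 0 1 0) (.leaf 0 1 0)))) (.node 10468 (.node 3544 (.node 1785 (.leaf 0 4 0)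
 (.leaf 0 1 0)) (.node 1135 (.leaf 0 4 0) (.leaf 0 1 0))) (.node 7263 (.node 2896 (.leaf 0 1 0)
 (.node 818 (.leaf 0 1 0) (.leaf 0 4 0))) (.node 4326 (.node 1429 (.leaf 0 4 0) (.leaf 0 1 0))
 (.leaf 0 1 0)))))) (.node 52302 (.node 26124 (.node 14741 (.node 8703 (.node 2900 (.node 526
 (.leaf 0 1 0) (.leaf 0 4 0)) (.node 1178 (.leaf 0 1 0) (.leaf 0 4 0))) (.node 2902 (.leaf 0 1 0)
 (.leaf 0 1 0))) (.node 2670 (.leaf 0 4 0) (.node 2904 (.node 886 (.leaf 0 1 0) (.leaf 0 4 0))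
 (.leaf 0 1 0)))) (.node 17092 (.node 6407 (.node 2846 (.leaf 0 1 0) (.node 61 (.leaf 0 4 0)
 (.leaf 0 1 0))) (.node 5222 (.node 2314 (.leaf 0 4 0) (.leaf 0 1 0)) (.leaf 0 1 0))) (.node 3265
 (.node 355 (.leaf 0 4 0) (.leaf 0 1 0)) (.node 301 (.leaf 0 1 0) (.leaf 0 4 0))))) (.node 33749
 (.node 17482 (.node 8739 (.node 2912 (.leaf 0 1 0) (.node 2264 (.leaf 0 1 0) (.leaf 0 4 0)))
 (.node 2915 (.node 7 (.leaf 0 1 0) (.leaf 0 4 0)) (.leaf 0 1 0))) (.node 8751 (.node 5544 (.node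
 1972 (.leaf 0 1 0) (.node 944 (.leaf 0 4 0) (.leaf 0 1 0))) (.leaf 0 4 0)) (.node 2918 (.leaf 0 1
 0) (.leaf 0 1 0)))) (.node 10002 (.node 3576 (.node 1240 (.leaf 0 4 0) (.leaf 0 1 0)) (.node 584
 (.leaf 0 4 0) (.leaf 0 1 0))) (.node 7888 (.node 2923 (.leaf 0 1 0) (.node 1387 (.leaf 0 1 0)
 (.leaf 0 4 0))) (.node 3804 (.node 880 (.leaf 0 4 0) (.leaf 0 1 0)) (.leaf 0 1 0))))))) (.node
 114609 (.node 52771 (.node 26359 (.node 15435 (.node 8780 (.node 2926 (.node 1093 (.leaf 0 1 0)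
 (.leaf 0 4 0)) (.node 1751 (.leaf 0 1 0) (.leaf 0 4 0))) (.node 2928 (.leaf 0 1 0) (.leaf 0 1
 0))) (.node 3588 (.node 2133 (.leaf 0 4 0) (.leaf 0 1 0)) (.node 1475 (.leaf 0 4 0) (.leaf 0 1
 0)))) (.node 17603 (.node 7027 (.node 2932 (.leaf 0 1 0) (.node 502 (.leaf 0 1 0) (.leaf 0 4 0)))
 (.node 4706 (.node 1773 (.leaf 0 4 0) (.leaf 0 1 0)) (.leaf 0 1 0))) (.node 2936 (.node 206
 (.leaf 0 1 0) (.leaf 0 4 0)) (.node 866 (.leaf 0 1 0) (.leaf 0 4 0))))) (.node 34615 (.node 17638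
 (.node 8816 (.node 2939 (.leaf 0 1 0) (.node 2849 (.leaf 0 1 0) (.leaf 0 4 0))) (.node 2940
 (.node 570 (.leaf 0 1 0) (.leaf 0 4 0)) (.leaf 0 1 0))) (.node 6159 (.node 2554 (.leaf 0 1 0)
 (.node 389 (.leaf 0 4 0) (.leaf 0 1 0))) (.node 5614 (.node 2670 (.leaf 0 4 0) (.leaf 0 1 0))
 (.leaf 0 1 0)))) (.node 9526 (.node 3608 (.node 687 (.leaf 0 4 0) (.leaf 0 1 0)) (.node 25 (.leaf
 0 4 0) (.leaf 0 1 0))) (.node 8525 (.node 2948 (.leaf 0 1 0) (.node 1964 (.leaf 0 1 0) (.leaf 0 4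
 0))) (.node 3272 (.node 323 (.leaf 0 4 0) (.leaf 0 1 0)) (.leaf 0 1 0)))))) (.node 53238 (.node
 26592 (.node 16139 (.node 8859 (.node 2952 (.node 1668 (.leaf 0 1 0) (.leaf 0 4 0)) (.node 2332
 (.leaf 0 1 0) (.leaf 0 4 0))) (.node 2954 (.leaf 0 1 0) (.leaf 0 1 0))) (.node 3620 (.node 1584
 (.leaf 0 4 0) (.leaf 0 1 0)) (.node 920 (.leaf 0 4 0) (.leaf 0 1 0)))) (.node 17758 (.node 7656
 (.node 2959 (.leaf 0 1 0) (.node 1075 (.leaf 0 1 0) (.leaf 0 4 0))) (.node 4180 (.node 1220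
 (.leaf 0 4 0) (.leaf 0 1 0)) (.leaf 0 1 0))) (.node 2962 (.node 777 (.leaf 0 1 0) (.leaf 0 4 0))
 (.node 1443 (.leaf 0 1 0) (.leaf 0 4 0))))) (.node 35491 (.node 17794 (.node 6407 (.node 2964
 (.leaf 0 1 0) (.leaf 0 1 0)) (.node 2489 (.leaf 0 4 0) (.node 2967 (.node 1145 (.leaf 0 1 0)
 (.leaf 0 4 0)) (.leaf 0 1 0)))) (.node 6783 (.node 2968 (.leaf 0 1 0) (.node 178 (.leaf 0 1 0)
 (.leaf 0 4 0))) (.node 5094 (.node 2125 (.leaf 0 4 0) (.leaf 0 1 0)) (.leaf 0 1 0)))) (.node 9040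
 (.node 3094 (.node 122 (.leaf 0 4 0) (.leaf 0 1 0)) (.node 546 (.leaf 0 1 0) (.leaf 0 4 0)))
 (.node 8924 (.node 2975 (.leaf 0 1 0) (.node 2553 (.leaf 0 1 0) (.leaf 0 4 0))) (.node 2976
 (.node 246 (.leaf 0 1 0) (.leaf 0 4 0)) (.leaf 0 1 0))))))))) (.node 472628 (.node 234286 (.node
 116637 (.node 60742 (.node 26826 (.node 16853 (.node 8936 (.node 5903 (.node 2254 (.leaf 0 1 0)
 (.node 725 (.leaf 0 4 0) (.leaf 0 1 0))) (.leaf 0 4 0)) (.node 2980 (.leaf 0 1 0) (.leaf 0 1 0)))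
 (.node 3652 (.node 1027 (.leaf 0 4 0) (.leaf 0 1 0)) (.node 357 (.leaf 0 4 0) (.leaf 0 1 0))))
 (.node 17914 (.node 8297 (.node 2984 (.leaf 0 1 0) (.node 1656 (.leaf 0 1 0) (.leaf 0 4 0)))
 (.node 3644 (.node 659 (.leaf 0 4 0) (.leaf 0 1 0)) (.leaf 0 1 0))) (.node 8967 (.node 2988
 (.node 1356 (.leaf 0 1 0) (.leaf 0 4 0)) (.node 2028 (.leaf 0 1 0) (.leaf 0 4 0))) (.node 2990
 (.leaf 0 1 0) (.leaf 0 1 0))))) (.node 28889 (.node 10914 (.node 3664 (.node 1936 (.leaf 0 4 0)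
 (.leaf 0 1 0)) (.node 1264 (.leaf 0 4 0) (.leaf 0 1 0))) (.node 7416 (.node 2995 (.leaf 0 1 0)
 (.node 755 (.leaf 0 1 0) (.leaf 0 4 0))) (.node 4564 (.node 1568 (.leaf 0 4 0) (.leaf 0 1 0))
 (.leaf 0 1 0)))) (.node 15147 (.node 8996 (.node 2998 (.node 453 (.leaf 0 1 0) (.leaf 0 4 0))
 (.node 1127 (.leaf 0 1 0) (.leaf 0 4 0))) (.node 3000 (.leaf 0 1 0) (.leaf 0 1 0))) (.node 2853
 (.leaf 0 4 0) (.node 3003 (.node 825 (.leaf 0 1 0) (.leaf 0 4 0)) (.leaf 0 1 0)))))) (.node 61850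
 (.node 27060 (.node 17577 (.node 6531 (.node 2850 (.leaf 0 1 0) (.node 154 (.leaf 0 4 0) (.leaf 0
 1 0))) (.node 5490 (.node 2485 (.leaf 0 4 0) (.leaf 0 1 0)) (.leaf 0 1 0))) (.node 3466 (.node
 458 (.leaf 0 4 0) (.leaf 0 1 0)) (.node 218 (.leaf 0 1 0) (.leaf 0 4 0)))) (.node 18070 (.node
 8946 (.node 3011 (.leaf 0 1 0) (.node 2249 (.leaf 0 1 0) (.leaf 0 4 0))) (.node 3098 (.node 86
 (.leaf 0 4 0) (.leaf 0 1 0)) (.leaf 0 1 0))) (.node 9044 (.node 5639 (.node 1946 (.leaf 0 1 0)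
 (.node 1069 (.leaf 0 4 0) (.leaf 0 1 0))) (.leaf 0 4 0)) (.node 3016 (.leaf 0 1 0) (.leaf 0 1
 0))))) (.node 28561 (.node 10430 (.node 3696 (.node 1375 (.leaf 0 4 0) (.leaf 0 1 0)) (.node 697
 (.leaf 0 4 0) (.leaf 0 1 0))) (.node 8061 (.node 3020 (.leaf 0 1 0) (.node 1340 (.leaf 0 1 0)
 (.leaf 0 4 0))) (.node 4024 (.node 1003 (.leaf 0 4 0) (.leaf 0 1 0)) (.leaf 0 1 0)))) (.node
 15859 (.node 9075 (.node 3024 (.node 1036 (.leaf 0 1 0) (.leaf 0 4 0)) (.node 1716 (.leaf 0 1 0)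
 (.leaf 0 4 0))) (.node 3026 (.leaf 0 1 0) (.leaf 0 1 0))) (.node 3708 (.node 2296 (.leaf 0 4 0)
 (.leaf 0 1 0)) (.node 1616 (.leaf 0 4 0) (.leaf 0 1 0))))))) (.node 118665 (.node 62968 (.node
 27295 (.node 18190 (.node 7168 (.node 3031 (.leaf 0 1 0) (.node 427 (.leaf 0 1 0) (.leaf 0 4 0)))
 (.node 4956 (.node 1924 (.leaf 0 4 0) (.leaf 0 1 0)) (.leaf 0 1 0))) (.node 3034 (.node 121
 (.leaf 0 1 0) (.leaf 0 4 0)) (.node 803 (.leaf 0 1 0) (.leaf 0 4 0)))) (.node 18226 (.node 9111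
 (.node 3036 (.leaf 0 1 0) (.node 2850 (.leaf 0 1 0) (.leaf 0 4 0))) (.node 3039 (.node 497 (.leaf
 0 1 0) (.leaf 0 4 0)) (.leaf 0 1 0))) (.node 6271 (.node 2546 (.leaf 0 1 0) (.node 494 (.leaf 0 4
 0) (.leaf 0 1 0))) (.node 5894 (.node 2853 (.leaf 0 4 0) (.leaf 0 1 0)) (.leaf 0 1 0))))) (.node
 28223 (.node 9936 (.node 3728 (.node 802 (.leaf 0 4 0) (.leaf 0 1 0)) (.node 118 (.leaf 0 4 0)
 (.leaf 0 1 0))) (.node 8714 (.node 3047 (.leaf 0 1 0) (.node 1937 (.leaf 0 1 0) (.leaf 0 4 0)))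
 (.node 3474 (.node 426 (.leaf 0 4 0) (.leaf 0 1 0)) (.leaf 0 1 0)))) (.node 16581 (.node 9152
 (.node 3050 (.node 1631 (.leaf 0 1 0) (.leaf 0 4 0)) (.node 2317 (.leaf 0 1 0) (.leaf 0 4 0)))
 (.node 3052 (.leaf 0 1 0) (.leaf 0 1 0))) (.node 3740 (.node 1731 (.leaf 0 4 0) (.leaf 0 1 0))
 (.node 1045 (.leaf 0 4 0) (.leaf 0 1 0)))))) (.node 64096 (.node 27528 (.node 18347 (.node 7817
 (.node 3056 (.leaf 0 1 0) (.node 1016 (.leaf 0 1 0) (.leaf 0 4 0))) (.node 4412 (.node 1355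
 (.leaf 0 4 0) (.leaf 0 1 0)) (.leaf 0 1 0))) (.node 3060 (.node 708 (.leaf 0 1 0) (.leaf 0 4 0))
 (.node 1396 (.leaf 0 1 0) (.leaf 0 4 0)))) (.node 18382 (.node 6525 (.node 3062 (.leaf 0 1 0)
 (.leaf 0 1 0)) (.node 2664 (.leaf 0 4 0) (.node 3064 (.node 1088 (.leaf 0 1 0) (.leaf 0 4 0))
 (.leaf 0 1 0)))) (.node 6912 (.node 3067 (.leaf 0 1 0) (.node 91 (.leaf 0 1 0) (.leaf 0 4 0)))
 (.node 5356 (.node 2288 (.leaf 0 4 0) (.leaf 0 1 0)) (.leaf 0 1 0))))) (.node 27875 (.node 9433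
 (.node 3291 (.node 221 (.leaf 0 4 0) (.leaf 0 1 0)) (.node 471 (.leaf 0 1 0) (.leaf 0 4 0)))
 (.node 9219 (.node 3072 (.leaf 0 1 0) (.node 2542 (.leaf 0 1 0) (.leaf 0 4 0))) (.node 3075
 (.node 161 (.leaf 0 1 0) (.leaf 0 4 0)) (.leaf 0 1 0)))) (.node 17313 (.node 9231 (.node 6002
 (.node 2234 (.leaf 0 1 0) (.node 842 (.leaf 0 4 0) (.leaf 0 1 0))) (.leaf 0 4 0)) (.node 3078
 (.leaf 0 1 0) (.leaf 0 1 0))) (.node 3772 (.node 1154 (.leaf 0 4 0) (.leaf 0 1 0)) (.node 462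
 (.leaf 0 4 0) (.leaf 0 1 0)))))))) (.node 233001 (.node 120693 (.node 64863 (.node 27763 (.node
 18502 (.node 8474 (.node 3083 (.leaf 0 1 0) (.node 1617 (.leaf 0 1 0) (.leaf 0 4 0))) (.node 3858
 (.node 774 (.leaf 0 4 0) (.leaf 0 1 0)) (.leaf 0 1 0))) (.node 3086 (.node 1307 (.leaf 0 1 0)
 (.leaf 0 4 0)) (.node 2001 (.leaf 0 1 0) (.leaf 0 4 0)))) (.node 18538 (.node 7173 (.node 3088
 (.leaf 0 1 0) (.leaf 0 1 0)) (.node 3784 (.node 2095 (.leaf 0 4 0) (.leaf 0 1 0)) (.node 1401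
 (.leaf 0 4 0) (.leaf 0 1 0)))) (.node 7565 (.node 3092 (.leaf 0 1 0) (.node 684 (.leaf 0 1 0)
 (.leaf 0 4 0))) (.node 4808 (.node 1715 (.leaf 0 4 0) (.leaf 0 1 0)) (.leaf 0 1 0))))) (.node
 27888 (.node 15547 (.node 9291 (.node 3096 (.node 372 (.leaf 0 1 0) (.leaf 0 4 0)) (.node 1068
 (.leaf 0 1 0) (.leaf 0 4 0))) (.node 3098 (.leaf 0 1 0) (.leaf 0 1 0))) (.node 3040 (.leaf 0 4 0)
 (.node 3100 (.node 756 (.leaf 0 1 0) (.leaf 0 4 0)) (.leaf 0 1 0)))) (.node 18054 (.node 6649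
 (.node 2848 (.leaf 0 1 0) (.node 255 (.leaf 0 4 0) (.leaf 0 1 0))) (.node 5764 (.node 2660 (.leaf
 0 4 0) (.leaf 0 1 0)) (.leaf 0 1 0))) (.node 3675 (.node 569 (.leaf 0 4 0) (.leaf 0 1 0)) (.node
 131 (.leaf 0 1 0) (.leaf 0 4 0)))))) (.node 65409 (.node 35827 (.node 18658 (.node 9143 (.node
 3108 (.leaf 0 1 0) (.node 2226 (.leaf 0 1 0) (.leaf 0 4 0))) (.node 3294 (.node 185 (.leaf 0 4 0)
 (.leaf 0 1 0)) (.leaf 0 1 0))) (.node 9339 (.node 5726 (.node 1914 (.leaf 0 1 0) (.node 1198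
 (.leaf 0 4 0) (.leaf 0 1 0))) (.leaf 0 4 0)) (.node 3114 (.leaf 0 1 0) (.leaf 0 1 0)))) (.node
 10864 (.node 3816 (.node 1514 (.leaf 0 4 0) (.leaf 0 1 0)) (.node 814 (.leaf 0 4 0) (.leaf 0 1
 0))) (.node 8226 (.node 3119 (.leaf 0 1 0) (.node 1289 (.leaf 0 1 0) (.leaf 0 4 0))) (.node 4250
 (.node 1130 (.leaf 0 4 0) (.leaf 0 1 0)) (.leaf 0 1 0))))) (.node 28122 (.node 16277 (.node 9368
 (.node 3122 (.node 975 (.leaf 0 1 0) (.leaf 0 4 0)) (.node 1677 (.leaf 0 1 0) (.leaf 0 4 0)))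
 (.node 3124 (.leaf 0 1 0) (.leaf 0 1 0))) (.node 3828 (.node 2467 (.leaf 0 4 0) (.leaf 0 1 0))
 (.node 1765 (.leaf 0 4 0) (.leaf 0 1 0)))) (.node 7305 (.node 3128 (.leaf 0 1 0) (.node 344
 (.leaf 0 1 0) (.leaf 0 4 0))) (.node 5212 (.node 2083 (.leaf 0 4 0) (.leaf 0 1 0)) (.leaf 0 1
 0)))))) (.node 122642 (.node 56479 (.node 28213 (.node 9398 (.node 3132 (.node 28 (.leaf 0 1 0)
 (.leaf 0 4 0)) (.node 732 (.leaf 0 1 0) (.leaf 0 4 0))) (.node 9404 (.node 3135 (.leaf 0 1 0)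
 (.node 2847 (.leaf 0 1 0) (.leaf 0 4 0))) (.node 3136 (.node 416 (.leaf 0 1 0) (.leaf 0 4 0))
 (.leaf 0 1 0)))) (.node 17915 (.node 6377 (.node 2532 (.leaf 0 1 0) (.node 607 (.leaf 0 4 0)
 (.leaf 0 1 0))) (.node 6180 (.node 3040 (.leaf 0 4 0) (.leaf 0 1 0)) (.leaf 0 1 0))) (.node 3848
 (.node 925 (.leaf 0 4 0) (.leaf 0 1 0)) (.node 219 (.leaf 0 4 0) (.leaf 0 1 0))))) (.node 35891
 (.node 18874 (.node 8899 (.node 3144 (.leaf 0 1 0) (.node 1902 (.leaf 0 1 0) (.leaf 0 4 0)))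
 (.node 3682 (.node 537 (.leaf 0 4 0) (.leaf 0 1 0)) (.leaf 0 1 0))) (.node 9447 (.node 3148
 (.node 1586 (.leaf 0 1 0) (.leaf 0 4 0)) (.node 2294 (.leaf 0 1 0) (.leaf 0 4 0))) (.node 3150
 (.leaf 0 1 0) (.leaf 0 1 0)))) (.node 11340 (.node 3860 (.node 1882 (.leaf 0 4 0) (.leaf 0 1 0))
 (.node 1174 (.leaf 0 4 0) (.leaf 0 1 0))) (.node 7970 (.node 3155 (.leaf 0 1 0) (.node 953 (.leaf
 0 1 0) (.leaf 0 4 0))) (.node 4650 (.node 1494 (.leaf 0 4 0) (.leaf 0 1 0)) (.leaf 0 1 0))))))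
 (.node 56946 (.node 28447 (.node 16113 (.node 9476 (.node 3158 (.node 635 (.leaf 0 1 0) (.leaf 0
 4 0)) (.node 1345 (.leaf 0 1 0) (.leaf 0 4 0))) (.node 3160 (.leaf 0 1 0) (.leaf 0 1 0))) (.node
 2847 (.leaf 0 4 0) (.node 3163 (.node 1027 (.leaf 0 1 0) (.leaf 0 4 0)) (.leaf 0 1 0)))) (.node
 18671 (.node 7037 (.node 3160 (.leaf 0 1 0) (.node 4 (.leaf 0 4 0) (.leaf 0 1 0))) (.node 5624
 (.node 2459 (.leaf 0 4 0) (.leaf 0 1 0)) (.leaf 0 1 0))) (.node 3492 (.node 324 (.leaf 0 4 0)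
 (.leaf 0 1 0)) (.node 388 (.leaf 0 1 0) (.leaf 0 4 0))))) (.node 36796 (.node 19030 (.node 9512
 (.node 3171 (.leaf 0 1 0) (.node 2527 (.leaf 0 1 0) (.leaf 0 4 0))) (.node 3172 (.node 68 (.leaf
 0 1 0) (.leaf 0 4 0)) (.leaf 0 1 0))) (.node 9524 (.node 6097 (.node 2208 (.leaf 0 1 0) (.node
 967 (.leaf 0 4 0) (.leaf 0 1 0))) (.leaf 0 4 0)) (.node 3176 (.leaf 0 1 0) (.leaf 0 1 0))))
 (.node 19470 (.node 10825 (.node 3892 (.node 1289 (.leaf 0 4 0) (.leaf 0 1 0)) (.node 575 (.leaf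
 0 4 0) (.leaf 0 1 0))) (.node 3180 (.leaf 0 1 0) (.node 1570 (.leaf 0 1 0) (.leaf 0 4 0))))
 (.node 10445 (.node 4078 (.node 897 (.leaf 0 4 0) (.leaf 0 1 0)) (.leaf 0 1 0)) (.node 1250
 (.leaf 0 1 0) (.leaf 0 4 0))))))))))))

noncomputable def WL : Nat := evW wt

noncomputable def THL : Nat :=
  Nat.sub (Nat.land (Nat.add WL (ones 3801088)) (Nat.mul (ones 3801088) 3)) (ones 3801088)

noncomputable def PSL : Nat := Nat.shiftRight (Nat.sub WL THL) 2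

theorem THL_eq : THL = TH 796 := Nat.eq_of_beq_eq_true (by decide +kernel)

theorem PSL_eq : PSL = PS 975 := Nat.eq_of_beq_eq_true (by decide +kernel)

end Pool.Agent.MP_118ac5_nt
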