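import Pool.Agent.MP_118ac5_nt.D0
import Pool.Agent.MP_118ac5_nt.D1
import Pool.Agent.MP_118ac5_nt.D2
import Pool.Agent.MP_118ac5_nt.D3
import Pool.Agent.MP_118ac5_nt.D4
import Pool.Agent.MP_118ac5_nt.D5
import Pool.Agent.MP_118ac5_nt.D6
import Pool.Agent.MP_118ac5_nt.D7
import Pool.Agent.MP_118ac5_nt.D8
import Pool.Agent.MP_118ac5_nt.D9
import Pool.Agent.MP_118ac5_nt.D10
import Pool.Agent.MP_118ac5_nt.Lit

namespace Pool.Agent.MP_118ac5_nt

noncomputable def tl : Tr :=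
 (.node 950272
 (.node 475136
 d0
 d1)
 (.node 475136
 (.node 237568
 d2
 d3)
 (.node 237568
 d4
 d5)))

noncomputable def tr : Tr :=
 (.node 950272
 (.node 475136
 (.node 237568
 d6
 d7)
 d8)
 (.node 475136
 d9
 d10))

end Pool.Agent.MP_118ac5_nt
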