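import Pool.Agent.MP_118ac5_nt.All
import Pool.Agent.MP_118ac5_nt.Arith

/-! No decomposition of `15595` gives a prime. -/

namespace Pool.Agent.MP_118ac5_nt

theorem cover_all (k : ℕ) (h1 : 3 ≤ k) (h2 : k ≤ 7797) :
    okK (.node 1900544 tl tr) 15595 k = true := by
  by_cases a1 : k < 2051
  · exact allR_sound _ _ _ cover0 k h1 (by omega)
  by_cases a2 : k < 4099
  · exact allR_sound _ _ _ cover1 k (by omega) (by omega)
  by_cases a3 : k < 6147
  · exact allR_sound _ _ _ cover2 k (by omega) (by omega)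
  · exact allR_sound _ _ _ cover3 k (by omega) (by omega)

theorem half (k m : ℕ) (hk : 3 ≤ k) (hk2 : k ≤ 7797) (hm : 3 ≤ m) (h : k + m = 15595) :
    ¬ (qd (k.totient * m.totient / 4) + 1).Prime := by
  refine not_prime_of tl tr cop_ms ?_ all_good k m (by omega) (by omega) ?_
  · rw [← THL_eq, ← PSL_eq]
    exact all_chk
  · rw [h]
    exact cover_all k hk hk2

theorem final (k m : ℕ) (hk : 3 ≤ k) (hm : 3 ≤ m) (h : k + m = 15595) :
    ¬ (qd (k.totient * m.totient / 4) + 1).Prime := by
  by_cases a : k ≤ 7797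
  · exact half k m hk a hm h
  · rw [mul_comm]
    exact half m k hm (by omega) hk (by omega)

end Pool.Agent.MP_118ac5_nt
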