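import Mathlib

/-! The identity `Q(x) E(x ^ 2) = ψ(x)` for the strict partition series, and its even part. -/

namespace Pool.Agent.MP_118ac5_nt

open Finset

section Alg
variable {R : Type*} [CommRing R]

def Od (x : R) (n : ℕ) : R := ∏ i ∈ range n, (1 - x ^ (2 * i + 1))
def Ev (x : R) (s n : ℕ) : R := ∏ i ∈ Ico s n, (1 - x ^ (2 * i + 2))
def psi (x : R) (n : ℕ) : R := ∑ t ∈ range n, (x ^ (t * (2 * t + 1)) + x ^ ((t + 1) * (2 * t + 1)))
def Eu (x : R) (n : ℕ) : R := ∏ i ∈ range n, (1 - x ^ (i + 1))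
def Qu (x : R) (n : ℕ) : R := ∏ i ∈ range n, (1 + x ^ (i + 1))
def Et (x : R) (K : ℕ) : R :=
  ∑ t ∈ range K, x ^ (6 * (t * t) + t) * (x ^ (10 * t + 5) + 1 - (x ^ (6 * t + 2) + x ^ (4 * t + 1)))
def Pt (x : R) (K : ℕ) : R := ∑ t ∈ range K, x ^ (4 * (t * t) + t) * (x ^ (6 * t + 3) + 1)
def Po (x : R) (K : ℕ) : R :=
  ∑ t ∈ range K, (x ^ (4 * (t * t) + 3 * t) + x ^ (4 * (t * t) + 5 * t + 1))

theorem shanks (x : R) (n : ℕ) :
    Od x n * psi x n = ∑ s ∈ range n, Od x s * Ev x s n * x ^ (s * (2 * n + 1)) := by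
  induction n with
  | zero => simp [psi]
  | succ n ih =>
    have key : ∑ s ∈ range n, (Od x s * Ev x s (n + 1) * x ^ (s * (2 * (n + 1) + 1)) -
        (1 - x ^ (2 * n + 1)) * (Od x s * Ev x s n * x ^ (s * (2 * n + 1)))) =
        Od x n * x ^ (n * (2 * n + 1)) * (1 - x ^ (2 * n)) := by
      have h := sum_range_sub
        (fun s => Od x s * Ev x s n * x ^ (s * (2 * n + 1)) * (1 - x ^ (2 * s))) n
      have h2 : Ev x n n = 1 := by simp [Ev]
      simp only [h2, mul_zero, pow_zero, sub_self, mul_one, sub_zero] at h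
      rw [← h]
      refine sum_congr rfl fun s hs => ?_
      have hs' : s < n := mem_range.1 hs
      have e1 : Ev x s (n + 1) = Ev x s n * (1 - x ^ (2 * n + 2)) := by
        unfold Ev; rw [prod_Ico_succ_top hs'.le]
      have e2 : Ev x s n = (1 - x ^ (2 * s + 2)) * Ev x (s + 1) n := by
        unfold Ev; rw [prod_eq_prod_Ico_succ_bot hs']
      have e3 : Od x (s + 1) = Od x s * (1 - x ^ (2 * s + 1)) := by
        unfold Od; rw [prod_range_succ]
      rw [e1, e3, e2]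
      ring
    rw [sum_sub_distrib, ← mul_sum, ← ih] at key
    have e3 : Od x (n + 1) = Od x n * (1 - x ^ (2 * n + 1)) := by
      unfold Od; rw [prod_range_succ]
    have e4 : psi x (n + 1) = psi x n + (x ^ (n * (2 * n + 1)) + x ^ ((n + 1) * (2 * n + 1))) := by
      unfold psi; rw [sum_range_succ]
    have e5 : Ev x n (n + 1) = 1 - x ^ (2 * n + 2) := by simp [Ev]
    rw [sum_range_succ, e3, e4, e5, eq_add_of_sub_eq key]
    ring

theorem Ev_zero (x : R) (n : ℕ) : Ev x 0 n = Eu (x ^ 2) n := by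
  unfold Ev Eu
  rw [← range_eq_Ico]
  refine prod_congr rfl fun i _ => ?_
  rw [← pow_mul]; ring_nf

theorem shanks_dvd (x : R) (n : ℕ) :
    x ^ (2 * (n + 1) + 1) ∣ Od x (n + 1) * psi x (n + 1) - Eu (x ^ 2) (n + 1) := by
  rw [shanks, sum_range_succ', Ev_zero]
  have : Od x 0 = 1 := by simp [Od]
  simp only [this, zero_mul, pow_zero, mul_one, one_mul, add_sub_cancel_right]
  refine dvd_sum fun s _ => Dvd.dvd.mul_left (pow_dvd_pow _ ?_) _
  nlinarith

theorem Eu_two_mul (x : R) (n : ℕ) : Eu x (2 * n) = Od x n * Eu (x ^ 2) n := by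
  induction n with
  | zero => simp [Eu, Od]
  | succ n ih =>
    unfold Eu Od at *
    rw [show 2 * (n + 1) = 2 * n + 1 + 1 by ring, prod_range_succ, prod_range_succ, ih,
      prod_range_succ, prod_range_succ]
    ring

theorem Qu_mul_Eu (x : R) (n : ℕ) : Qu x n * Eu x n = Eu (x ^ 2) n := by
  unfold Qu Eu
  rw [← prod_mul_distrib]
  refine prod_congr rfl fun i _ => ?_
  ring

theorem prod_stable (x : R) (f : ℕ → R) (hf : ∀ i, x ^ (i + 1) ∣ f i - 1) (n n' : ℕ) (h : n ≤ n') :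
    x ^ (n + 1) ∣ ∏ i ∈ range n', f i - ∏ i ∈ range n, f i := by
  induction n', h using Nat.le_induction with
  | base => simp
  | succ k hk ih =>
    rw [prod_range_succ]
    have : (∏ i ∈ range k, f i) * f k - ∏ i ∈ range n, f i =
        (∏ i ∈ range k, f i) * (f k - 1) + (∏ i ∈ range k, f i - ∏ i ∈ range n, f i) := by ring
    rw [this]
    exact dvd_add (Dvd.dvd.mul_left ((pow_dvd_pow x (by omega)).trans (hf k)) _) ih

theorem sum_stable (y : R) (f : ℕ → R) (n n' : ℕ) (hf : ∀ i, n ≤ i → y ∣ f i) (h : n ≤ n') :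
    y ∣ ∑ i ∈ range n', f i - ∑ i ∈ range n, f i := by
  induction n', h using Nat.le_induction with
  | base => simp
  | succ k hk ih =>
    rw [sum_range_succ, add_sub_right_comm]
    exact dvd_add ih (hf k hk)

theorem gauss_dvd (x : R) (n : ℕ) :
    x ^ (2 * (n + 1) + 1) ∣
      Od x (n + 1) * (Qu x (2 * (n + 1)) * Eu (x ^ 2) (n + 1) - psi x (n + 1)) := by
  have h1 := shanks_dvd x n
  have h2 : x ^ (2 * (n + 1) + 1) ∣ Eu (x ^ 2) (2 * (n + 1)) - Eu (x ^ 2) (n + 1) := by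
    have := prod_stable (x ^ 2) (fun i => 1 - (x ^ 2) ^ (i + 1)) (fun i => by simp) (n + 1)
      (2 * (n + 1)) (by omega)
    refine Dvd.dvd.trans ?_ this
    rw [← pow_mul]
    exact pow_dvd_pow x (by omega)
  have h3 : Od x (n + 1) * (Qu x (2 * (n + 1)) * Eu (x ^ 2) (n + 1) - psi x (n + 1)) =
      (Eu (x ^ 2) (2 * (n + 1)) - Eu (x ^ 2) (n + 1)) -
        (Od x (n + 1) * psi x (n + 1) - Eu (x ^ 2) (n + 1)) := by
    rw [← Qu_mul_Eu x (2 * (n + 1)), Eu_two_mul]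
    ring
  rw [h3]
  exact dvd_sub h2 h1

theorem psi_two_mul (x : R) (K : ℕ) : psi x (2 * K) = Pt (x ^ 2) K + x * Po (x ^ 2) K := by
  induction K with
  | zero => simp [psi, Pt, Po]
  | succ n ih =>
    unfold psi Pt Po at *
    rw [show 2 * (n + 1) = 2 * n + 1 + 1 by ring, sum_range_succ, sum_range_succ, ih,
      sum_range_succ, sum_range_succ]
    ring

variable {S : Type*} [CommRing S]

theorem map_Et (f : R →+* S) (x : R) (K : ℕ) : f (Et x K) = Et (f x) K := by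
  simp [Et, map_sum]
theorem map_Pt (f : R →+* S) (x : R) (K : ℕ) : f (Pt x K) = Pt (f x) K := by
  simp [Pt, map_sum]
theorem map_Po (f : R →+* S) (x : R) (K : ℕ) : f (Po x K) = Po (f x) K := by
  simp [Po, map_sum]
theorem map_Eu (f : R →+* S) (x : R) (K : ℕ) : f (Eu x K) = Eu (f x) K := by
  simp [Eu, map_prod]
theorem map_Qu (f : R →+* S) (x : R) (K : ℕ) : f (Qu x K) = Qu (f x) K := by
  simp [Qu, map_prod]

end Alg

open PowerSeries PowerSeries.WithPiTopology Filter Topology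

theorem lim_dvd (u : ℕ → ℤ⟦X⟧) (a b : ℤ⟦X⟧) (N : ℕ) (h : Tendsto u atTop (𝓝 a))
    (hb : ∀ᶠ n in atTop, (X : ℤ⟦X⟧) ^ N ∣ u n - b) : (X : ℤ⟦X⟧) ^ N ∣ a - b := by
  rw [X_pow_dvd_iff]
  intro m hm
  rw [tendsto_iff_coeff_tendsto] at h
  have h2 : Tendsto (fun n => coeff m (u n)) atTop (𝓝 (coeff m b)) := by
    refine tendsto_nhds_of_eventually_eq ?_
    filter_upwards [hb] with n hn
    have := X_pow_dvd_iff.1 hn m hm
    rw [map_sub] at this
    exact sub_eq_zero.1 this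
  rw [map_sub, tendsto_nhds_unique (h m) h2, sub_self]

/-- The number of partitions into distinct parts. -/
def qd (j : ℕ) : ℕ := (Nat.Partition.distincts j).card

noncomputable def Qs : ℤ⟦X⟧ := PowerSeries.mk fun n => (qd n : ℤ)
noncomputable def Qe : ℤ⟦X⟧ := PowerSeries.mk fun n => (qd (2 * n) : ℤ)
noncomputable def Qo : ℤ⟦X⟧ := PowerSeries.mk fun n => (qd (2 * n + 1) : ℤ)

theorem Qs_dvd (n : ℕ) : (X : ℤ⟦X⟧) ^ (n + 1) ∣ Qs - Qu X n := by
  have h := Nat.Partition.hasProd_powerSeriesMk_card_countRestricted ℤ (m := 2) (by norm_num)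
  simp only [Nat.Partition.countRestricted_two] at h
  have h1 : (fun i => ∑ j ∈ range 2, (X : ℤ⟦X⟧) ^ ((i + 1) * j)) = fun i => 1 + X ^ (i + 1) := by
    funext i; simp [sum_range_succ]
  rw [h1] at h
  refine lim_dvd _ _ _ _ h.tendsto_prod_nat ?_
  filter_upwards [eventually_ge_atTop n] with k hk
  exact prod_stable X _ (fun i => by simp) n k hk

theorem pent_dvd (n : ℕ) : (X : ℤ⟦X⟧) ^ (n + 1) ∣ pentagonalSeries ℤ - Eu X n := by
  refine lim_dvd _ _ _ _ (hasProd_one_sub_X_pow ℤ).tendsto_prod_nat ?_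
  filter_upwards [eventually_ge_atTop n] with k hk
  exact prod_stable X _ (fun i => by simp) n k hk

theorem pent_val (k : ℤ) (v : ℕ) (h : k * (3 * k - 1) = 2 * v) : pentagonal k = v := by
  have := two_mul_natCast_pentagonal k
  omega

theorem pent_sum (K : ℕ) :
    ∑ k ∈ range (2 * K), (-1 : ℤ⟦X⟧) ^ k * (X ^ pentagonal (-(k : ℤ)) - X ^ pentagonal (k + 1)) =
      Et X K := by
  induction K with
  | zero => simp [Et]
  | succ n ih =>
    unfold Et at *
    rw [show 2 * (n + 1) = 2 * n + 1 + 1 by ring, sum_range_succ, sum_range_succ, ih,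
      sum_range_succ]
    rw [pent_val (-((2 * n : ℕ) : ℤ)) (6 * (n * n) + n) (by push_cast; ring),
      pent_val (((2 * n : ℕ) : ℤ) + 1) (6 * (n * n) + n + (4 * n + 1)) (by push_cast; ring),
      pent_val (-((2 * n + 1 : ℕ) : ℤ)) (6 * (n * n) + n + (6 * n + 2)) (by push_cast; ring),
      pent_val (((2 * n + 1 : ℕ) : ℤ) + 1) (6 * (n * n) + n + (10 * n + 5)) (by push_cast; ring),
      pow_succ (-1 : ℤ⟦X⟧) (2 * n), pow_mul (-1 : ℤ⟦X⟧) 2 n]
    simp only [even_two, Even.neg_pow, one_pow]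
    ring

theorem pent_dvd' (K : ℕ) : (X : ℤ⟦X⟧) ^ (6 * (K * K) + K) ∣ pentagonalSeries ℤ - Et X K := by
  have h := (hasSum_pow_pentagonal_sub_pentagonalSeries ℤ).tendsto_sum_nat.comp
    (tendsto_id.const_mul_atTop' (show 0 < 2 by norm_num))
  refine lim_dvd _ _ _ _ h ?_
  filter_upwards [eventually_ge_atTop K] with k hk
  simp only [Function.comp_apply, id]
  rw [pent_sum]
  refine sum_stable _ _ K k (fun i hi => Dvd.dvd.mul_right (pow_dvd_pow _ ?_) _) hk
  nlinarith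

theorem isUnit_Od (n : ℕ) : IsUnit (Od (X : ℤ⟦X⟧) n) := by
  rw [isUnit_iff_constantCoeff]
  simp [Od, map_prod]

theorem Qs_split : Qs = expand 2 two_ne_zero Qe + X * expand 2 two_ne_zero Qo := by
  ext n
  rcases Nat.even_or_odd' n with ⟨i, rfl | rfl⟩
  · rw [map_add, coeff_expand_mul]
    have : coeff (2 * i) (X * expand 2 two_ne_zero Qo) = 0 := by
      cases i with
      | zero => simp
      | succ i =>
        rw [show 2 * (i + 1) = 2 * i + 1 + 1 by ring, coeff_succ_X_mul,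
          coeff_expand_of_not_dvd _ _ _ (by omega)]
    rw [this]; simp [Qs, Qe]
  · rw [map_add, coeff_succ_X_mul, coeff_expand_mul, coeff_expand_of_not_dvd _ _ _ (by omega)]
    simp [Qs, Qo]

theorem even_part (a b : ℤ⟦X⟧) (M : ℕ)
    (h : (X : ℤ⟦X⟧) ^ (2 * M) ∣ expand 2 two_ne_zero a + X * expand 2 two_ne_zero b) :
    (X : ℤ⟦X⟧) ^ M ∣ a := by
  rw [X_pow_dvd_iff] at h ⊢
  intro i hi
  have h1 := h (2 * i) (by omega)
  rw [map_add, coeff_expand_mul] at h1
  have : coeff (2 * i) (X * expand 2 two_ne_zero b) = 0 := by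
    cases i with
    | zero => simp
    | succ i =>
      rw [show 2 * (i + 1) = 2 * i + 1 + 1 by ring, coeff_succ_X_mul,
        coeff_expand_of_not_dvd _ _ _ (by omega)]
  rwa [this, add_zero] at h1

theorem main_identity (M K K2 : ℕ) (hK : M ≤ 6 * (K * K) + K) (hK2 : M ≤ 4 * (K2 * K2) + K2) :
    (X : ℤ⟦X⟧) ^ M ∣ Qe * Et X K - Pt X K2 := by
  set n := M + 2 * K2 with hn
  let ex : ℤ⟦X⟧ →+* ℤ⟦X⟧ := (expand 2 two_ne_zero : ℤ⟦X⟧ →ₐ[ℤ] ℤ⟦X⟧)
  have exX : ex X = X ^ 2 := expand_X 2 two_ne_zero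
  have h1 : (X : ℤ⟦X⟧) ^ (2 * M) ∣ Qu X (2 * (n + 1)) * Eu (X ^ 2) (n + 1) - psi X (n + 1) :=
    (pow_dvd_pow X (by omega)).trans ((isUnit_Od (n + 1)).dvd_mul_left.1 (gauss_dvd X n))
  have h2 : (X : ℤ⟦X⟧) ^ (2 * M) ∣ Qs - Qu X (2 * (n + 1)) :=
    (pow_dvd_pow X (by omega)).trans (Qs_dvd _)
  have h3 : (X : ℤ⟦X⟧) ^ M ∣ Et X K - Eu X (n + 1) := by
    have a1 := (pow_dvd_pow X (show M ≤ n + 1 + 1 by omega)).trans (pent_dvd (n + 1))
    have a2 := (pow_dvd_pow X hK).trans (pent_dvd' K)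
    have := dvd_sub a1 a2
    rwa [sub_sub_sub_cancel_left] at this
  have h4 : (X : ℤ⟦X⟧) ^ (2 * M) ∣ ex (Et X K) - Eu (X ^ 2) (n + 1) := by
    have := map_dvd ex h3
    rwa [map_pow, map_sub, map_Eu, exX, ← pow_mul] at this
  have h5 : (X : ℤ⟦X⟧) ^ (2 * M) ∣ psi X (n + 1) - psi X (2 * K2) := by
    refine sum_stable _ _ (2 * K2) (n + 1) (fun i hi => dvd_add (pow_dvd_pow _ ?_)
      (pow_dvd_pow _ ?_)) (by omega)
    · nlinarith
    · nlinarith
  refine even_part _ (Qo * Et X K - Po X K2) M ?_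
  have e : expand 2 two_ne_zero (Qe * Et X K - Pt X K2) +
      X * expand 2 two_ne_zero (Qo * Et X K - Po X K2) = Qs * ex (Et X K) - psi X (2 * K2) := by
    rw [psi_two_mul, Qs_split, ← exX, ← map_Pt ex, ← map_Po ex]
    simp only [map_sub, map_mul]
    change _ = _ * expand 2 two_ne_zero (Et X K) -
      (expand 2 two_ne_zero (Pt X K2) + X * expand 2 two_ne_zero (Po X K2))
    ring
  rw [e]
  have e2 : Qs * ex (Et X K) - psi X (2 * K2) =
      (Qs - Qu X (2 * (n + 1))) * ex (Et X K) +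
        Qu X (2 * (n + 1)) * (ex (Et X K) - Eu (X ^ 2) (n + 1)) +
        (Qu X (2 * (n + 1)) * Eu (X ^ 2) (n + 1) - psi X (n + 1)) +
        (psi X (n + 1) - psi X (2 * K2)) := by ring
  rw [e2]
  exact dvd_add (dvd_add (dvd_add (h2.mul_right _) (h4.mul_left _)) h1) h5

end Pool.Agent.MP_118ac5_nt
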