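import Pool.Agent.MP_118ac5_nt.Series
import Pool.Agent.MP_118ac5_nt.Comp

/-! Soundness of the modular check of the values of the strict partition function. -/

namespace Pool.Agent.MP_118ac5_nt

open Finset Polynomial

@[irreducible] def BB : ℕ := 2 ^ 96

theorem BB_eq : BB = 2 ^ 96 := by unfold BB; rfl
theorem BB_val : BB = 79228162514264337593543950336 := by rw [BB_eq]; norm_num
theorem BB_pow (k : ℕ) : BB ^ k = 2 ^ (96 * k) := by rw [BB_eq, pow_mul]
theorem BB_pos : 0 < BB := by rw [BB_val]; norm_num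

theorem shl_eq (a k : ℕ) : shl a k = a * BB ^ k := by
  rw [BB_pow]; exact Nat.shiftLeft_eq a (96 * k)
theorem shr_eq (a k : ℕ) : shr a k = a / BB ^ k := by
  rw [BB_pow]; exact Nat.shiftRight_eq_div_pow a (96 * k)
theorem msk_eq (k : ℕ) : msk k = BB ^ k - 1 := by
  unfold msk; rw [shl_eq, one_mul]; rfl
theorem trunc_eq (a k : ℕ) : trunc a k = a % BB ^ k := by
  unfold trunc; rw [msk_eq, BB_pow]; exact Nat.and_two_pow_sub_one_eq_mod a (96 * k)
theorem ones_eq (k : ℕ) : ones k = ∑ i ∈ range k, BB ^ i := by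
  rw [Nat.geomSum_eq (by rw [BB_val]; norm_num)]
  unfold ones; rw [msk_eq]
  have : BB - 1 = 79228162514264337593543950335 := by rw [BB_val]
  rw [this]; rfl
theorem ones_succ (k : ℕ) : ones (k + 1) = 1 + BB * ones k := by
  rw [ones_eq, ones_eq, geom_sum_succ, add_comm]

def dig (N i : ℕ) : ℕ := N / BB ^ i % BB

theorem dig_land (a b i : ℕ) : dig (a &&& b) i ≤ dig b i := by
  unfold dig
  rw [BB_pow, BB_eq, Nat.and_div_two_pow, Nat.and_mod_two_pow]
  exact Nat.and_le_right

theorem dig_ones (u : ℕ) (hu : u < BB) (k i : ℕ) : dig (ones k * u) i ≤ u := by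
  induction k generalizing i with
  | zero => simp [ones_eq, dig]
  | succ k ih =>
    rw [ones_succ, add_mul, one_mul, mul_assoc]
    cases i with
    | zero => simp [dig, Nat.mod_eq_of_lt hu]
    | succ i =>
      have := ih i
      unfold dig at *
      rwa [pow_succ', ← Nat.div_div_eq_div_mul, Nat.add_mul_div_left _ _ BB_pos,
        Nat.div_eq_of_lt hu, zero_add]

theorem ones_lt (u : ℕ) (hu : u < BB) (k : ℕ) : ones k * u < BB ^ k := by
  induction k with
  | zero => simp [ones_eq]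
  | succ k ih =>
    rw [ones_succ, add_mul, one_mul, mul_assoc, pow_succ']
    nlinarith

theorem dig_mod (N s i : ℕ) (h : i < s) : dig (N % BB ^ s) i = dig N i := by
  unfold dig
  obtain ⟨d, rfl⟩ := Nat.exists_eq_add_of_lt h
  rw [add_assoc, pow_add, Nat.mod_mul_right_div_self, pow_succ', Nat.mod_mul_right_mod]

theorem dig_div (N s i : ℕ) : dig (N / BB ^ s) i = dig N (s + i) := by
  unfold dig
  rw [Nat.div_div_eq_div_mul, pow_add]

noncomputable def PP (N k : ℕ) : ℤ[X] := ∑ i ∈ range k, monomial i (dig N i : ℤ)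

theorem coeff_PP (N k i : ℕ) : (PP N k).coeff i = if i < k then (dig N i : ℤ) else 0 := by
  simp [PP, coeff_monomial]

theorem eval_PP (N k : ℕ) : (PP N k).eval (BB : ℤ) = (N % BB ^ k : ℕ) := by
  induction k with
  | zero => simp [PP, Nat.mod_one]
  | succ k ih =>
    unfold PP at *
    rw [sum_range_succ, eval_add, ih, eval_monomial, Nat.mod_pow_succ]
    unfold dig
    push_cast; ring

noncomputable def JJ (a b k : ℕ) : ℤ[X] := PP a k + X ^ k * PP b k

theorem coeff_JJ (a b k i : ℕ) : (JJ a b k).coeff i =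
    if i < k then (dig a i : ℤ) else if i - k < k then (dig b (i - k) : ℤ) else 0 := by
  unfold JJ
  rw [coeff_add, coeff_X_pow_mul', coeff_PP, coeff_PP]
  by_cases h : i < k
  · simp [h, not_le.2 h]
  · simp [h, not_lt.1 h]

theorem JJ_bound (x y k u i : ℕ) (hu : u < BB) :
    0 ≤ (JJ (x &&& (ones k * u)) (y &&& (ones k * u)) k).coeff i ∧
      (JJ (x &&& (ones k * u)) (y &&& (ones k * u)) k).coeff i ≤ u := by
  rw [coeff_JJ]
  split_ifs
  · exact ⟨by positivity, by exact_mod_cast (dig_land _ _ _).trans (dig_ones u hu k _)⟩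
  · exact ⟨by positivity, by exact_mod_cast (dig_land _ _ _).trans (dig_ones u hu k _)⟩
  · exact ⟨le_rfl, by positivity⟩

theorem JJ_eval (x y k u : ℕ) (hu : u < BB) :
    (JJ (x &&& (ones k * u)) (y &&& (ones k * u)) k).eval (BB : ℤ) =
      ((x &&& (ones k * u) : ℕ) : ℤ) + (BB : ℤ) ^ k * ((y &&& (ones k * u) : ℕ) : ℤ) := by
  unfold JJ
  rw [eval_add, eval_mul, eval_pow, eval_X, eval_PP, eval_PP,
    Nat.mod_eq_of_lt (Nat.and_le_right.trans_lt (ones_lt u hu k)),
    Nat.mod_eq_of_lt (Nat.and_le_right.trans_lt (ones_lt u hu k))]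

theorem dig_eq (b : ℤ) (hb : 0 < b) (M : ℕ) (H : ℤ[X]) (h1 : ∀ i < M, |H.coeff i| < b)
    (h2 : b ^ M ∣ H.eval b) : ∀ i < M, H.coeff i = 0 := by
  induction M generalizing H with
  | zero => intro i hi; omega
  | succ M ih =>
    have e : H.eval b = b * H.divX.eval b + H.coeff 0 := by
      conv_lhs => rw [← X_mul_divX_add H]
      simp
    have h0 : H.coeff 0 = 0 := by
      refine Int.eq_zero_of_abs_lt_dvd ?_ (h1 0 (by omega))
      have : b ∣ H.eval b := (dvd_pow_self b (by omega)).trans h2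
      rw [e] at this
      exact (dvd_add_right (dvd_mul_right _ _)).1 this
    rw [e, h0, add_zero, pow_succ'] at h2
    have h3 := ih H.divX (fun i hi => by rw [coeff_divX]; exact h1 _ (by omega))
      ((mul_dvd_mul_iff_left hb.ne').1 h2)
    intro i hi
    cases i with
    | zero => exact h0
    | succ i => rw [← coeff_divX]; exact h3 i (by omega)

theorem bld_eq (pos leaf : ℕ → ℕ) (hp : Monotone pos) (fuel lo cnt : ℕ) (h1 : 1 ≤ cnt)
    (h2 : cnt ≤ 2 ^ fuel) :
    bld pos leaf fuel lo cnt * BB ^ pos lo = ∑ t ∈ range cnt, leaf (lo + t) * BB ^ pos (lo + t) := by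
  induction fuel generalizing lo cnt with
  | zero =>
    obtain rfl : cnt = 1 := by omega
    simp [bld]
  | succ f ih =>
    unfold bld
    by_cases h : cnt ≤ 1
    · obtain rfl : cnt = 1 := by omega
      have hb : Nat.ble 1 1 = true := rfl
      rw [hb, cond_true]
      simp
    · have hb : Nat.ble cnt 1 = false := by
        rw [← Bool.not_eq_true, Nat.ble_eq]; exact h
      rw [hb, cond_false, shl_eq]
      simp only [Nat.add_eq, Nat.sub_eq]
      have hd : Nat.div cnt 2 = cnt / 2 := rfl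
      rw [hd, add_mul, ih lo (cnt / 2) (by omega) (by rw [pow_succ] at h2; omega), mul_assoc,
        ← pow_add, Nat.sub_add_cancel (hp (Nat.le_add_right _ _)),
        ih (lo + cnt / 2) (cnt - cnt / 2) (by omega) (by rw [pow_succ] at h2; omega)]
      conv_rhs => rw [show cnt = cnt / 2 + (cnt - cnt / 2) by omega, sum_range_add]
      simp only [add_assoc]

theorem TH_eq (K : ℕ) (h1 : 1 ≤ K) (h2 : K ≤ 1024) : (TH K : ℤ) = Et (BB : ℤ) K := by
  have hp : Monotone posE := fun a b hab => by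
    simp only [posE, Nat.add_eq, Nat.mul_eq]
    have := Nat.mul_le_mul hab hab
    omega
  have h := bld_eq posE leafE hp 10 0 K h1 h2
  have h0 : posE 0 = 0 := rfl
  rw [h0, pow_zero, mul_one] at h
  unfold TH Et
  rw [h]
  push_cast
  refine sum_congr rfl fun t _ => ?_
  simp only [zero_add, leafE, posE, shl_eq, Nat.add_eq, Nat.mul_eq, Nat.sub_eq, one_mul]
  have a1 : BB ^ (6 * t + 2) ≤ BB ^ (10 * t + 4) := Nat.pow_le_pow_right BB_pos (by omega)
  have a2 : BB ^ (4 * t + 1) ≤ BB ^ (10 * t + 4) := Nat.pow_le_pow_right BB_pos (by omega)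
  have a3 : BB ^ (10 * t + 4) * 2 ≤ BB ^ (10 * t + 5) := by
    rw [pow_succ BB (10 * t + 4)]
    exact Nat.mul_le_mul_left _ (by rw [BB_val]; norm_num)
  rw [Nat.cast_sub (by omega)]
  push_cast; ring

theorem PS_eq (K : ℕ) (h1 : 1 ≤ K) (h2 : K ≤ 1024) : (PS K : ℤ) = Pt (BB : ℤ) K := by
  have hp : Monotone posP := fun a b hab => by
    simp only [posP, Nat.add_eq, Nat.mul_eq]
    have := Nat.mul_le_mul hab hab
    omega
  have h := bld_eq posP leafP hp 10 0 K h1 h2
  have h0 : posP 0 = 0 := rfl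
  rw [h0, pow_zero, mul_one] at h
  unfold PS Pt
  rw [h]
  push_cast
  refine sum_congr rfl fun t _ => ?_
  simp only [zero_add, leafP, posP, shl_eq, Nat.add_eq, Nat.mul_eq, one_mul]
  push_cast; ring

theorem shift_bound (Z : ℤ[X]) (u : ℤ) (hZ : ∀ i, 0 ≤ Z.coeff i ∧ Z.coeff i ≤ u) (a i : ℕ) :
    0 ≤ (X ^ a * Z).coeff i ∧ (X ^ a * Z).coeff i ≤ u := by
  rw [coeff_X_pow_mul']
  split_ifs
  · exact hZ _
  · exact ⟨le_rfl, (hZ 0).1.trans (hZ 0).2⟩

theorem Et_mul_bound (Z : ℤ[X]) (u : ℤ) (hZ : ∀ i, 0 ≤ Z.coeff i ∧ Z.coeff i ≤ u) (K i : ℕ) :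
    -(2 * K * u) ≤ (Et X K * Z).coeff i ∧ (Et X K * Z).coeff i ≤ 2 * K * u := by
  induction K with
  | zero => simp [Et]
  | succ K ih =>
    have e : Et X (K + 1) * Z = Et X K * Z + (X ^ (6 * (K * K) + K + (10 * K + 5)) * Z +
        X ^ (6 * (K * K) + K) * Z - X ^ (6 * (K * K) + K + (6 * K + 2)) * Z -
        X ^ (6 * (K * K) + K + (4 * K + 1)) * Z) := by
      unfold Et; rw [sum_range_succ]; ring
    rw [e, coeff_add, coeff_sub, coeff_sub, coeff_add]
    have a1 := shift_bound Z u hZ (6 * (K * K) + K + (10 * K + 5)) i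
    have a2 := shift_bound Z u hZ (6 * (K * K) + K) i
    have a3 := shift_bound Z u hZ (6 * (K * K) + K + (6 * K + 2)) i
    have a4 := shift_bound Z u hZ (6 * (K * K) + K + (4 * K + 1)) i
    push_cast
    constructor <;> nlinarith [ih.1, ih.2, a1.1, a1.2, a2.1, a2.2, a3.1, a3.2, a4.1, a4.2]

theorem Pt_bound (K i : ℕ) :
    0 ≤ (Pt (X : ℤ[X]) K).coeff i ∧ (Pt (X : ℤ[X]) K).coeff i ≤ 2 * K := by
  induction K with
  | zero => simp [Pt]
  | succ K ih =>
    have e : Pt (X : ℤ[X]) (K + 1) = Pt X K + (X ^ (4 * (K * K) + K + (6 * K + 3)) +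
        X ^ (4 * (K * K) + K)) := by
      unfold Pt; rw [sum_range_succ]; ring
    rw [e, coeff_add, coeff_add, coeff_X_pow, coeff_X_pow]
    push_cast
    constructor <;> split_ifs <;> linarith [ih.1, ih.2]

theorem ext_sound (m : ℕ) (t : Tr) (N : ℕ) (h : ext m t N = true) (i : ℕ) (hi : 0 < t.get i) :
    m ∣ dig N i + t.get i := by
  induction t generalizing N i with
  | nil => simp [Tr.get] at hi
  | leaf off Q p =>
    unfold Tr.get at hi ⊢
    by_cases e : i = off
    · subst e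
      simp only [ext, Nat.beq_eq, trunc_eq, shr_eq, pow_one] at h
      simp only [Nat.beq_refl, cond_true]
      exact Nat.dvd_of_mod_eq_zero h
    · have : Nat.beq i off = false := by
        rw [← Bool.not_eq_true, Nat.beq_eq]; exact e
      simp [this] at hi
  | node s l r ihl ihr =>
    simp only [ext, Bool.and_eq_true, trunc_eq, shr_eq] at h
    unfold Tr.get at hi ⊢
    by_cases e : i < s
    · have : Nat.blt i s = true := by rw [Nat.blt_eq]; exact e
      rw [this, cond_true] at hi ⊢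
      rw [← dig_mod N s i e]
      exact ihl _ h.1 i hi
    · have : Nat.blt i s = false := by
        rw [← Bool.not_eq_true, Nat.blt_eq]; exact e
      rw [this, cond_false] at hi ⊢
      have h3 := ihr _ h.2 _ hi
      rwa [dig_div, Nat.sub_eq, Nat.add_sub_cancel' (not_lt.1 e)] at h3

theorem series_cancel (m M K K2 : ℕ) (hK0 : 1 ≤ K) (hK : M ≤ 6 * (K * K) + K)
    (hK2 : M ≤ 4 * (K2 * K2) + K2) (Z : ℤ[X])
    (h : ∀ i < M, (m : ℤ) ∣ (Et X K * Z + Pt X K2).coeff i) :
    ∀ i < M, (m : ℤ) ∣ Z.coeff i + qd (2 * i) := by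
  let φ : PowerSeries ℤ →+* PowerSeries (ZMod m) := PowerSeries.map (Int.castRingHom (ZMod m))
  let ι : ℤ[X] →+* PowerSeries ℤ := Polynomial.coeToPowerSeries.ringHom
  have φX : φ PowerSeries.X = PowerSeries.X := PowerSeries.map_X _
  have ιX : ι X = PowerSeries.X := coe_X
  have h1 : (PowerSeries.X : PowerSeries (ZMod m)) ^ M ∣ φ (ι (Et X K * Z + Pt X K2)) := by
    rw [PowerSeries.X_pow_dvd_iff]
    intro i hi
    simp only [φ, ι, PowerSeries.coeff_map, coeToPowerSeries.ringHom_apply, coeff_coe,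
      eq_intCast]
    exact (ZMod.intCast_zmod_eq_zero_iff_dvd _ _).2 (h i hi)
  have h2 := map_dvd φ (main_identity M K K2 hK hK2)
  rw [map_pow, φX] at h2
  have h3 := dvd_add h1 h2
  rw [← map_add, map_add ι, map_mul ι, map_Et, map_Pt, ιX] at h3
  have e : Et PowerSeries.X K * ι Z + Pt PowerSeries.X K2 +
      (Qe * Et PowerSeries.X K - Pt PowerSeries.X K2) = Et PowerSeries.X K * (ι Z + Qe) := by ring
  rw [e, map_mul, map_Et, φX] at h3
  have hu : IsUnit (Et (PowerSeries.X : PowerSeries (ZMod m)) K) := by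
    rw [PowerSeries.isUnit_iff_constantCoeff, map_Et, PowerSeries.constantCoeff_X]
    obtain ⟨K', rfl⟩ : ∃ K', K = K' + 1 := ⟨K - 1, by omega⟩
    unfold Et
    rw [sum_range_succ']
    simp
  have h4 := PowerSeries.X_pow_dvd_iff.1 (hu.dvd_mul_left.1 h3)
  intro i hi
  have h5 := h4 i hi
  simp only [φ, ι, PowerSeries.coeff_map, coeToPowerSeries.ringHom_apply, map_add, coeff_coe,
    eq_intCast, Qe, PowerSeries.coeff_mk] at h5
  rw [← ZMod.intCast_zmod_eq_zero_iff_dvd]
  push_cast at h5 ⊢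
  exact h5

theorem mult_sound (k m D : ℕ) (h : mult k m D = true) :
    ∃ x, (x &&& (ones k * 4095)) * m = D := ⟨D / m, by
  unfold mult at h
  rw [Nat.beq_eq] at h
  exact h⟩

theorem verify_sound (K K2 k m x0 x1 : ℕ) (tl tr : Tr) (hK0 : 1 ≤ K) (hK1 : K ≤ 796)
    (hK20 : 1 ≤ K2) (hK21 : K2 ≤ 975) (hK : 2 * k ≤ 6 * (K * K) + K)
    (hK2 : 2 * k ≤ 4 * (K2 * K2) + K2) (hm : m ≤ 19342813113834066795298816)
    (h : verify (TH K) (PS K2) k (2 * k) m (Nat.land x0 (m84 k)) (Nat.land x1 (m84 k)) tl tr = true)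
    (i : ℕ) (hi : i < 2 * k) (hg : 0 < (Tr.node k tl tr).get i) :
    qd (2 * i) ≡ (Tr.node k tl tr).get i [MOD m] := by
  have hu : 19342813113834066795298815 < BB := by rw [BB_val]; norm_num
  have hv : 4095 < BB := by rw [BB_val]; norm_num
  change verify (TH K) (PS K2) k (2 * k) m (x0 &&& (ones k * 19342813113834066795298815))
    (x1 &&& (ones k * 19342813113834066795298815)) tl tr = true at h
  have zb := fun i => JJ_bound x0 x1 k _ i hu
  have ze := JJ_eval x0 x1 k _ hu
  generalize x0 &&& (ones k * 19342813113834066795298815) = Z0 at *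
  generalize x1 &&& (ones k * 19342813113834066795298815) = Z1 at *
  simp only [verify, Bool.and_eq_true] at h
  obtain ⟨⟨⟨h1, h2⟩, h3⟩, h4⟩ := h
  obtain ⟨y0, h1⟩ := mult_sound _ _ _ h1
  obtain ⟨y1, h2⟩ := mult_sound _ _ _ h2
  have db := fun i => JJ_bound y0 y1 k _ i hv
  have de := JJ_eval y0 y1 k _ hv
  generalize y0 &&& (ones k * 4095) = D0 at *
  generalize y1 &&& (ones k * 4095) = D1 at *
  simp only [stageT, trunc_eq, shr_eq, Nat.add_eq, Nat.mul_eq] at h1 h2
  have hA : (stageA (TH K) (PS K2) (2 * k) m Z0 : ℤ) =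
      Et (BB : ℤ) K * Z0 + ((∑ i ∈ range (2 * k), (BB : ℤ) ^ i) * (m * 1600) + Pt (BB : ℤ) K2) := by
    rw [← TH_eq K hK0 (by omega), ← PS_eq K2 hK20 (by omega)]
    simp only [stageA, Nat.add_eq, Nat.mul_eq, ones_eq]
    push_cast; ring
  generalize stageA (TH K) (PS K2) (2 * k) m Z0 = A at *
  have hH := dig_eq (BB : ℤ) (by exact_mod_cast BB_pos) (2 * k)
    (Et X K * JJ Z0 Z1 k + Pt X K2 + C ((m : ℤ) * 1600) * ∑ i ∈ range (2 * k), X ^ i -
      C (m : ℤ) * JJ D0 D1 k) ?_ ?_
  · have h5 := series_cancel m (2 * k) K K2 hK0 hK hK2 (JJ Z0 Z1 k) (fun i hi => by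
      have := hH i hi
      rw [coeff_sub, coeff_add, coeff_C_mul, coeff_C_mul] at this
      exact ⟨(JJ D0 D1 k).coeff i - 1600 * (∑ i ∈ range (2 * k), (X : ℤ[X]) ^ i).coeff i,
        by linarith⟩) i hi
    have h6 : (m : ℤ) ∣ (JJ Z0 Z1 k).coeff i + (Tr.node k tl tr).get i := by
      rw [coeff_JJ]
      unfold Tr.get at hg ⊢
      by_cases e : i < k
      · have : Nat.blt i k = true := by rw [Nat.blt_eq]; exact e
        rw [this, cond_true] at hg ⊢
        rw [if_pos e]
        exact_mod_cast ext_sound m tl Z0 h3 i hg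
      · have : Nat.blt i k = false := by
          rw [← Bool.not_eq_true, Nat.blt_eq]; exact e
        rw [this, cond_false] at hg ⊢
        rw [if_neg e, if_pos (by omega)]
        exact_mod_cast ext_sound m tr Z1 h4 _ hg
    rw [Nat.modEq_iff_dvd]
    have := dvd_sub h6 h5
    rwa [add_sub_add_left_eq_sub] at this
  · intro i hi
    rw [coeff_sub, coeff_add, coeff_add, coeff_C_mul, coeff_C_mul]
    have c1 : (∑ i ∈ range (2 * k), (X : ℤ[X]) ^ i).coeff i = 1 := by
      simp [coeff_X_pow, hi]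
    have c2 := Et_mul_bound _ _ zb K i
    have c3 := Pt_bound K2 i
    have c4 := db i
    have c5 : (m : ℤ) ≤ 19342813113834066795298816 := by exact_mod_cast hm
    have c6 : (K : ℤ) ≤ 796 := by exact_mod_cast hK1
    have c7 : (K2 : ℤ) ≤ 975 := by exact_mod_cast hK21
    have c8 : (0 : ℤ) ≤ m := by positivity
    have c9 := mul_le_mul_of_nonneg_left c4.2 c8
    have c10 := mul_nonneg c8 c4.1
    rw [c1, BB_val, abs_lt]
    push_cast at c2 c9 ⊢
    constructor <;> linarith [c2.1, c2.2, c3.1, c3.2]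
  · have e1 : (Et (X : ℤ[X]) K).eval (BB : ℤ) = Et (BB : ℤ) K := by
      simpa using map_Et (evalRingHom (BB : ℤ)) X K
    have e2 : (Pt (X : ℤ[X]) K2).eval (BB : ℤ) = Pt (BB : ℤ) K2 := by
      simpa using map_Pt (evalRingHom (BB : ℤ)) X K2
    rw [eval_sub, eval_add, eval_add, eval_mul, eval_mul, eval_mul, ze, de, e1, e2, eval_C, eval_C,
      eval_finsetSum]
    simp only [eval_pow, eval_X]
    have g1 : A = D0 * m + BB ^ k * (A / BB ^ k) := by
      rw [h1]; exact (Nat.mod_add_div _ _).symm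
    have g2 : D1 * m ≡ A / BB ^ k + TH K * Z1 [MOD BB ^ k] := by
      rw [h2]
      exact (Nat.mod_modEq _ _).trans ((Nat.mod_modEq _ _).add ((Nat.mod_modEq _ _).mul_right _))
    obtain ⟨c, g3⟩ := Nat.modEq_iff_dvd.1 g2
    generalize A / BB ^ k = A' at *
    rw [g1, ← TH_eq K hK0 (by omega)] at hA
    rw [← TH_eq K hK0 (by omega)]
    push_cast at hA g3
    refine ⟨c, ?_⟩
    rw [two_mul, pow_add]
    rw [two_mul] at hA
    linear_combination (-1 : ℤ) * hA + (BB : ℤ) ^ k * g3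

theorem chk_sound (m : ℕ) (tl tr : Tr) (hm : m ≤ 19342813113834066795298816)
    (h : chk (TH 796) (PS 975) m tl tr = true) (i : ℕ) (hi : i < 3801088)
    (hg : 0 < (Tr.node 1900544 tl tr).get i) :
    qd (2 * i) ≡ (Tr.node 1900544 tl tr).get i [MOD m] := by
  unfold chk chk1 chk0 at h
  exact verify_sound 796 975 1900544 m _ _ tl tr (by norm_num) (by norm_num) (by norm_num)
    (by norm_num) (by norm_num) (by norm_num) hm h i hi hg

end Pool.Agent.MP_118ac5_nt
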